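import Pool.Agent.Lib.MP_5591bc_ag.B.HsA
import Pool.Agent.Lib.MP_5591bc_ag.J.Proj
import Pool.Agent.Lib.MP_5591bc_ag.Z.Fund
import Pool.Agent.Lib.MP_5591bc_ag.Z.Defs

/-! The block of one sheet. -/

namespace Pool.Agent.Lib.MP_5591bc_ag.B

open Matrix Filter Topology Metric G R W M A N E Z J

noncomputable section

variable {σ K ν : Type} [Fintype σ] [DecidableEq σ] [Field K] [Algebra K ℂ] [Fintype ν]
  [DecidableEq ν] {T : MvPolynomial σ K} {B : σ → Matrix ν ν (MvPolynomial σ K)}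
  {U : Set (σ → ℂ)} {P : (σ → ℂ) → Matrix ν ν ℂ} {C1 : Matrix ν ν ℂ} {s : σ → ℂ}

variable {μ : Type} [Fintype μ] [DecidableEq μ] {c : μ → ν} {g : Matrix ν ν ℂ}

theorem bm_t (hc : Function.Injective c) : (bm c)ᵀ * bm c = 1 := by
  ext i k
  simp [bm, mul_apply, one_apply, hc.eq_iff, eq_comm]

theorem mul_bm {α : Type*} (Y : Matrix α ν ℂ) : Y * bm c = Y.submatrix id c := by
  ext i k
  simp [bm, mul_apply, one_apply]

theorem blk_mul {γ : Matrix μ μ ℂ} (e : g * bm c = bm c * γ) (Y : Matrix ν ν ℂ) :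
    (Y * g).submatrix c c = Y.submatrix c c * γ := by
  have : (Y * g).submatrix id c = Y.submatrix id c * γ := by
    rw [← mul_bm, ← mul_bm, Matrix.mul_assoc, e, Matrix.mul_assoc]
  ext i k
  exact congrFun₂ this (c i) k

theorem blk_sub (hc : Function.Injective c) (h2 : g * pr c = pr c * g) :
    g * bm c = bm c * g.submatrix c c := by
  have e1 : pr c * bm c = bm c := by rw [pr, Matrix.mul_assoc, bm_t hc, Matrix.mul_one]
  have e2 : (bm c)ᵀ * (g * bm c) = g.submatrix c c := by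
    ext i k
    simp [mul_bm, bm, mul_apply, one_apply]
  rw [← e2, ← Matrix.mul_assoc, ← Matrix.mul_assoc, ← pr, ← h2, Matrix.mul_assoc, e1]

theorem blk_det (hc : Function.Injective c) {γ : Matrix μ μ ℂ} (h1 : g.det ≠ 0)
    (h2 : g * pr c = pr c * g) (e : g * bm c = bm c * γ) : γ.det ≠ 0 := by
  have k : g⁻¹ * pr c = pr c * g⁻¹ := by
    rw [← mul_nonsing_inv_cancel_right g (g⁻¹ * pr c) h1.isUnit, Matrix.mul_assoc g⁻¹, ← h2,
      nonsing_inv_mul_cancel_left _ _ h1.isUnit]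
  refine det_ne_zero_of_right_inverse (B := g⁻¹.submatrix c c) ?_
  rw [← Matrix.one_mul (γ * _), ← bm_t hc, Matrix.mul_assoc, ← Matrix.mul_assoc (bm c), ← e,
    Matrix.mul_assoc, ← blk_sub hc k, mul_nonsing_inv_cancel_left _ _ h1.isUnit]

theorem blk_ev {ι τ : Type*} (e : ι → ℂ) (f : τ → MvPolynomial ι ℂ) (p : MvPolynomial τ K) :
    MvPolynomial.eval e (MvPolynomial.aeval f p) =
      MvPolynomial.aeval (fun i => MvPolynomial.eval e (f i)) p := by
  induction p using MvPolynomial.induction_on <;> simp [*, MvPolynomial.algebraMap_apply]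

theorem blk_elim {α β : Type*} (t : σ → ℂ) (Y : α → ℂ) (Z : β → ℂ) :
    (fun i => MvPolynomial.eval (Sum.elim t (Sum.elim Y Z)) (Sum.elim (fun l => .X (.inl l))
      (fun b => .X (.inr (.inl b))) i)) = Sum.elim t Y := by
  funext o
  rcases o with l | b <;> simp

theorem blk_pol {F : (σ → ℂ) → Matrix ν ν ℂ → Matrix ν ν ℂ → ℂ} (hg : g ∈ Fb P C1 s)
    (hF : ∃ H : MvPolynomial (σ ⊕ (ν × ν) ⊕ (ν × ν)) ℂ, ∀ t Y Z, MvPolynomial.eval
      (Sum.elim t (Sum.elim (fun a => Y a.1 a.2) fun a => Z a.1 a.2)) H = F t Y Z)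
    (h : ∀ᶠ t in 𝓝 s, F t (P t * C1) (P t) = 0) : F s (P s * C1) (P s * g) = 0 :=
  let ⟨H, k⟩ := hF
  (k _ _ _).symm.trans (hg.2 H (h.mono fun _ e => (k _ _ _).trans e))

theorem blk_mf (hg : g ∈ Fb P C1 s) {γ : Matrix μ μ ℂ} (h0 : γ.det ≠ 0)
    (e : g * bm c = bm c * γ) : γ ∈ Mf P C1 c s := by
  refine ⟨h0, fun H hH => ?_⟩
  rw [← blk_mul e]
  have key : ∀ (t : σ → ℂ) (Y Z : Matrix ν ν ℂ), MvPolynomial.eval (Sum.elim t (Sum.elim
      (fun a : ν × ν => Y a.1 a.2) fun a : ν × ν => Z a.1 a.2)) (MvPolynomial.rename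
      (Sum.map id (Sum.map id fun a : μ × μ => (c a.1, c a.2))) H) = MvPolynomial.eval (Sum.elim t
      (Sum.elim (fun a : ν × ν => Y a.1 a.2) fun a : μ × μ => Z (c a.1) (c a.2))) H := fun t Y Z =>
    (MvPolynomial.eval_rename _ _ _).trans (congrArg (MvPolynomial.eval · H) (funext fun o => by
      rcases o with l | b | b <;> rfl))
  exact (key s (P s * C1) (P s * g)).symm.trans
    (hg.2 _ (hH.mono fun t e => (key t (P t * C1) (P t)).trans e))

theorem blk_pt (T0 : T ≠ 0) (ho : IsOpen U) (hn : U.Nonempty) :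
    ∃ t ∈ U, MvPolynomial.aeval t T ≠ 0 := by
  by_contra hh
  push Not at hh
  obtain ⟨p, hp⟩ := hn
  have := AnalyticOnNhd.eqOn_zero_of_preconnected_of_eventuallyEq_zero (𝕜 := ℂ)
    (f := fun t : σ → ℂ => MvPolynomial.aeval t T) (fun z _ => aeval_ana T) isPreconnected_univ
    (Set.mem_univ p) (mem_of_superset (ho.mem_nhds hp) hh)
  refine T0 (MvPolynomial.map_injective (algebraMap K ℂ) (algebraMap K ℂ).injective
    (MvPolynomial.funext fun t => ?_))
  rw [map_zero, map_zero, MvPolynomial.eval_map, ← MvPolynomial.aeval_def]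
  exact this (Set.mem_univ t)

theorem blk_adj (hc : Function.Injective c) {γ : Matrix μ μ ℂ} (h1 : g.det = 1)
    (h2 : g * pr c = pr c * g) (e : g * bm c = bm c * γ) :
    γ.det ≠ 0 ∧ pr c * g.adjugate = bm c * γ⁻¹ * (bm c)ᵀ := by
  have k1 : g.adjugate * g = 1 := by rw [adjugate_mul, h1, one_smul]
  have k2 : g * g.adjugate = 1 := by rw [mul_adjugate, h1, one_smul]
  have k3 : pr c * g.adjugate = g.adjugate * pr c := by
    rw [← Matrix.one_mul (pr c * _), ← k1, Matrix.mul_assoc, ← Matrix.mul_assoc g, h2,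
      Matrix.mul_assoc, k2, Matrix.mul_one]
  have h0 := blk_det hc (by rw [h1]; exact one_ne_zero) h2 e
  refine ⟨h0, ?_⟩
  have : g.adjugate * bm c = bm c * γ⁻¹ := by
    rw [← Matrix.one_mul (bm c * _), ← k1, Matrix.mul_assoc, ← Matrix.mul_assoc g, e,
      Matrix.mul_assoc, mul_nonsing_inv _ h0.isUnit, Matrix.mul_one]
  rw [k3, pr, ← Matrix.mul_assoc, this]

theorem fb_proj (ho : IsOpen U) {C0 : Matrix ν ν ℂ} (h : Proj T U P C1 C0) (hs : s ∈ U)
    (hT : MvPolynomial.aeval s T ≠ 0) (hd : (P s).det ≠ 0) (hg : g ∈ Fb P C1 s) :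
    g * C0 = C0 * g := by
  obtain ⟨-, N, A, h⟩ := h
  have key : MvPolynomial.aeval s T ^ N • (P s * g * C0) =
      A.map (MvPolynomial.aeval (Sum.elim s fun a => (P s * C1) a.1 a.2)) * (P s * g) := by
    ext i k
    refine sub_eq_zero.1 (blk_pol (F := fun t Y Z => (MvPolynomial.aeval t T ^ N • (Z * C0)) i k -
      (A.map (MvPolynomial.aeval (Sum.elim t fun a => Y a.1 a.2)) * Z) i k) hg
      ⟨MvPolynomial.aeval (fun l => .X (.inl l)) T ^ N *
        (∑ a, .X (.inr (.inr (i, a))) * .C (C0 a k)) - ∑ a, MvPolynomial.aeval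
          (Sum.elim (fun l => .X (.inl l)) fun b => .X (.inr (.inl b))) (A i a) *
            .X (.inr (.inr (a, k))), fun t Y Z => ?_⟩ ?_)
    · simp only [map_sub, map_mul, map_pow, map_sum, blk_ev, blk_elim]
      simp [mul_apply]
    · filter_upwards [ho.mem_nhds hs] with t ht
      rw [h t ht, sub_self]
  rw [← Matrix.mul_assoc, ← h s hs, Matrix.smul_mul, Matrix.mul_assoc, Matrix.mul_assoc] at key
  have := smul_right_injective _ (pow_ne_zero N hT) key
  rw [← nonsing_inv_mul_cancel_left (P s) (g * C0) hd.isUnit, this,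
    nonsing_inv_mul_cancel_left _ _ hd.isUnit]

theorem fb_det (ho : IsOpen U) {N : ℕ} {A : MvPolynomial (σ ⊕ ν × ν) ℂ}
    (h : ∀ t ∈ U, MvPolynomial.aeval t T ^ N * (P t).det =
      MvPolynomial.eval (Sum.elim t fun a => (P t * C1) a.1 a.2) A) (hs : s ∈ U)
    (hT : MvPolynomial.aeval s T ≠ 0) (hd : (P s).det ≠ 0) (hg : g ∈ Fb P C1 s) : g.det = 1 := by
  have key := sub_eq_zero.1 (blk_pol (F := fun t Y Z => MvPolynomial.aeval t T ^ N * Z.det -
      MvPolynomial.aeval (Sum.elim t fun a => Y a.1 a.2) A) hg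
      ⟨MvPolynomial.aeval (fun l => .X (.inl l)) T ^ N *
        (of fun i k => .X (.inr (.inr (i, k)))).det - MvPolynomial.aeval
          (Sum.elim (fun l => .X (.inl l)) fun b => .X (.inr (.inl b))) A, fun t Y Z => ?_⟩ ?_)
  · rw [MvPolynomial.aeval_eq_eval, ← h s hs, det_mul] at key
    exact mul_left_cancel₀ hd ((mul_left_cancel₀ (pow_ne_zero N hT) key).trans (mul_one _).symm)
  · rw [map_sub, map_mul, map_pow, RingHom.map_det, blk_ev, blk_ev, blk_elim]
    simp only [MvPolynomial.eval_X, Sum.elim_inl]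
    congr 3
    ext i k
    simp
  · filter_upwards [ho.mem_nhds hs] with t ht
    rw [h t ht, MvPolynomial.aeval_eq_eval, sub_self]

theorem det_cont (ho : IsOpen U) {N : ℕ} {A : MvPolynomial (σ ⊕ ν × ν) ℂ}
    (h : ∀ t ∈ U, MvPolynomial.aeval t T ^ N * (P t).det =
      MvPolynomial.eval (Sum.elim t fun a => (P t * C1) a.1 a.2) A) {V : Set (σ → ℂ)}
    {Q : (σ → ℂ) → Matrix ν ν ℂ} (k : ContM U P V Q) : ∀ t ∈ V,
      MvPolynomial.aeval t T ^ N * (Q t).det =
        MvPolynomial.eval (Sum.elim t fun a => (Q t * C1) a.1 a.2) A := by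
  suffices IsOpen V ∧ ∀ t ∈ V, MvPolynomial.aeval t T ^ N * (Q t).det =
    MvPolynomial.eval (Sum.elim t fun a => (Q t * C1) a.1 a.2) A from this.2
  induction k with
  | base => exact ⟨ho, h⟩
  | step U1 U2 P1 P2 s' _ o2 c2 d2 s1 s2 e ih =>
    refine ⟨o2, fun t ht => ?_⟩
    have an : ∀ (M : Matrix ν ν ℂ) i j, AnalyticOnNhd ℂ (fun t => (P2 t * M) i j) U2 :=
      fun M i j t ht => Finset.analyticAt_fun_sum _ fun k _ => (d2 i k t ht).fun_mul analyticAt_const
    have co : ∀ l (t : σ → ℂ), AnalyticAt ℂ (fun z : σ → ℂ => z l) t := fun l t =>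
      (ContinuousLinearMap.proj (R := ℂ) (φ := fun _ : σ => ℂ) l).analyticAt t
    refine AnalyticOnNhd.eqOn_of_preconnected_of_eventuallyEq (𝕜 := ℂ)
      (f := fun t => MvPolynomial.aeval t T ^ N * (P2 t).det)
      (g := fun t => MvPolynomial.eval (Sum.elim t fun a : ν × ν => (P2 t * C1) a.1 a.2) A)
      (fun t ht => ?_) (fun t ht => ?_) c2 s2 ?_ ht
    · exact ((AnalyticAt.aeval_mvPolynomial (f := fun z => z) (co · t) T).fun_pow N).fun_mul
        (fund_det fun i j => d2 i j t ht).1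
    · simpa only [MvPolynomial.aeval_eq_eval] using AnalyticAt.aeval_mvPolynomial (𝕜 := ℂ) (z := t)
        (f := fun t => Sum.elim t fun a : ν × ν => (P2 t * C1) a.1 a.2) (by
          rintro (l | a)
          exacts [co l t, an C1 a.1 a.2 t ht]) A
    · filter_upwards [e, ih.1.mem_nhds s1] with t h3 h4
      rw [← h3]
      exact ih.2 t h4

theorem fb_blk (hc : Function.Injective c) (hg : g ∈ Fb P C1 s) (h2 : g * pr c = pr c * g) :
    g * bm c = bm c * g.submatrix c c ∧ g.submatrix c c ∈ Mf P C1 c s := by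
  have e := blk_sub hc h2
  exact ⟨e, blk_mf hg (blk_det hc hg.1 h2 e) e⟩

theorem fb_mf (hg : g ∈ Fb P C1 s) {γ : Matrix μ μ ℂ} (h0 : γ.det ≠ 0)
    (e : g * bm c = bm c * γ) : γ ∈ Mf P C1 c s := by
  exact blk_mf hg h0 e

theorem mf_zc {Γ : Set (Matrix μ μ ℚ)} (h : ∀ γ ∈ Γ, qc γ ∈ Mf P C1 c s) {a : Matrix μ μ ℂ}
    (h0 : a.det ≠ 0) (ha : a ∈ Zc Γ) : a ∈ Mf P C1 c s := by
  refine ⟨h0, fun H hH => ?_⟩
  have key : ∀ x : Matrix μ μ ℂ, MvPolynomial.eval (fun b => x b.1 b.2) (MvPolynomial.aeval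
      (Sum.elim (fun l => .C (s l)) (Sum.elim (fun b : ν × ν => .C ((P s * C1) b.1 b.2))
        fun b : μ × μ => ∑ k, .C (P s (c b.1) (c k)) * .X (k, b.2))) H) =
      MvPolynomial.eval (Sum.elim s (Sum.elim (fun b => (P s * C1) b.1 b.2)
        fun b => ((P s).submatrix c c * x) b.1 b.2)) H := fun x => by
    rw [blk_ev, MvPolynomial.aeval_eq_eval]
    congr 2
    funext o
    rcases o with l | b | b <;> simp [mul_apply]
  rw [← key]
  exact ha _ fun γ hγ => (key _).trans ((h γ hγ).2 H hH)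

/-- the factor is `b γ bᵀ + 1 - pr c`; `det J ≠ 0` by `hs_J` at a point where `T ≠ 0` -/
theorem vhs_finMon [CharZero K] (T0 : T ≠ 0) (ho : IsOpen U) (hU : IsPreconnected U)
    (hP : FundM T B U P) (hc : Function.Injective c) {J : Matrix μ μ ℝ} {j r : ℕ} {w : μ → ℕ}
    (h : VHS T U P C1 c J j w r) : FinMon K U P C1 (pr c) r := by
  obtain ⟨-, h2, h3, h4⟩ := h
  intro t V Q hV
  obtain ⟨i, i', ne, e⟩ := h3 t V Q hV
  obtain ⟨γ, g1, g2⟩ := h4 _ _ _ _ (hV i).1 (hV i').1 t (hV i).2 (hV i').2 e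
  obtain ⟨t0, t1, t2⟩ := blk_pt T0
    (cont_dom ho hU (fun i j t ht => ((hP t ht).2 i j).1) (hV i).1).1 ⟨t, (hV i).2⟩
  have j0 := hs_J (h2 _ _ (hV i).1 t0 t1 t2).1
  have d0 : (γ.map Int.cast : Matrix μ μ ℂ).det ≠ 0 := by
    have e1 : ∀ (L : Type) [Field L], (γ.map Int.cast : Matrix μ μ L).det = γ.det := fun L _ =>
      ((Int.castRingHom L).map_det γ).symm
    rw [e1, Int.cast_ne_zero]
    rintro e0
    have := congrArg det g1
    rw [det_mul, det_mul, e1, e0, Int.cast_zero, zero_mul, zero_mul] at this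
    exact j0 this.symm
  let b : Matrix ν μ K := (1 : Matrix ν ν K).submatrix id c
  have eb : b.map (algebraMap K ℂ) = bm c := by
    ext x y
    simp [b, bm, one_apply, apply_ite]
  obtain ⟨x, this⟩ : ∃ x : Matrix μ μ K, x.map (algebraMap K ℂ) = γ.map Int.cast :=
    ⟨γ.map Int.cast, by ext x y; simp⟩
  generalize (γ.map Int.cast : Matrix μ μ ℂ) = y at this d0 g2
  have em : (b * x * bᵀ + (1 - b * bᵀ)).map (algebraMap K ℂ) =
      bm c * y * (bm c)ᵀ + (1 - pr c) := by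
    rw [Matrix.map_add _ (map_add _), Matrix.map_sub _ (map_sub _), Matrix.map_mul, Matrix.map_mul,
      Matrix.map_mul, transpose_map, eb, this, Matrix.map_one _ (map_zero _) (map_one _), pr]
  have bt : ∀ {α : Type} (Y : Matrix μ α ℂ), (bm c)ᵀ * (bm c * Y) = Y := fun Y => by
    rw [← Matrix.mul_assoc, bm_t hc, Matrix.one_mul]
  refine ⟨i, i', ne, b * x * bᵀ + (1 - b * bᵀ), fun e0 => ?_, ?_⟩
  · have e1 := (algebraMap K ℂ).map_det (b * x * bᵀ + (1 - b * bᵀ))
    rw [e0, map_zero, RingHom.mapMatrix_apply, em] at e1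
    refine det_ne_zero_of_right_inverse
      (B := bm c * y⁻¹ * (bm c)ᵀ + (1 - pr c)) ?_ e1.symm
    simp only [pr, Matrix.mul_add, Matrix.add_mul, Matrix.mul_sub, Matrix.sub_mul, Matrix.mul_one,
      Matrix.one_mul, Matrix.mul_assoc, bt, mul_nonsing_inv_cancel_left _ _ d0.isUnit]
    abel
  · filter_upwards [e, g2] with z z1 z2
    refine ⟨z1, ?_⟩
    replace z2 : Q i' z * bm c = Q i z * bm c * y := by rw [mul_bm, mul_bm]; exact z2
    rw [em, pr, ← Matrix.mul_assoc, z2]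
    simp only [Matrix.mul_add, Matrix.mul_sub, Matrix.mul_one, Matrix.mul_assoc, bt, sub_self,
      add_zero]

theorem pr_cast {m n : ℕ} (h : m ≤ n) :
    pr (Fin.castLE h) = diagonal fun i : Fin n => if (i : ℕ) < m then 1 else 0 := by
  ext i k
  simp only [pr, bm, mul_apply, submatrix_apply, transpose_apply, id, one_apply, diagonal_apply]
  by_cases hi : (i : ℕ) < m
  · rw [Finset.sum_eq_single ⟨i, hi⟩ (fun a _ ha => by
      rw [if_neg (fun e : i = _ => ha (Fin.ext (congrArg Fin.val e).symm)), zero_mul]) (by simp)]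
    simp [hi, eq_comm]
  · rw [Finset.sum_eq_zero fun a _ => by
      rw [if_neg (fun e : i = _ => hi (by rw [e]; exact a.2)), zero_mul]]
    simp [hi]

end

end Pool.Agent.Lib.MP_5591bc_ag.B
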