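import Pool.Agent.Lib.MP_5591bc_ag.B.Set
import Pool.Agent.Lib.MP_5591bc_ag.A.Rep

/-! The formula of Bochner. -/

namespace Pool.Agent.Lib.MP_5591bc_ag.B

open Matrix Filter Topology Metric G R W M A

noncomputable section

variable {μ : Type*} [Fintype μ] [DecidableEq μ] {κ : ℝ} {S W : ℂ → Matrix μ μ ℝ} {u : ℂ}

theorem boch_q {S : Matrix μ μ ℝ} (h : S.PosDef) (A : Matrix μ μ ℝ) :
    0 ≤ trace (S⁻¹ * (Aᵀ * S * A)) := by
  obtain ⟨C, hC⟩ := rep_sq h.inv.posSemidef
  obtain ⟨B, hB⟩ := rep_sq h.posSemidef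
  have := (rep_tm (B * A * Cᵀ)).trace_nonneg
  rw [hC, Matrix.mul_assoc Cᵀ, trace_mul_comm, hB]
  simpa only [transpose_mul, transpose_transpose, Matrix.mul_assoc] using this

omit [Fintype μ] [DecidableEq μ] in
theorem boch_tr {S : Matrix μ μ ℝ} (h : S.PosDef) : Sᵀ = S := by
  simpa using h.1.eq

theorem tr_sym {S A : Matrix μ μ ℝ} (hS : S.PosDef) (h : (S * A)ᵀ = S * A) :
    0 ≤ trace (A * A) := by
  have := boch_q hS A
  rw [transpose_mul, boch_tr hS] at h
  rwa [h, Matrix.mul_assoc, nonsing_inv_mul_cancel_left _ _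
    ((isUnit_iff_isUnit_det _).1 hS.isUnit)] at this

theorem tr_alt {S A : Matrix μ μ ℝ} (hS : S.PosDef) (h : (S * A)ᵀ = -(S * A)) :
    trace (A * A) ≤ 0 := by
  have := boch_q hS A
  rw [transpose_mul, boch_tr hS] at h
  rwa [h, Matrix.neg_mul, Matrix.mul_neg, Matrix.mul_assoc, nonsing_inv_mul_cancel_left _ _
    ((isUnit_iff_isUnit_det _).1 hS.isUnit), trace_neg, neg_nonneg] at this

/-- the operator norm is at most the Hilbert-Schmidt norm -/
theorem tr_op {S A : Matrix μ μ ℝ} (hS : S.PosDef) (h : (S * A)ᵀ = S * A) (e : μ → ℝ) :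
    (e ⬝ᵥ (S * A) *ᵥ e) ^ 2 ≤ trace (A * A) * (e ⬝ᵥ S *ᵥ e) ^ 2 := by
  have b : (S * vecMulVec e (e ᵥ* S))ᵀ = S * vecMulVec e (e ᵥ* S) := by
    rw [mul_vecMulVec, transpose_vecMulVec, ← mulVec_transpose, boch_tr hS]
  have b1 : trace (A * vecMulVec e (e ᵥ* S)) = e ⬝ᵥ (S * A) *ᵥ e := by
    rw [mul_vecMulVec, trace_vecMulVec, dotProduct_comm, ← dotProduct_mulVec, mulVec_mulVec]
  have b2 : trace (vecMulVec e (e ᵥ* S) * vecMulVec e (e ᵥ* S)) = (e ⬝ᵥ S *ᵥ e) ^ 2 := by
    rw [vecMulVec_mul_vecMulVec, trace_vecMulVec, dotProduct_smul, dotProduct_comm e,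
      ← dotProduct_mulVec, smul_eq_mul, sq]
  generalize vecMulVec e (e ᵥ* S) = B at b b1 b2
  have := discrim_le_zero (a := trace (B * B)) (b := 2 * trace (A * B)) (c := trace (A * A))
    fun t => by
      have := tr_sym (A := A + t • B) hS (by
        rw [Matrix.mul_add, Matrix.mul_smul, transpose_add, transpose_smul, h, b])
      simp only [Matrix.mul_add, Matrix.add_mul, Matrix.mul_smul, Matrix.smul_mul, trace_add,
        trace_smul, smul_eq_mul, trace_mul_comm B A] at this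
      linarith
  rw [discrim, b1, b2] at this
  linarith

theorem boch_cs {S A B : Matrix μ μ ℝ} (h : S.PosDef) (a : (S * A)ᵀ = -(S * A))
    (b : (S * B)ᵀ = -(S * B)) : trace (A * B) ^ 2 ≤ trace (A * A) * trace (B * B) := by
  have := discrim_le_zero (a := -trace (B * B)) (b := -(2 * trace (A * B))) (c := -trace (A * A))
    fun t => by
      have := tr_alt (A := A + t • B) h (by
        rw [Matrix.mul_add, Matrix.mul_smul, transpose_add, transpose_smul, a, b, neg_add, smul_neg])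
      simp only [Matrix.mul_add, Matrix.add_mul, Matrix.mul_smul, Matrix.smul_mul, trace_add,
        trace_smul, smul_eq_mul, trace_mul_comm B A] at this
      linarith
  rw [discrim] at this
  linarith

/-- the trace as a matrix -/
def bochT : Matrix μ μ ℝ →ₗ[ℝ] Matrix Unit Unit ℝ where
  toFun A := of fun _ _ => trace A
  map_add' A B := by ext; simp
  map_smul' c A := by ext; simp

omit [DecidableEq μ] in
theorem boch_an {A : ℂ → Matrix μ μ ℝ} (h : AnM A u) : AnalyticAt ℝ (fun w => trace (A w)) u :=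
  h.lin bochT () ()

omit [DecidableEq μ] in
theorem boch_pv {A : ℂ → Matrix μ μ ℝ} (h : AnM A u) (v : ℂ) :
    pv v (pv v fun w => trace (A w)) u = trace (pM v (pM v A) u) := by
  have e : pM v (fun w => bochT (A w)) =ᶠ[𝓝 u] fun w => bochT (pM v A w) :=
    h.ev.mono fun w hw => pM_lin hw bochT
  exact congrFun (congrFun ((pM_congr (v := v) e).self_of_nhds.trans (pM_lin (h.pM v) bochT)) ()) ()

omit [DecidableEq μ] in
theorem boch_sub {A B : ℂ → Matrix μ μ ℝ} (h : AnM A u) (h' : AnM B u) (v : ℂ) :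
    pM v (fun w => A w * B w - B w * A w) u =
      pM v A u * B u + A u * pM v B u - (pM v B u * A u + B u * pM v A u) := by
  have := pM_add (v := v) (h.mul h') ((h'.mul h).smul (-1))
  rw [pM_smul (h'.mul h), pM_mul h h', pM_mul h' h] at this
  simpa only [neg_one_smul, ← sub_eq_add_neg] using this

omit [DecidableEq μ] in
theorem boch_sq {A B : ℂ → Matrix μ μ ℝ} (h : AnM A u) (h' : AnM B u) (v : ℂ) :
    pv v (pv v fun w => trace (A w * A w + B w * B w)) u =
      2 * (trace (A u * pM v (pM v A) u) + trace (pM v A u * pM v A u) +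
        trace (B u * pM v (pM v B) u) + trace (pM v B u * pM v B u)) := by
  have e : pM v (fun w => A w * A w + B w * B w) =ᶠ[𝓝 u] fun w =>
      (pM v A w * A w + A w * pM v A w) + (pM v B w * B w + B w * pM v B w) := by
    filter_upwards [h.ev, h'.ev] with w a b
    rw [pM_add (a.mul a) (b.mul b), pM_mul a a, pM_mul b b]
  have a := h.pM v
  have b := h'.pM v
  rw [boch_pv ((h.mul h).add (h'.mul h')), (pM_congr e).self_of_nhds,
    pM_add ((a.mul h).add (h.mul a)) ((b.mul h').add (h'.mul b)), pM_add (a.mul h) (h.mul a),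
    pM_add (b.mul h') (h'.mul b), pM_mul a h, pM_mul h a, pM_mul b h', pM_mul h' b]
  simp only [trace_add, trace_mul_comm (pM v (pM v A) u), trace_mul_comm (pM v (pM v B) u)]
  ring

omit [Fintype μ] [DecidableEq μ] in
theorem boch_dsym {A : ℂ → Matrix μ μ ℝ} (h : ∀ᶠ w in 𝓝 u, (A w)ᵀ = A w) (v : ℂ) :
    ∀ᶠ w in 𝓝 u, (pM v A w)ᵀ = pM v A w := pM_congr (A := fun w => (A w)ᵀ) h

theorem boch_alg {S W X Y P Q R U V : Matrix μ μ ℝ} {κ : ℝ} (h : S.PosDef)
    (hW : (S * W)ᵀ = -(S * W)) (hX : (S * X)ᵀ = S * X) (hY : (S * Y)ᵀ = S * Y)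
    (c1 : W * X - X * W = (2 : ℝ) • Y) (c2 : W * Y - Y * W = (-2 : ℝ) • X)
    (hL : P + R = Y * X - X * Y) (hU : U = Q * X + Y * P - (P * Y + X * Q))
    (hV : V = R * X + Y * Q - (Q * Y + X * R)) (s1 : (-(S * Y) * Y + S * Q)ᵀ = -(S * Y) * Y + S * Q)
    (s2 : (S * X * Y + S * R)ᵀ = S * X * Y + S * R)
    (s3 : (-(S * Y) * X + S * P)ᵀ = -(S * Y) * X + S * P) (hκ : -trace (W * W) ≤ κ) :
    trace (X * X + Y * Y) ^ 2 ≤ κ * (2 * (trace (X * U) + trace (Y * V) + trace (P * P) +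
      2 * trace (Q * Q) + trace (R * R))) := by
  have t : ∀ {A B : Matrix μ μ ℝ}, (S * A)ᵀ = S * A → (S * B)ᵀ = S * B →
      (S * A * B)ᵀ = S * B * A := fun {A B} a b => by
    rw [transpose_mul, a, ← Matrix.mul_assoc, ← b, transpose_mul, boch_tr h]
  rw [transpose_add, Matrix.neg_mul, transpose_neg] at s1 s3
  rw [transpose_add, t hX hY] at s2
  rw [t hY hY, add_right_inj] at s1
  rw [t hY hX] at s3
  have q := tr_sym h s1
  have a := tr_sym (A := P - R) h (by
    rw [Matrix.mul_sub, transpose_sub, eq_sub_of_add_eq' s2, eq_sub_of_add_eq' s3]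
    abel)
  have k : (S * (P + R))ᵀ = -(S * (P + R)) := by
    rw [hL, Matrix.mul_sub, ← Matrix.mul_assoc, ← Matrix.mul_assoc, transpose_sub, t hX hY, t hY hX,
      neg_sub]
  have k0 := tr_alt h k
  have cs := boch_cs h hW k
  have w0 := tr_alt h hW
  have e1 : trace (X * X + Y * Y) = -trace (W * (P + R)) := by
    have b1 := congrArg (fun A => trace (A * Y)) c1
    have b2 := congrArg (fun A => trace (A * X)) c2
    simp only [Matrix.sub_mul, trace_sub, Matrix.smul_mul, trace_smul, smul_eq_mul] at b1 b2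
    rw [trace_mul_cycle X W Y, trace_mul_cycle Y X W] at b1
    rw [trace_mul_cycle Y W X, trace_mul_cycle X Y W] at b2
    rw [hL, Matrix.mul_sub, trace_sub, trace_add, ← Matrix.mul_assoc, ← Matrix.mul_assoc]
    linarith
  have e2 : trace (X * U) + trace (Y * V) = -trace ((P + R) * (P + R)) := by
    nth_rewrite 2 [hL]
    simp only [hU, hV, Matrix.mul_add, Matrix.add_mul, Matrix.mul_sub, trace_add, trace_sub,
      ← Matrix.mul_assoc]
    rw [trace_mul_cycle X X Q, trace_mul_cycle Q X X, trace_mul_cycle X Y P, trace_mul_cycle P Y X,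
      trace_mul_cycle Y Y Q, trace_mul_cycle Q Y Y, trace_mul_cycle Y X R, trace_mul_cycle R X Y]
    ring
  have e3 : 2 * (trace (P * P) + trace (R * R)) =
      trace ((P + R) * (P + R)) + trace ((P - R) * (P - R)) := by
    simp only [Matrix.mul_add, Matrix.add_mul, Matrix.mul_sub, Matrix.sub_mul, trace_add, trace_sub]
    ring
  rw [e1, neg_sq]
  refine cs.trans ?_
  calc _ = -trace (W * W) * -trace ((P + R) * (P + R)) := by ring
    _ ≤ κ * -trace ((P + R) * (P + R)) := by gcongr; linarith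
    _ ≤ _ := by
      gcongr
      · linarith
      · linarith

theorem hd_sym (h : ∀ᶠ v in 𝓝 u, HD κ S W v) :
    (S u * pM 1 W u)ᵀ = S u * pM 1 W u ∧
      (S u * pM Complex.I W u)ᵀ = S u * pM Complex.I W u := by
  have h0 := h.self_of_nhds
  have sS : ∀ᶠ w in 𝓝 u, (S w)ᵀ = S w := h.mono fun w hw => boch_tr hw.pd
  have sX := (boch_dsym sS Complex.I).self_of_nhds
  have sY := (boch_dsym sS 1).self_of_nhds
  rw [h0.dy] at sX
  rw [h0.dx, Matrix.mul_neg, transpose_neg, neg_inj] at sY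
  exact ⟨sX, sY⟩

theorem boch (h : ∀ᶠ v in 𝓝 u, HD κ S W v) : AnalyticAt ℝ (En W) u ∧ 0 ≤ En W u ∧
    En W u ^ 2 ≤ κ * (pv 1 (pv 1 (En W)) u + pv Complex.I (pv Complex.I (En W)) u) := by
  have h0 := h.self_of_nhds
  have aX := h0.aW.pM 1
  have aY := h0.aW.pM Complex.I
  have sX := h.eventually_nhds.mono fun w hw => (hd_sym hw).1
  have sY := h.eventually_nhds.mono fun w hw => (hd_sym hw).2
  refine ⟨boch_an ((aX.mul aX).add (aY.mul aY)), ?_, ?_⟩
  · rw [En, trace_add]
    exact add_nonneg (tr_sym h0.pd sX.self_of_nhds) (tr_sym h0.pd sY.self_of_nhds)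
  have cm : pM 1 (pM Complex.I W) =ᶠ[𝓝 u] pM Complex.I (pM 1 W) :=
    h.mono fun w hw => pM_comm hw.aW
  have hL : (fun w => pM 1 (pM 1 W) w + pM Complex.I (pM Complex.I W) w) =ᶠ[𝓝 u]
      fun w => pM Complex.I W w * pM 1 W w - pM 1 W w * pM Complex.I W w := by
    filter_upwards [h.eventually_nhds] with w hw
    have w0 := hw.self_of_nhds
    have d1 := (pM_congr (v := Complex.I) (hw.mono fun z hz => hz.cx)).self_of_nhds
    have d2 := (pM_congr (v := 1) (hw.mono fun z hz => hz.cy)).self_of_nhds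
    rw [boch_sub w0.aW (w0.aW.pM _), pM_smul (w0.aW.pM _)] at d1 d2
    rw [pM_comm w0.aW] at d2
    refine smul_right_injective _ (two_ne_zero' ℝ) ?_
    beta_reduce
    rw [smul_add, ← d1, ← neg_neg (2 : ℝ), neg_smul, ← d2, neg_neg, two_smul]
    abel
  have d1 := (pM_congr (v := 1) hL).self_of_nhds
  have d2 := (pM_congr (v := Complex.I) hL).self_of_nhds
  rw [pM_add (aX.pM _) (aY.pM _), boch_sub aY aX] at d1 d2
  rw [pM_comm (v := 1) aY, (pM_congr cm).self_of_nhds, cm.self_of_nhds] at d1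
  rw [pM_comm (v := Complex.I) aX, ← (pM_congr cm).self_of_nhds] at d2
  have s1 := (boch_dsym sY 1).self_of_nhds
  have s2 := (boch_dsym sY Complex.I).self_of_nhds
  have s3 := (boch_dsym sX 1).self_of_nhds
  rw [pM_mul h0.aS aY, h0.dx, Matrix.mul_neg, cm.self_of_nhds] at s1
  rw [pM_mul h0.aS aY, h0.dy] at s2
  rw [pM_mul h0.aS aX, h0.dx, Matrix.mul_neg] at s3
  refine (boch_alg h0.pd h0.sk sX.self_of_nhds sY.self_of_nhds h0.cx h0.cy hL.self_of_nhds
    d1 d2 s1 s2 s3 h0.tr).trans_eq ?_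
  unfold En
  rw [boch_sq aX aY, boch_sq aX aY, cm.self_of_nhds]
  simp only [Matrix.mul_add, trace_add]
  ring

end

end Pool.Agent.Lib.MP_5591bc_ag.B
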