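import Pool.Agent.Lib.MP_5591bc_ag.B.Set

/-! Calculus of complex matrices. -/

namespace Pool.Agent.Lib.MP_5591bc_ag.B

open Matrix Filter Topology Metric G R W M A

noncomputable section

variable {α β γ : Type*} {A B : ℂ → Matrix α β ℂ} {u v : ℂ}

theorem anC_add (h : cr_AnC A u) (h' : cr_AnC B u) : cr_AnC (fun w => A w + B w) u := by
  exact fun i j => (h i j).add (h' i j)

theorem anC_sub (h : cr_AnC A u) (h' : cr_AnC B u) : cr_AnC (fun w => A w - B w) u := by
  exact fun i j => (h i j).sub (h' i j)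

theorem anC_sum {ι : Type*} (s : Finset ι) {A : ι → ℂ → Matrix α β ℂ}
    (h : ∀ i ∈ s, cr_AnC (A i) u) : cr_AnC (fun w => ∑ i ∈ s, A i w) u := by
  intro i j
  simp only [Matrix.sum_apply]
  exact Finset.analyticAt_fun_sum _ fun k hk => h k hk i j

theorem anC_hol (h : ∀ i k, AnalyticAt ℂ (A · i k) u) : cr_AnC A u := by
  exact fun i j => (h i j).restrictScalars

theorem anC_rp (h : cr_AnC A u) : AnM (fun w => rp (A w)) u := by
  exact fun i j => (Complex.reCLM.analyticAt _).comp (h i j)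

theorem vha_has (h : cr_AnC A u) (i : α) (j : β) :
    HasFDerivAt (A · i j) (fderiv ℝ (A · i j) u) u := (h i j).differentiableAt.hasFDerivAt

theorem pC_congr (e : A =ᶠ[𝓝 u] B) : pC v A u = pC v B u := by
  ext i j
  have : (A · i j) =ᶠ[𝓝 u] (B · i j) := e.mono fun x hx => by simp only [hx]
  simp only [pC, of_apply, this.fderiv_eq]

theorem pC_const (A : Matrix α β ℂ) : pC v (fun _ => A) u = 0 := by
  ext i j
  simp [pC]

theorem pC_sub (h : cr_AnC A u) (h' : cr_AnC B u) :
    pC v (fun w => A w - B w) u = pC v A u - pC v B u := by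
  ext i j
  exact congrArg (· v) ((vha_has h i j).sub (vha_has h' i j)).fderiv

theorem pC_smul (h : cr_AnC A u) (c : ℂ) : pC v (fun w => c • A w) u = c • pC v A u := by
  ext i j
  exact congrArg (· v) ((vha_has h i j).const_mul c).fderiv

theorem pC_sum {ι : Type*} (s : Finset ι) {A : ι → ℂ → Matrix α β ℂ}
    (h : ∀ i ∈ s, cr_AnC (A i) u) : pC v (fun w => ∑ i ∈ s, A i w) u = ∑ i ∈ s, pC v (A i) u := by
  ext i j
  have := (HasFDerivAt.fun_sum fun k hk => vha_has (h k hk) i j).fderiv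
  simp only [pC, of_apply, Matrix.sum_apply, this, _root_.sum_apply]

theorem pC_mul [Fintype β] {B : ℂ → Matrix β γ ℂ} (h : cr_AnC A u) (h' : cr_AnC B u) :
    pC v (fun w => A w * B w) u = pC v A u * B u + A u * pC v B u := by
  ext i j
  have := (HasFDerivAt.fun_sum (u := Finset.univ) fun k _ =>
    (vha_has h i k).fun_mul (vha_has h' k j)).fderiv
  simp only [pC, of_apply, Matrix.mul_apply, Matrix.add_apply, this, _root_.sum_apply,
    ← Finset.sum_add_distrib]
  refine Finset.sum_congr rfl fun k _ => ?_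
  simp only [_root_.add_apply, _root_.smul_apply, smul_eq_mul]
  ring

theorem pC_star (h : cr_AnC A u) : pC v (fun w => (A w).map star) u = (pC v A u).map star := by
  ext i j
  exact congrArg (· v) ((Complex.conjCLE : ℂ →L[ℝ] ℂ).hasFDerivAt.comp u (vha_has h i j)).fderiv

theorem pC_hol (h : ∀ i k, AnalyticAt ℂ (A · i k) u) :
    pC v A u = v • of fun i k => deriv (A · i k) u := by
  ext i j
  have := ((h i j).differentiableAt.hasDerivAt.hasFDerivAt.restrictScalars ℝ).fderiv
  simp [pC, this]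

theorem pC_cx {A : ℂ → Matrix α β ℝ} (h : AnM A u) :
    pC v (fun w => cx (A w)) u = cx (pM v A u) := by
  ext i j
  exact congrArg (· v) (Complex.ofRealCLM.hasFDerivAt.comp u (cr_has (h i j))).fderiv

theorem Dp_congr (e : A =ᶠ[𝓝 u] B) : Dp A u = Dp B u := by
  rw [Dp, Dp, pC_congr e, pC_congr e]

theorem Db_congr (e : A =ᶠ[𝓝 u] B) : Db A u = Db B u := by
  rw [Db, Db, pC_congr e, pC_congr e]

theorem Dp_const (A : Matrix α β ℂ) : Dp (fun _ => A) u = 0 := by
  rw [Dp, pC_const, pC_const, smul_zero, sub_zero]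

theorem Dp_sub (h : cr_AnC A u) (h' : cr_AnC B u) :
    Dp (fun w => A w - B w) u = Dp A u - Dp B u := by
  rw [Dp, Dp, Dp, pC_sub h h', pC_sub h h']
  module

theorem Dp_smul (h : cr_AnC A u) (c : ℂ) : Dp (fun w => c • A w) u = c • Dp A u := by
  rw [Dp, Dp, pC_smul h, pC_smul h]
  module

theorem Dp_sum {ι : Type*} (s : Finset ι) {A : ι → ℂ → Matrix α β ℂ}
    (h : ∀ i ∈ s, cr_AnC (A i) u) : Dp (fun w => ∑ i ∈ s, A i w) u = ∑ i ∈ s, Dp (A i) u := by
  rw [Dp, pC_sum s h, pC_sum s h, Finset.smul_sum, ← Finset.sum_sub_distrib]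
  rfl

theorem Dp_mul [Fintype β] {B : ℂ → Matrix β γ ℂ} (h : cr_AnC A u) (h' : cr_AnC B u) :
    Dp (fun w => A w * B w) u = Dp A u * B u + A u * Dp B u := by
  rw [Dp, Dp, Dp, pC_mul h h', pC_mul h h', Matrix.sub_mul, Matrix.mul_sub, Matrix.smul_mul,
    Matrix.mul_smul]
  module

theorem Db_mul [Fintype β] {B : ℂ → Matrix β γ ℂ} (h : cr_AnC A u) (h' : cr_AnC B u) :
    Db (fun w => A w * B w) u = Db A u * B u + A u * Db B u := by
  rw [Db, Db, Db, pC_mul h h', pC_mul h h', Matrix.add_mul, Matrix.mul_add, Matrix.smul_mul,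
    Matrix.mul_smul]
  module

theorem Dp_star (h : cr_AnC A u) : Dp (fun w => (A w).map star) u = (Db A u).map star := by
  rw [Dp, Db, pC_star h, pC_star h]
  ext i j
  simp [sub_eq_add_neg]

theorem Db_hol (h : ∀ i k, AnalyticAt ℂ (A · i k) u) : Db A u = 0 := by
  rw [Db, pC_hol h, pC_hol h, smul_smul, Complex.I_mul_I]
  module

theorem Dp_hol (h : ∀ i k, AnalyticAt ℂ (A · i k) u) :
    Dp A u = (2 : ℂ) • of fun i k => deriv (A · i k) u := by
  rw [Dp, pC_hol h, pC_hol h, smul_smul, Complex.I_mul_I]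
  module

theorem Dp_cx {A : ℂ → Matrix α β ℝ} (h : AnM A u) :
    Dp (fun w => cx (A w)) u = cx (pM 1 A u) - Complex.I • cx (pM Complex.I A u) := by
  rw [Dp, pC_cx h, pC_cx h]

/-- real and imaginary parts -/
theorem cx_parts {A B A' B' : Matrix α β ℝ}
    (e : cx A - Complex.I • cx B = cx A' - Complex.I • cx B') : A = A' ∧ B = B' := by
  constructor <;> ext i j
  · simpa using congrArg Complex.re (congrFun (congrFun e i) j)
  · simpa using congrArg Complex.im (congrFun (congrFun e i) j)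

end

end Pool.Agent.Lib.MP_5591bc_ag.B
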