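import Pool.Agent.Lib.MP_5591bc_ag.B.HsB
import Pool.Agent.Lib.MP_5591bc_ag.B.VhA

/-! The Higgs field. -/

namespace Pool.Agent.Lib.MP_5591bc_ag.B

open Matrix Filter Topology Metric G R W M A

noncomputable section

variable {μ : Type*} [Fintype μ] [DecidableEq μ] {J : Matrix μ μ ℝ} {j p : ℕ} {w : μ → ℕ}
  {Y : ℂ → Matrix μ μ ℂ} {u z : ℂ}

theorem vh_an (h : VH J j w Y u) (p : ℕ) : cr_AnC (fun v => al J w (Y v) p) u := by
  have y := anC_hol h.an
  have e := (cr_AnC.const (Ew w p)).mul y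
  exact ((((cr_AnC.const (cx J)).mul y.ct).mul (.const (Ew w p))).mul
    ((anC_add (((e.mul (.const (cx J))).mul y.ct).mul (.const (Ew w p))) (.const _)).inv
      (hs_gw h.hs p))).mul e

theorem vh_anD (h : VH J j w Y u) (c : ℕ → ℂ) : cr_AnC (fun v => Dg J j w (Y v) c) u :=
  anC_sum _ fun p _ => (anC_sub (vh_an h p) (vh_an h (p + 1))).smul (c p)

theorem vhb_row {y M : Matrix μ μ ℂ} {q : ℕ} (h : HS J j w y)
    (hM : ∀ i, p ≤ w i → ∃ a, q ≤ a ∧ M i ∈ Fil w y a) : Ew w p * M * al J w y q = Ew w p * M := by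
  rw [Matrix.mul_assoc]
  ext i k
  simp only [Ew, diagonal_mul]
  split_ifs with c
  · obtain ⟨a, h1, h2⟩ := hM i c
    rw [mul_apply_eq_vecMul, al_fil h (Submodule.span_mono ?_ h2)]
    rintro _ ⟨l, h3, rfl⟩
    exact ⟨l, h1.trans h3, rfl⟩
  · simp

theorem vhb_Y {y : Matrix μ μ ℂ} {q : ℕ} (h : HS J j w y) (e : q ≤ p) :
    Ew w p * y * al J w y q = Ew w p * y :=
  vhb_row h fun i c => ⟨p, e, Submodule.subset_span ⟨i, c, rfl⟩⟩

theorem vhb_D {q : ℕ} (h : VH J j w Y u) (e : q ≤ p - 1) :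
    Ew w p * Dp Y u * al J w (Y u) q = Ew w p * Dp Y u :=
  vhb_row h.hs fun i c => ⟨w i - 1, by omega, by
    rw [Dp_hol h.an]
    exact Submodule.smul_mem _ (2 : ℂ) (h.gr i)⟩

theorem vhb_al (y N : Matrix μ μ ℂ) : al J w y p * N =
    cx J * yᴴ * Ew w p * (Gw J w y p)⁻¹ * (Ew w p * y * N) := Matrix.mul_assoc _ _ _

theorem vhb_db (h : ∀ᶠ v in 𝓝 u, VH J j w Y v) (p : ℕ) :
    al J w (Y u) p * Db (fun v => al J w (Y v) p) u = 0 := by
  have h0 := h.self_of_nhds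
  have a : ∀ i k, AnalyticAt ℂ (fun v => (Ew w p * Y v) i k) u := fun i k => by
    simp only [Ew, diagonal_mul]
    exact analyticAt_const.mul (h0.an i k)
  have e := Db_congr (A := fun v => Ew w p * Y v * al J w (Y v) p) (B := fun v => Ew w p * Y v)
    (h.mono fun v hv => vhb_Y hv.hs le_rfl)
  rw [Db_mul (anC_hol a) (vh_an h0 p), Db_hol a, Matrix.zero_mul, zero_add] at e
  rw [vhb_al, e, Matrix.mul_zero]

theorem vhb_dp (h : ∀ᶠ v in 𝓝 u, VH J j w Y v) {q : ℕ} (e : q ≤ p) :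
    Ew w p * Y u * Dp (fun v => al J w (Y v) q) u =
      Ew w p * Dp Y u - Ew w p * Dp Y u * al J w (Y u) q := by
  have h0 := h.self_of_nhds
  have y := anC_hol h0.an
  have e := Dp_congr (A := fun v => Ew w p * Y v * al J w (Y v) q) (B := fun v => Ew w p * Y v)
    (h.mono fun v hv => vhb_Y hv.hs e)
  rw [Dp_mul ((cr_AnC.const _).mul y) (vh_an h0 q), Dp_mul (.const _) y, Dp_const,
    Matrix.zero_mul, zero_add] at e
  exact eq_sub_of_add_eq' e

theorem vhb_self (h : ∀ᶠ v in 𝓝 u, VH J j w Y v) (h2 : p ≤ j + 1) :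
    al J w (Y u) p * Dp (fun v => al J w (Y v) p) u = Dp (fun v => al J w (Y v) p) u := by
  have h0 := h.self_of_nhds
  have st : ∀ {y}, HS J j w y → (al J w y (j + 1 - p)).map star = 1 - al J w y p := fun hy => by
    rw [al_star hy (Nat.sub_le _ _), Nat.sub_sub_self h2]
  have e := congrArg (·.map (starRingEnd ℂ)) (vhb_db h (j + 1 - p))
  simp only [Matrix.map_mul, Matrix.map_zero _ (map_zero _)] at e
  change (al J w (Y u) (j + 1 - p)).map star * (Db _ u).map star = 0 at e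
  rw [← Dp_star (vh_an h0 _), st h0.hs, Dp_congr (B := fun v => 1 - al J w (Y v) p)
    (h.mono fun v hv => st hv.hs), Dp_sub (.const _) (vh_an h0 p), Dp_const, zero_sub,
    Matrix.mul_neg, neg_eq_zero, Matrix.sub_mul, Matrix.one_mul, sub_eq_zero] at e
  exact e.symm

/-- differentiate `E Y al = E Y`; `al * Db al = 0`, conjugate by `al_star`; Griffiths -/
theorem vh_th (h : ∀ᶠ v in 𝓝 u, VH J j w Y v) (h1 : 1 ≤ p) (h2 : p ≤ j) :
    pj J w (Y u) p * Dp (fun v => al J w (Y v) p) u = Dp (fun v => al J w (Y v) p) u ∧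
      Dp (fun v => al J w (Y v) p) u * pj J w (Y u) (p - 1) = Dp (fun v => al J w (Y v) p) u := by
  have h0 := h.self_of_nhds
  have s := vhb_self h (h2.trans (Nat.le_succ j))
  have m : ∀ q ≤ p, al J w (Y u) p * al J w (Y u) q = al J w (Y u) p := fun q e => by
    rw [vhb_al, vhb_Y h0.hs e]
    rfl
  constructor
  · rw [pj, Matrix.sub_mul, s, vhb_al, vhb_dp h (Nat.le_succ p), vhb_D h0 (Nat.succ_sub_one p).ge,
      sub_self, Matrix.mul_zero, sub_zero]
  · have z : al J w (Y u) p * (al J w (Y u) (p - 1) - al J w (Y u) p) = 0 := by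
      rw [Matrix.mul_sub, m _ le_rfl, m _ (Nat.sub_le _ _), sub_self]
    rw [← s, vhb_al, vhb_dp h le_rfl, pj, Nat.sub_add_cancel h1, Matrix.mul_assoc _ (_ - _),
      Matrix.sub_mul, Matrix.mul_assoc _ (al J w (Y u) p), z, Matrix.mul_zero, sub_zero,
      Matrix.mul_sub (Ew w p * _), vhb_D h0 le_rfl]

theorem vhb_pj {y : Matrix μ μ ℂ} (h : HS J j w y) (c : ℕ → ℂ) (p : ℕ) :
    Dg J j w y c * pj J w y p = c p • pj J w y p ∧ pj J w y p * Dg J j w y c = c p • pj J w y p := by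
  have e : ∀ c' : ℕ → ℂ, (∀ a, c' a = c p * if a = p then 1 else 0) →
      Dg J j w y c' = c p • Dg J j w y fun a => if a = p then 1 else 0 := fun c' e => by
    simp only [Dg, e, Finset.smul_sum, smul_smul]
  rw [pj_eq h, Dg_mul h, Dg_mul h]
  exact ⟨e _ fun a => by split_ifs with k <;> simp [k], e _ fun a => by split_ifs with k <;> simp [k]⟩

/-- `θ` is the sum of the `Dp al p`, `1 ≤ p ≤ j`; `al 0 = 1` and `al (j + 1) = 0` near `u` -/
theorem vh_Dg (h : ∀ᶠ v in 𝓝 u, VH J j w Y v) : ∃ θ : Matrix μ μ ℂ,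
    (∀ c c' : ℕ → ℂ, (∀ p, 1 ≤ p → p ≤ j → c p - c (p - 1) = c' p) →
      Dp (fun v => Dg J j w (Y v) c) u = Dg J j w (Y u) c' * θ) ∧
    ∀ c c' : ℕ → ℂ, (∀ p, 1 ≤ p → p ≤ j → c (p - 1) = c' p) →
      θ * Dg J j w (Y u) c = Dg J j w (Y u) c' * θ := by
  have h0 := h.self_of_nhds
  obtain ⟨t, ht⟩ : ∃ t : ℕ → Matrix μ μ ℂ, ∀ p, Dp (fun v => al J w (Y v) p) u = t p :=
    ⟨_, fun _ => rfl⟩
  have t0 : t 0 = 0 := by
    rw [← ht, Dp_congr (B := fun _ => (1 : ℂ) • 1) (h.mono fun v hv => ?_), Dp_const]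
    exact (al_eq hv.hs 0).trans ((Dg_congr fun a _ => if_pos a.zero_le).trans (Dg_const hv.hs 1))
  have t1 : t (j + 1) = 0 := by
    rw [← ht, Dp_congr (B := fun _ => (0 : ℂ) • 1) (h.mono fun v hv => ?_), Dp_const]
    exact (al_eq hv.hs _).trans ((Dg_congr fun a ha => if_neg (by omega)).trans (Dg_const hv.hs 0))
  have k := fun p (hp : p ∈ Finset.range j) =>
    ht (p + 1) ▸ vh_th h (Nat.le_add_left 1 p) (Finset.mem_range.1 hp)
  have l : ∀ c : ℕ → ℂ, Dg J j w (Y u) c * ∑ p ∈ Finset.range j, t (p + 1) =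
      ∑ p ∈ Finset.range j, c (p + 1) • t (p + 1) := fun c => by
    rw [Finset.mul_sum]
    refine Finset.sum_congr rfl fun p hp => ?_
    rw [← (k p hp).1, ← Matrix.mul_assoc, (vhb_pj h0.hs c _).1, Matrix.smul_mul]
  refine ⟨∑ p ∈ Finset.range j, t (p + 1), fun c c' e => ?_, fun c c' e => ?_⟩
  · rw [l]
    refine (Dp_sum _ fun p _ => (anC_sub (vh_an h0 p) (vh_an h0 (p + 1))).smul (c p)).trans ?_
    simp only [Dp_smul (anC_sub (vh_an h0 _) (vh_an h0 _)), Dp_sub (vh_an h0 _) (vh_an h0 _), ht]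
    simp only [smul_sub, Finset.sum_sub_distrib]
    rw [Finset.sum_range_succ', Finset.sum_range_succ, t0, t1, smul_zero, smul_zero, add_zero,
      add_zero, ← Finset.sum_sub_distrib]
    refine Finset.sum_congr rfl fun p hp => ?_
    rw [← e _ (Nat.le_add_left 1 p) (Finset.mem_range.1 hp), sub_smul, Nat.add_sub_cancel]
  · rw [l, Finset.sum_mul]
    refine Finset.sum_congr rfl fun p hp => ?_
    rw [← e _ (Nat.le_add_left 1 p) (Finset.mem_range.1 hp), ← (k p hp).2, Matrix.mul_assoc,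
      (vhb_pj h0.hs c _).2, Matrix.mul_smul]

end

end Pool.Agent.Lib.MP_5591bc_ag.B
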