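import Pool.Agent.Lib.MP_5591bc_ag.B.HsC
import Pool.Agent.Lib.MP_5591bc_ag.B.VhB

/-! The equations of the Hodge metric. -/

namespace Pool.Agent.Lib.MP_5591bc_ag.B

open Matrix Filter Topology Metric G R W M A

noncomputable section

variable {μ : Type*} [Fintype μ] [DecidableEq μ] {J : Matrix μ μ ℝ} {j p : ℕ} {w : μ → ℕ}
  {Y : ℂ → Matrix μ μ ℂ} {u z : ℂ}

theorem vc_smul (X : Matrix μ μ ℂ) (x : ℂ) (c : ℕ → ℂ) :
    (Dg J j w X fun p => x * c p) = x • Dg J j w X c := by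
  simp only [Dg, Finset.smul_sum, smul_smul]

theorem vc_sub (X : Matrix μ μ ℂ) (c c' : ℕ → ℂ) :
    (Dg J j w X fun p => c p - c' p) = Dg J j w X c - Dg J j w X c' := by
  simp only [Dg, sub_smul, Finset.sum_sub_distrib]

theorem vc_cxsub (A B : Matrix μ μ ℝ) : cx (A - B) = cx A - cx B := by
  ext i k; simp [cx]

theorem vc_anh (h : VH J j w Y u) (z : ℂ) : AnM (fun v => hH J j w z (Y v)) u :=
  anC_rp (vh_anD h _)

theorem vc_anW (h : VH J j w Y u) : AnM (fun v => WH J j w (Y v)) u :=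
  anC_rp (vh_anD h _)

theorem vc_pow (z0 : z ≠ 0) (h1 : 1 ≤ p) (h2 : p ≤ j) :
    z ^ p * star z ^ (j - p) - z ^ (p - 1) * star z ^ (j - (p - 1)) =
      (1 - star z / z) * (z ^ p * star z ^ (j - p)) := by
  obtain ⟨q, rfl⟩ : ∃ q, p = q + 1 := ⟨p - 1, by omega⟩
  have e : j - (q + 1 - 1) = j - (q + 1) + 1 := by omega
  rw [e, Nat.add_sub_cancel]
  field_simp
  ring

theorem vc_key (h : ∀ᶠ v in 𝓝 u, VH J j w Y v) : ∃ θ : Matrix μ μ ℂ,
    cx (pM 1 (fun v => WH J j w (Y v)) u) - Complex.I • cx (pM Complex.I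
      (fun v => WH J j w (Y v)) u) = (2 * Complex.I) • θ ∧
    (∀ z : ℂ, z ≠ 0 → cx (pM 1 (fun v => hH J j w z (Y v)) u) - Complex.I • cx (pM Complex.I
      (fun v => hH J j w z (Y v)) u) = (1 - star z / z) • (cx (hH J j w z (Y u)) * θ)) ∧
    cx (WH J j w (Y u)) * θ - θ * cx (WH J j w (Y u)) = (2 * Complex.I) • θ := by
  have h0 := h.self_of_nhds
  obtain ⟨θ, h1, h2⟩ := vh_Dg h
  refine ⟨θ, ?_, fun z z0 => ?_, ?_⟩
  · rw [← Dp_cx (vc_anW h0), Dp_congr (h.mono fun v hv => cx_WH hv.hs),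
      h1 _ (fun _ => 2 * Complex.I), Dg_const h0.hs, smul_mul_assoc, Matrix.one_mul]
    intro p a _
    rw [Nat.cast_sub a]; push_cast; ring
  · rw [← Dp_cx (vc_anh h0 z), Dp_congr (h.mono fun v hv => cx_hH hv.hs z),
      h1 _ _ fun p a b => vc_pow z0 a b, vc_smul, smul_mul_assoc, cx_hH h0.hs]
  · rw [cx_WH h0.hs, h2 _ (fun p => Complex.I * (2 * p - j) - 2 * Complex.I), vc_sub,
      Dg_const h0.hs, Matrix.sub_mul, smul_mul_assoc, Matrix.one_mul, sub_sub_cancel]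
    intro p a _
    rw [Nat.cast_sub a]; push_cast; ring

/-- `a + i b = (1 - conj z / z) / (2 i)` -/
theorem vh_h (h : ∀ᶠ v in 𝓝 u, VH J j w Y v) (z0 : z ≠ 0) {a b : ℝ}
    (e : (a : ℂ) + b * Complex.I = (1 - star z / z) / (2 * Complex.I)) :
    pM 1 (fun v => hH J j w z (Y v)) u = hH J j w z (Y u) *
      (a • pM 1 (fun v => WH J j w (Y v)) u + b • pM Complex.I (fun v => WH J j w (Y v)) u) ∧
    pM Complex.I (fun v => hH J j w z (Y v)) u = hH J j w z (Y u) *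
      (a • pM Complex.I (fun v => WH J j w (Y v)) u - b • pM 1 (fun v => WH J j w (Y v)) u) := by
  obtain ⟨θ, h1, h2, -⟩ := vc_key h
  apply cx_parts
  have e' : 1 - star z / z = ((a : ℂ) + b * Complex.I) * (2 * Complex.I) := by
    rw [e, div_mul_cancel₀ _ (mul_ne_zero two_ne_zero Complex.I_ne_zero)]
  rw [h2 z z0, e', mul_smul, ← Matrix.mul_smul, ← h1, cxa_mul, cxa_mul, cxa_add, vc_cxsub,
    cxa_smul, cxa_smul, cxa_smul, cxa_smul, ← Matrix.mul_smul, ← Matrix.mul_smul,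
    ← Matrix.mul_sub]
  congr 1
  ext i k
  simp only [Matrix.smul_apply, Matrix.sub_apply, Matrix.add_apply, smul_eq_mul]
  linear_combination (-(b : ℂ) * cx (pM Complex.I (fun v => WH J j w (Y v)) u) i k) * Complex.I_sq

theorem vh_hh (h : ∀ᶠ v in 𝓝 u, VH J j w Y v) (z0 : z ≠ 0) :
    HH (fun v => WH J j w (Y v)) (fun v => hH J j w z (Y v)) u :=
  ⟨vc_anh h.self_of_nhds z, _, _, vh_h h z0 (Complex.re_add_im _)⟩

theorem vh_hd (h : ∀ᶠ v in 𝓝 u, VH J j w Y v) : HD ((j : ℝ) ^ 2 * Fintype.card μ)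
    (fun v => SH J j w (Y v)) (fun v => WH J j w (Y v)) u := by
  have h0 := h.self_of_nhds
  have a1 := vc_anh h0 (-Complex.I)
  have e : ((0 : ℝ) : ℂ) + ((-1 : ℝ) : ℂ) * Complex.I =
      (1 - star (-Complex.I) / -Complex.I) / (2 * Complex.I) := by
    have : star (-Complex.I) = Complex.I := by simp
    rw [this]
    field_simp
    push_cast
    linear_combination (-2 : ℂ) * Complex.I_sq
  obtain ⟨d1, d2⟩ := vh_h h (neg_ne_zero.2 Complex.I_ne_zero) e
  obtain ⟨θ, h1, -, h3⟩ := vc_key h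
  have k : WH J j w (Y u) * pM 1 (fun v => WH J j w (Y v)) u -
      pM 1 (fun v => WH J j w (Y v)) u * WH J j w (Y u) =
        (2 : ℝ) • pM Complex.I (fun v => WH J j w (Y v)) u ∧
      WH J j w (Y u) * pM Complex.I (fun v => WH J j w (Y v)) u -
      pM Complex.I (fun v => WH J j w (Y v)) u * WH J j w (Y u) =
        (-2 : ℝ) • pM 1 (fun v => WH J j w (Y v)) u := by
    apply cx_parts
    have h4 := congrArg ((2 * Complex.I) • ·) h3
    rw [smul_sub, ← Matrix.mul_smul, ← Matrix.smul_mul, ← h1] at h4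
    rw [vc_cxsub, vc_cxsub, cxa_mul, cxa_mul, cxa_mul, cxa_mul, cxa_smul, cxa_smul]
    generalize cx (pM 1 (fun v => WH J j w (Y v)) u) = P at h4 ⊢
    generalize cx (pM Complex.I (fun v => WH J j w (Y v)) u) = Q at h4 ⊢
    generalize cx (WH J j w (Y u)) = X at h4 ⊢
    rw [Matrix.mul_sub, Matrix.sub_mul, Matrix.mul_smul, Matrix.smul_mul] at h4
    ext i k
    have h5 := congrFun (congrFun h4 i) k
    simp only [Matrix.smul_apply, Matrix.sub_apply, smul_eq_mul] at h5 ⊢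
    push_cast
    linear_combination h5 - 2 * Q i k * Complex.I_sq
  refine ⟨(AnM.const _).mul a1, vc_anW h0, SH_pd h0.hs, SH_sk h0.hs, WH_tr h0.hs, ?_, ?_, k.1, k.2⟩
  · simp only [SH]
    rw [pM_mul (AnM.const _) a1, pM_const, d1]
    simp [Matrix.mul_assoc]
  · simp only [SH]
    rw [pM_mul (AnM.const _) a1, pM_const, d2]
    simp [Matrix.mul_assoc]

end

end Pool.Agent.Lib.MP_5591bc_ag.B
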