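import Pool.Agent.Lib.MP_5591bc_ag.B.BrV
import Pool.Agent.Lib.MP_5591bc_ag.B.VhC
import Pool.Agent.Lib.MP_5591bc_ag.B.Blk
import Pool.Agent.Lib.MP_5591bc_ag.A.BrD

/-! The family of branches along an algebraic arc. -/

namespace Pool.Agent.Lib.MP_5591bc_ag.B

open Matrix Filter Topology Metric G R W M A E

noncomputable section

variable {σ K ν : Type} [Fintype σ] [DecidableEq σ] [Field K] [Algebra K ℂ] [Fintype ν]
  [DecidableEq ν] {T : MvPolynomial σ K} {B : σ → Matrix ν ν (MvPolynomial σ K)}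
  {U : Set (σ → ℂ)} {P : (σ → ℂ) → Matrix ν ν ℂ} {C1 : Matrix ν ν ℂ} {s : σ → ℂ}

/-- an edited copy of `A.br_fam`; `Γ` is the set of `γ` with `g * bm c = bm c * γ` for a `g` with
`g * C1 = C1` and `mulB a g` reachable; the `g * C1`, `mulB a g` reachable, are at most `r` -/
theorem br_famX {μ : Type} [Fintype μ] [DecidableEq μ] {c : μ → ν} (hc : Function.Injective c)
    {J : Matrix μ μ ℝ} {j r : ℕ} {w : μ → ℕ} (h : VHS T U P C1 c J j w r) {V : Set (σ → ℂ)}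
    {Q : (σ → ℂ) → Matrix ν ν ℂ} (k : ContM U P V Q) (oV : IsOpen V) (cV : IsPreconnected V)
    (hQ : FundM T B V Q) {y : ℂ → σ → ℂ} (hy : AnalyticAt ℂ y 0) (hV : y 0 ∈ V)
    (hT : MvPolynomial.aeval (y 0) T ≠ 0) (hq : ∀ l, ∃ q : MvPolynomial (Fin 2) ℂ, q ≠ 0 ∧
      ∀ᶠ u in 𝓝 (0 : ℂ), MvPolynomial.eval ![u, y u l] q = 0) :
    ∃ (Z : Finset ℂ) (Γ : Set (Matrix μ μ ℚ)) (𝓑 : Set (Set ℂ × (ℂ → Matrix μ μ ℂ))) (D : Set ℂ),
      Grp Γ ∧ FamX ((j : ℝ) ^ 2 * Fintype.card μ) (SH J j w) (WH J j w) (hH J j w) Z (qr '' Γ) 𝓑 ∧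
      (0 : ℂ) ∈ D ∧ (∀ u ∈ D, HS J j w ((Q (y u)).submatrix c c)) ∧
      ∀ γ ∈ Γ, qr γ * J * (qr γ)ᵀ = J ∧ (D, fun u => (Q (y u)).submatrix c c * qc γ) ∈ 𝓑 ∧
        ∃ g : Matrix ν ν ℂ, g.det ≠ 0 ∧ g * C1 = C1 ∧ g * bm c = bm c * qc γ ∧
          ∀ H : MvPolynomial (Option σ ⊕ ν × ν) ℂ, (∀ᶠ u in 𝓝 (0 : ℂ), MvPolynomial.eval
            (Sum.elim (fun o => o.elim u (y u)) fun a => Q (y u) a.1 a.2) H = 0) →
            MvPolynomial.eval (Sum.elim (fun o => o.elim 0 (y 0))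
              fun a => (Q (y 0) * g) a.1 a.2) H = 0 := by
  obtain ⟨Z, g, p, hA, hon⟩ := alg_arc T hy hq hT
  have loc : Loc T B := loc_fund oV ⟨_, hV⟩ hQ fun e => hT (by rw [e, map_zero])
  have hTn : ∀ᶠ u in 𝓝 (0 : ℂ), MvPolynomial.aeval (y u) T ≠ 0 :=
    (AnalyticAt.aeval_mvPolynomial (f := y) (fun l => analyticAt_pi_iff.1 hy l)
      T).continuousAt.eventually_ne hT
  obtain ⟨ρ, ρ0, hρ⟩ := Metric.eventually_nhds_iff_ball.1 (hy.eventually_analyticAt.and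
    ((hy.continuousAt.eventually (oV.mem_nhds hV)).and hTn))
  obtain ⟨a, ea⟩ : ∃ a : Bc σ ν, a = (ball 0 ρ, y, fun u => Q (y u)) := ⟨_, rfl⟩
  have a1 : a.2.1 = y := by rw [ea]
  have a2 : ∀ u, a.2.2 u = Q (y u) := fun u => by rw [ea]
  have a0 : (0 : ℂ) ∈ a.1 := by rw [ea]; exact mem_ball_self ρ0
  have ha : IsBr T B a := by
    rw [ea]
    exact ⟨isOpen_ball, (convex_ball _ _).isPreconnected, fun u hu => (hρ u hu).1, fun u hu =>
      ⟨(hρ u hu).2.2, V, Q, oV, cV, hQ, (hρ u hu).2.1, .of_forall fun _ => rfl⟩⟩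
  have hb : ∀ b, Rch T B a b → ∀ u ∈ b.1, OnC T g p u (b.2.1 u) := fun b h =>
    rch_on ha a0 (by rw [a1]; exact hon) h
  have hv := fun b (hb : Rch T B a b) =>
    rch_vh h ha a0 k oV hQ (by rw [a1]; exact hV) (by rw [a1, a2]) hb
  have hv' : ∀ b, Rch T B a b → ∀ u ∈ b.1, ∀ᶠ v in 𝓝 u,
      VH J j w (fun v => (b.2.2 v).submatrix c c) v := fun b hb u hu =>
    Filter.mem_of_superset ((hb.br ha).1.mem_nhds hu) (hv b hb)
  have i1 := invertibleOfIsUnitDet _ (hQ _ hV).1.isUnit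
  have hg : ∀ t, Rch T B a (mulB a t) → t.det ≠ 0 ∧ ∃ V' Q', ContM U P V' Q' ∧ y 0 ∈ V' ∧
      ∀ᶠ x in 𝓝 (y 0), Q' x = Q x * t := fun t ht => by
    simpa only [a1] using rch_germ ha a0 k oV hQ (by rw [a1]; exact hV) (by rw [a1, a2]) ht
  have gm : ∀ t t', Rch T B a (mulB a t) → Rch T B a (mulB a t') →
      Rch T B a (mulB a (t * t')) := fun t t' ht ht' => by
    rw [← brd_mm]
    exact Relation.ReflTransGen.trans ht' (Rch.mul ht (hg _ ht').1)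
  have gi : ∀ t, Rch T B a (mulB a t) → Rch T B a (mulB a t⁻¹) := fun t ht => by
    have d3 := mul_nonsing_inv t (hg _ ht).1.isUnit
    have := Rch.mul ht (g := t⁻¹) (det_ne_zero_of_left_inverse d3)
    rw [brd_mm, d3, brd_m1] at this
    exact this.symm
  have bi : ∀ {A A' : Matrix μ μ ℚ}, bm c * qc A = bm c * qc A' → A = A' := fun e => by
    have := congrArg ((bm c)ᵀ * ·) e
    simp only [← Matrix.mul_assoc, bm_t hc, Matrix.one_mul] at this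
    exact Matrix.map_injective Rat.cast_injective this
  have hz : ∀ t, Rch T B a (mulB a t) → t * C1 = C1 → ∃ γ : Matrix μ μ ℤ,
      qr (γ.map Int.cast) * J * (qr (γ.map Int.cast))ᵀ = J ∧
        t * bm c = bm c * qc (γ.map Int.cast) := fun t ht e => by
    obtain ⟨-, V', Q', h1, h2, h3⟩ := hg t ht
    obtain ⟨γ, h4, h5⟩ := h.2.2.2 V Q V' Q' k h1 _ hV h2
      (h3.mono fun x hx => by rw [hx, Matrix.mul_assoc, e])
    have c1 : qr (γ.map Int.cast) = γ.map Int.cast := by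
      ext i j
      simp
    have c2 : qc (γ.map Int.cast) = γ.map Int.cast := by
      ext i j
      simp
    refine ⟨γ, by rw [c1, h4], (Matrix.mul_right_inj_of_invertible (Q (y 0))).1 ?_⟩
    rw [c2, ← Matrix.mul_assoc, ← h3.self_of_nhds, ← Matrix.mul_assoc, mul_bm, mul_bm]
    exact h5.self_of_nhds
  have hf : ((· * C1) '' {t | Rch T B a (mulB a t)}).Finite := by
    by_contra hi
    let f := Set.Infinite.natEmbedding _ hi
    choose t ht et using fun i : Fin (r + 1) => (f i).2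
    choose V' Q' h1 h2 h3 using fun i => (hg _ (ht i)).2
    obtain ⟨i, i', n, e⟩ := h.2.2.1 (y 0) V' Q' fun i => ⟨h1 i, h2 i⟩
    have e1 := e.self_of_nhds
    rw [(h3 i).self_of_nhds, (h3 i').self_of_nhds, Matrix.mul_assoc, Matrix.mul_assoc,
      Matrix.mul_right_inj_of_invertible] at e1
    exact n (Fin.ext (f.injective (Subtype.ext ((et i).symm.trans (e1.symm.trans (et i'))))))
  obtain ⟨𝒯, t1, t2, t3⟩ := Set.exists_subset_image_finite_and.1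
    (⟨_, subset_rfl, hf, rfl⟩ : ∃ t ⊆ (· * C1) '' {t | Rch T B a (mulB a t)}, t.Finite ∧
      t = (· * C1) '' {t | Rch T B a (mulB a t)})
  refine ⟨Z, {γ | ∃ t, Rch T B a (mulB a t) ∧ t * C1 = C1 ∧ t * bm c = bm c * qc γ},
    {x | ∃ b, Rch T B a b ∧ x = (b.1, fun u => (b.2.2 u).submatrix c c)}, ball 0 ρ,
    ⟨⟨1, ?_, Matrix.one_mul _, ?_⟩, ?_, ?_, 1, one_pos, ?_⟩,
    ⟨?_, ?_, ?_, fun x hx => ?_, ?_, ?_⟩, mem_ball_self ρ0, fun u hu => ?_, ?_⟩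
  · rw [brd_m1]
    exact .refl
  · rw [brd_one, Matrix.one_mul, Matrix.mul_one]
  · rintro γ ⟨t, h1, h2, h3⟩ γ' ⟨t', k1, k2, k3⟩
    exact ⟨t * t', gm _ _ h1 k1, by rw [Matrix.mul_assoc, k2, h2], by
      rw [Matrix.mul_assoc, k3, ← Matrix.mul_assoc, h3, brd_mul, Matrix.mul_assoc]⟩
  · rintro γ ⟨t, h1, h2, h3⟩
    have d := (hg _ h1).1.isUnit
    have e : t⁻¹ * C1 = C1 := by
      conv_lhs => rw [← h2, nonsing_inv_mul_cancel_left _ _ d]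
    obtain ⟨γ', -, k2⟩ := hz _ (gi _ h1) e
    refine ⟨_, ⟨_, gi _ h1, e, k2⟩, bi ?_⟩
    rw [brd_mul, ← Matrix.mul_assoc, ← h3, Matrix.mul_assoc, ← k2,
      mul_nonsing_inv_cancel_left _ _ d, brd_one, Matrix.mul_one]
  · rintro γ ⟨t, h1, h2, h3⟩ i i'
    obtain ⟨γ', -, k2⟩ := hz _ h1 h2
    exact ⟨γ' i i', by rw [bi (h3.symm.trans k2), Nat.cast_one, one_mul]; rfl⟩
  · rintro _ ⟨b, h, rfl⟩
    exact (h.br ha).1
  · rintro _ ⟨b, h, rfl⟩ u hu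
    exact vh_hd (hv' b h u hu)
  · rintro _ ⟨b, h, rfl⟩ u hu z z0
    exact vh_hh (hv' b h u hu) z0
  · obtain ⟨R, R0, hR⟩ := Metric.isOpen_iff.1 Z.finite_toSet.isClosed.isOpen_compl x hx
    have hR' : ∀ u ∈ ball x R, u ∉ Z := fun u hu => hR hu
    obtain ⟨𝒴, fY, hY⟩ := br_fin (T := T) hA hR'
    have ex : ∀ y' : ℂ → σ → ℂ, ∃ b : Bc σ ν, (∃ b, Rch T B a b ∧ b.1 = ball x R ∧
        ∀ u ∈ ball x R, b.2.1 u = y' u) → Rch T B a b ∧ b.1 = ball x R ∧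
          ∀ u ∈ ball x R, b.2.1 u = y' u := fun y' => by
      by_cases h : ∃ b, Rch T B a b ∧ b.1 = ball x R ∧ ∀ u ∈ ball x R, b.2.1 u = y' u
      · exact h.imp fun b hb _ => hb
      · exact ⟨a, fun h' => absurd h' h⟩
    choose β hβ using ex
    have key : ∀ b, Rch T B a b → ∀ u ∈ b.1, u ∈ ball x R → ∃ y' ∈ 𝒴, (∃ b, Rch T B a b ∧
        b.1 = ball x R ∧ ∀ u ∈ ball x R, b.2.1 u = y' u) ∧ ∃ h, Rch T B a (mulB a h) ∧
          b.2.2 u = (β y').2.2 u * h := by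
      intro b h u h1 h2
      obtain ⟨b', k1, k2, -, k4⟩ := br_disc loc hA (h.br ha) (hb b h) hR' h2 h1
      have k5 : Rch T B a b' := Relation.ReflTransGen.trans h k1
      obtain ⟨y', m1, m2⟩ := hY b'.2.1 (k2 ▸ (k5.br ha).2.2.1) (k2 ▸ hb b' k5)
      obtain ⟨n1, n2, n3⟩ := hβ y' ⟨b', k5, k2, m2⟩
      have n4 : ∀ v ∈ (β y').1, (β y').2.1 v = b'.2.1 v := fun v hv => by
        rw [n2] at hv
        rw [n3 v hv, m2 v hv]
      obtain ⟨t, t0, ht⟩ := br_uniq (n1.br ha) (k5.br ha) (n2.trans k2.symm) n4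
      refine ⟨y', m1, ⟨b', k5, k2, m2⟩, t, ?_, k4 ▸ ht u (n2 ▸ h2)⟩
      refine Relation.ReflTransGen.trans k5 (Rch.symm ((n1.mul t0).tail
        ⟨(n1.br ha).mul t0, k5.br ha, u, n2 ▸ h2, k2 ▸ h2, ?_⟩))
      filter_upwards [(n1.br ha).1.mem_nhds (n2 ▸ h2)] with v hv
      exact ⟨n4 v hv, (ht v hv).symm⟩
    have tau : ∀ t, Rch T B a (mulB a t) → ∃ τ ∈ 𝒯, t * C1 = τ * C1 := fun t ht => by
      obtain ⟨τ, m, e⟩ := t3.ge ⟨t, ht, rfl⟩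
      exact ⟨τ, m, e.symm⟩
    have rc : ∀ b, Rch T B a b → ∀ τ ∈ 𝒯, Rch T B a (mulB b τ) := fun b h τ m =>
      Relation.ReflTransGen.trans (t1 m) (h.mul (hg _ (t1 m)).1)
    refine ⟨R, R0, Set.image2 (fun y' τ u => ((β y').2.2 u * τ).submatrix c c) {y' ∈ 𝒴 | ∃ b,
      Rch T B a b ∧ b.1 = ball x R ∧ ∀ u ∈ ball x R, b.2.1 u = y' u} 𝒯,
      (fY.subset fun _ h => h.1).image2 _ t2, ?_, ?_, ?_⟩
    · obtain ⟨b, h, h1⟩ := br_all loc hA ha ⟨0, a0⟩ (hb a .refl) x hx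
      obtain ⟨y', m1, m2, t, m3, -⟩ := key b h x h1 (mem_ball_self R0)
      obtain ⟨τ, m4, -⟩ := tau t m3
      exact ⟨_, y', ⟨m1, m2⟩, τ, m4, rfl⟩
    · rintro _ ⟨y', ⟨-, m⟩, τ, m', rfl⟩
      exact ⟨_, rc _ (hβ y' m).1 τ m', by rw [← (hβ y' m).2.1]; rfl⟩
    · rintro _ ⟨b, h, rfl⟩ u h1 h2
      obtain ⟨y', m1, m2, t, m3, m4⟩ := key b h u h1 h2
      obtain ⟨τ, m5, m6⟩ := tau t m3
      have d := (hg _ (t1 m5)).1.isUnit
      have e : τ⁻¹ * t * C1 = C1 := by rw [Matrix.mul_assoc, m6, nonsing_inv_mul_cancel_left _ _ d]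
      have m7 := gm _ _ (gi _ (t1 m5)) m3
      obtain ⟨γ, k1, k2⟩ := hz _ m7 e
      refine ⟨_, ⟨y', ⟨m1, m2⟩, τ, m5, rfl⟩, _, ⟨_, ⟨_, m7, e, k2⟩, rfl⟩, ?_⟩
      refine .trans ?_ (SH_conj (hv _ (rc _ (hβ y' m2).1 τ m5) u
        (show u ∈ (β y').1 from (hβ y' m2).2.1 ▸ h2)).hs k1)
      rw [brd_cq, ← blk_mul k2]
      simp only [mulB]
      rw [m4, Matrix.mul_assoc, mul_nonsing_inv_cancel_left _ _ d]
  · rintro _ ⟨b, h, rfl⟩ u hu s R R0 hs hR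
    have e0 : s + (u - s) * Complex.exp 0 = u := by simp
    obtain ⟨y', Y, -, -, h3, h4⟩ := br_ext loc hA (h.br ha) (hb b h)
      (φ := fun ζ => s + (u - s) * Complex.exp ζ) (R := R) (fun ζ _ => by fun_prop)
      (fun ζ hζ => ⟨by
        rw [(((Complex.hasDerivAt_exp ζ).const_mul (u - s)).const_add s).deriv]
        exact mul_ne_zero (sub_ne_zero.2 hs) (Complex.exp_ne_zero ζ), hR ζ hζ⟩)
      (mem_ball_self R0) (e0.symm ▸ hu)
    refine ⟨fun ζ => (Y ζ).submatrix c c, fun ζ hζ => vh_hd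
      (Filter.mem_of_superset (isOpen_ball.mem_nhds hζ) fun ξ hξ => ?_), ?_, fun ζ hζ => ?_⟩
    · obtain ⟨b', k1, k2, k3⟩ := h4 ξ hξ
      exact (VH.comp (φ := fun ζ => s + (u - s) * Complex.exp ζ)
        (hv b' (Relation.ReflTransGen.trans h k1) _ k2) (by fun_prop)).congr
        (k3.mono fun v hv => by simp only [hv.2])
    · simp only [h3.self_of_nhds.2, e0]
    · obtain ⟨b', k1, k2, k3⟩ := h4 ζ hζ
      exact ⟨_, ⟨b', Relation.ReflTransGen.trans h k1, rfl⟩, k2, by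
        simp only [k3.self_of_nhds.2]⟩
  · rintro f hf _ ⟨b, h, rfl⟩ _ ⟨b', h', rfl⟩ u hu h0
    exact rch_zero (w := fun _ _ Y => f (Y.submatrix c c)) (h.br ha)
      (fun x hx => hf _ ⟨x, Relation.ReflTransGen.trans h hx, rfl⟩) hu h0
      (Relation.ReflTransGen.trans h.symm h')
  · exact (h.2.1 V Q k _ (hρ u hu).2.1 (hρ u hu).2.2).1
  · rintro γ ⟨t, h1, h2, h3⟩
    obtain ⟨γ', k1, k2⟩ := hz _ h1 h2
    refine ⟨bi (h3.symm.trans k2) ▸ k1, ⟨_, h1, ?_⟩, t, (hg _ h1).1, h2, h3, fun H hH => ?_⟩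
    · simp only [ea, mulB, blk_mul h3]
    · have := rch_pol H ha a0 (by simpa only [a1, a2] using hH) h1 0 a0
      simpa only [mulB, a1, a2] using this

end

end Pool.Agent.Lib.MP_5591bc_ag.B
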