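import Pool.Agent.Lib.MP_5591bc_ag.B.Set
import Pool.Agent.Lib.MP_5591bc_ag.A.BrA

/-! Horizontal branches. -/

namespace Pool.Agent.Lib.MP_5591bc_ag.B

open Matrix Filter Topology Metric G R W M A E

noncomputable section

variable {σ K ν : Type} [Fintype σ] [DecidableEq σ] [Field K] [Algebra K ℂ] [Fintype ν]
  [DecidableEq ν] {T : MvPolynomial σ K} {B : σ → Matrix ν ν (MvPolynomial σ K)}
  {U : Set (σ → ℂ)} {P : (σ → ℂ) → Matrix ν ν ℂ} {C1 : Matrix ν ν ℂ} {s : σ → ℂ}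

variable {μ : Type} [Fintype μ] [DecidableEq μ] {c : μ → ν} {J : Matrix μ μ ℝ} {j r : ℕ}
  {w : μ → ℕ} {V : Set (σ → ℂ)} {Q : (σ → ℂ) → Matrix ν ν ℂ} {a b : Bc σ ν} {u : ℂ}

theorem VH.comp {Y : ℂ → Matrix μ μ ℂ} {φ : ℂ → ℂ} (h : VH J j w Y (φ u))
    (hφ : AnalyticAt ℂ φ u) : VH J j w (fun v => Y (φ v)) u := by
  refine ⟨fun i k => (h.an i k).comp hφ, h.hs, fun i => ?_⟩
  have e : (fun k => deriv (fun v => Y (φ v) i k) u) =
      deriv φ u • fun k => deriv (Y · i k) (φ u) := funext fun k =>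
    ((h.an i k).differentiableAt.hasDerivAt.comp u hφ.differentiableAt.hasDerivAt).deriv.trans
      (mul_comm _ _)
  exact e ▸ Submodule.smul_mem _ _ (h.gr i)

theorem VH.congr {Y Y' : ℂ → Matrix μ μ ℂ} (h : VH J j w Y u) (e : Y =ᶠ[𝓝 u] Y') :
    VH J j w Y' u := by
  have k : ∀ i k, (Y · i k) =ᶠ[𝓝 u] (Y' · i k) := fun i k => e.mono fun v hv => by
    simp only [hv]
  refine ⟨fun i l => (h.an i l).congr (k i l), e.self_of_nhds ▸ h.hs, fun i => ?_⟩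
  rw [← e.self_of_nhds, ← funext fun l => (k i l).deriv_eq]
  exact h.gr i

theorem arc_vh (h : VHS T U P C1 c J j w r) (k : ContM U P V Q) (hQ : FundM T B V Q)
    {y : ℂ → σ → ℂ} (hy : AnalyticAt ℂ y u) (hV : y u ∈ V) (hT : MvPolynomial.aeval (y u) T ≠ 0) :
    VH J j w (fun v => (Q (y v)).submatrix c c) u := by
  obtain ⟨h1, h2⟩ := h.2.1 V Q k _ hV hT
  refine ⟨fun i l => ((hQ _ hV).2 (c i) (c l)).1.comp hy, h1, fun i => ?_⟩
  have e : (fun l => deriv (fun v => Q (y v) (c i) (c l)) u) = ∑ m, deriv y u m •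
      fun l => fderiv ℂ (fun z => Q z (c i) (c l)) (y u) (Pi.single m 1) := funext fun l => by
    refine (((hQ _ hV).2 (c i) (c l)).1.differentiableAt.hasFDerivAt.comp_hasDerivAt u
      hy.differentiableAt.hasDerivAt).deriv.trans ?_
    rw [Finset.sum_apply]
    conv_lhs => rw [pi_eq_sum_univ' (deriv y u), map_sum]
    exact Finset.sum_congr rfl fun m _ => map_smul _ _ _
  exact (show (fun l => deriv (fun v => Q (y v) (c i) (c l)) u) ∈ _ from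
    e ▸ Submodule.sum_mem _ fun m _ => Submodule.smul_mem _ _ (h2 m i))

/-- `rch_cont` and `fund_uniq` -/
theorem rch_vh (h : VHS T U P C1 c J j w r) (ha : IsBr T B a) (hu : u ∈ a.1) (k : ContM U P V Q)
    (ho : IsOpen V) (hQ : FundM T B V Q) (hV : a.2.1 u ∈ V) (e : a.2.2 u = Q (a.2.1 u))
    (hb : Rch T B a b) : ∀ v ∈ b.1, VH J j w (fun v => (b.2.2 v).submatrix c c) v := by
  intro v hv
  obtain ⟨V', Q', k', o', f', m', e'⟩ := rch_cont ha hu k ho hQ hV e hb v hv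
  have br := hb.br ha
  obtain ⟨t, V₂, Q₂, o₂, -, f₂, m₂, e₂⟩ := br.2.2.2 v hv
  refine (arc_vh h k' f' (br.2.2.1 v hv) m' t).congr ?_
  filter_upwards [e₂, (br.2.2.1 v hv).continuousAt.eventually (fund_uniq o₂ o' f₂ f' m₂ m' t)]
    with x x1 x2
  rw [x1, x2, ← e₂.self_of_nhds, e', nonsing_inv_mul _ (f' _ m').1.isUnit, Matrix.mul_one]

/-- the right translate is the germ of a continuation -/
theorem rch_germ (ha : IsBr T B a) (hu : u ∈ a.1) (k : ContM U P V Q) (ho : IsOpen V)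
    (hQ : FundM T B V Q) (hV : a.2.1 u ∈ V) (e : a.2.2 u = Q (a.2.1 u)) {g : Matrix ν ν ℂ}
    (hg : Rch T B a (mulB a g)) : g.det ≠ 0 ∧ ∃ V' Q', ContM U P V' Q' ∧ a.2.1 u ∈ V' ∧
      ∀ᶠ t in 𝓝 (a.2.1 u), Q' t = Q t * g := by
  obtain ⟨V', Q', k', o', f', m', e'⟩ := rch_cont ha hu k ho hQ hV e hg u hu
  have d : (a.2.2 u * g).det ≠ 0 := (hg.br ha).det hu
  have e₁ : a.2.2 u * g = Q' (a.2.1 u) := e'
  have m₁ : a.2.1 u ∈ V' := m'
  refine ⟨fun z => d (by rw [det_mul, z, mul_zero]), V', Q', k', m₁, ?_⟩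
  filter_upwards [fund_uniq o' ho f' hQ m₁ hV (ha.2.2.2 u hu).1] with x hx
  rw [hx, ← e₁, e, ← Matrix.mul_assoc (Q (a.2.1 u))⁻¹, nonsing_inv_mul _ (hQ _ hV).1.isUnit,
    Matrix.one_mul]

end

end Pool.Agent.Lib.MP_5591bc_ag.B
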