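import Pool.Agent.Lib.MP_5591bc_ag.B.Set
import Pool.Agent.Lib.MP_5591bc_ag.A.Chev
import Pool.Agent.Lib.MP_5591bc_ag.A.Zar

/-! The closure of the monodromy group. -/

namespace Pool.Agent.Lib.MP_5591bc_ag.B

open Matrix Filter Topology Metric G R W M A

noncomputable section

variable {ν : Type*} [Fintype ν] [DecidableEq ν] {Γ : Set (Matrix ν ν ℚ)}

omit [DecidableEq ν] in
/-- membership in the closure in terms of linear forms -/
theorem chv_mem {g : Matrix ν ν ℂ} (h : ∀ (δ : ℕ) (F : Mo δ ν → ℂ),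
    (∀ γ ∈ Γ, F ⬝ᵥ mono δ (qc γ) = 0) → F ⬝ᵥ mono δ g = 0) : g ∈ Zc Γ := fun p hp => by
  obtain ⟨F, hF⟩ := chev_form p
  rw [hF]
  exact h _ F fun a ha => by rw [← hF]; exact hp a ha

theorem chv_sign {r δ : ℕ} {γ : Matrix ν ν ℚ} {w : (Fin r → Mo δ ν) → ℚ} {c : ℚ}
    (hc : c = 1 ∨ c = -1) (hw : rW r δ γ *ᵥ w = c • w) :
    (rW r δ (qr γ) *ᵥ fun a => (w a : ℝ)) = (fun a => (w a : ℝ)) ∨
      (rW r δ (qr γ) *ᵥ fun a => (w a : ℝ)) = -fun a => (w a : ℝ) := by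
  rw [chev_qr, hw]
  rcases hc with rfl | rfl
  · left
    rw [one_smul]
  · right
    funext x
    simp

theorem chv_det {h : Matrix ν ν ℝ} (hd : h.det ≠ 0) : (cx h).det ≠ 0 := by
  have e := Complex.ofRealHom.map_det h
  exact fun e0 => hd (Complex.ofReal_eq_zero.1 (e.trans e0))

theorem chv_inv (hΓ : Grp Γ) {b : Matrix ν ν ℂ} (hd : b.det ≠ 0) (hb : b ∈ Zc Γ) :
    b⁻¹ ∈ Zc Γ := by
  refine chv_mem fun δ F hF => ?_
  have key : ∀ X Y : Matrix ν ν ℂ, X * Y = 1 → MvPolynomial.eval (fun a : ν × ν => X a.1 a.2)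
      ((fun μ => MvPolynomial.C (F μ)) ⬝ᵥ (Adj δ (mvPolynomialX ν ν ℂ) *ᵥ
        fun μ => MvPolynomial.C (mono δ (1 : Matrix ν ν ℂ) μ))) =
      X.det ^ δ * (F ⬝ᵥ mono δ Y) := fun X Y e => by
    rw [← smul_eq_mul, ← dotProduct_smul, ← Adj_mono, e, dotProduct, dotProduct, map_sum]
    refine Finset.sum_congr rfl fun μ _ => ?_
    rw [map_mul, MvPolynomial.eval_C, RingHom.map_mulVec, Adj_map, zc_X]
    congr 2
    funext a
    simp
  have := hb _ fun γ hγ => by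
    obtain ⟨c, hc, e⟩ := hΓ.inv γ hγ
    rw [key (qc γ) (qc c) (by rw [← qc_mul, e, qc_one]), hF c hc, mul_zero]
  rw [key b b⁻¹ (mul_nonsing_inv _ hd.isUnit)] at this
  exact (mul_eq_zero.1 this).resolve_left (pow_ne_zero _ hd)

/-- an edited copy of `A.chev` -/
theorem chevX (hΓ : Grp Γ) {𝓗 : Set (Matrix ν ν ℝ)} (hd : ∀ h ∈ 𝓗, h.det ≠ 0)
    (hfix : ∀ (r δ : ℕ) (e : (Fin r → Mo δ ν) → ℝ),
      (∀ γ ∈ Γ, rW r δ (qr γ) *ᵥ e = e ∨ rW r δ (qr γ) *ᵥ e = -e) → ∀ h ∈ 𝓗, ∀ γ ∈ Γ,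
        ∀ k, qr γ * k = h * qr γ → rW r δ k *ᵥ e = rW r δ h *ᵥ e)
    {g : Matrix ν ν ℂ} (hg : ∀ G, QGrp G → (∀ h ∈ 𝓗, cx h ∈ G) → g ∈ G) :
    ∀ a ∈ Zc Γ, g⁻¹ * a * g ∈ Zc Γ := by
  classical
  have g0 : g.det ≠ 0 := hg {X | X.det ≠ 0} ⟨⟨∅, by simp⟩, by simp, fun a ha b hb => by
    rw [Set.mem_ofPred_eq, det_mul, det_nonsing_inv, Ring.inverse_eq_inv']
    exact mul_ne_zero ha (inv_ne_zero hb)⟩ fun h hh => chv_det (hd h hh)
  have hg' : g⁻¹ * g = 1 := nonsing_inv_mul _ g0.isUnit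
  refine zc_lin g⁻¹ g fun γ hγ => chv_mem fun δ F hF => ?_
  obtain ⟨r, e, he, hline⟩ := chev_line hΓ δ
  let χ : Matrix ν ν ℚ → ℚ := fun a => if rW r δ a *ᵥ e = e then 1 else -1
  have hχ : ∀ a, χ a = 1 ∨ χ a = -1 := fun a => by
    by_cases ha : rW r δ a *ᵥ e = e <;> simp [χ, ha]
  have heχ : ∀ a ∈ Γ, rW r δ a *ᵥ e = χ a • e := fun a ha => by
    by_cases h1 : rW r δ a *ᵥ e = e
    · simp [χ, h1]
    · have h2 := (he a ha).resolve_left h1
      simp only [χ]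
      rw [if_neg h1, neg_smul, one_smul, h2]
  have hG := hg _ (chev_grp Γ r δ χ) fun H hH => ⟨chv_det (hd H hH), fun w hw a ha => by
    obtain ⟨b, -, hb⟩ := hΓ.inv a ha
    exact chev_hz hb (hw a ha)
      (hfix r δ _ (fun a' ha' => chv_sign (hχ a') (hw a' ha')) H hH a ha)⟩
  obtain ⟨b, -, hb⟩ := hΓ.inv γ hγ
  refine hline _ (χ γ : ℂ) ?_ ?_ F hF
  · rw [det_mul, det_mul, det_nonsing_inv, Ring.inverse_eq_inv']
    exact mul_ne_zero (mul_ne_zero (inv_ne_zero g0)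
      (chev_det (b := qc b) (by rw [← qc_mul, hb, qc_one]))) g0
  · rw [Matrix.mul_assoc, rW_mul, ← mulVec_mulVec, hG.2 e heχ γ hγ, mulVec_smul, mulVec_mulVec,
      ← rW_mul, hg', rW_one, one_mulVec]

/-- `chev_line` for `h⁻¹ * h'` -/
theorem chev_two (hΓ : Grp Γ) {h h' : Matrix ν ν ℝ} (hd : h.det ≠ 0) (hd' : h'.det ≠ 0)
    (hfix : ∀ (r δ : ℕ) (e : (Fin r → Mo δ ν) → ℝ),
      (∀ γ ∈ Γ, rW r δ (qr γ) *ᵥ e = e ∨ rW r δ (qr γ) *ᵥ e = -e) →
        rW r δ h' *ᵥ e = rW r δ h *ᵥ e) : (cx h)⁻¹ * cx h' ∈ Zc Γ := by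
  refine chv_mem fun δ F hF => ?_
  obtain ⟨r, e, he, hline⟩ := chev_line hΓ δ
  refine hline _ 1 ?_ ?_ F hF
  · rw [det_mul, det_nonsing_inv, Ring.inverse_eq_inv']
    exact mul_ne_zero (inv_ne_zero (chv_det hd)) (chv_det hd')
  · have e1 := hfix r δ (fun a => (e a : ℝ)) fun γ hγ => (he γ hγ).elim
      (fun h1 => chv_sign (.inl rfl) (by rw [one_smul, h1]))
      fun h1 => chv_sign (.inr rfl) (by rw [neg_smul, one_smul, h1])
    have e4 : (fun a => (e a : ℂ)) = fun a => (((fun a => (e a : ℝ)) a : ℝ) : ℂ) := by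
      funext a
      simp
    rw [rW_mul, ← mulVec_mulVec, e4, chev_cx, e1, ← chev_cx, mulVec_mulVec, ← rW_mul,
      nonsing_inv_mul _ (chv_det hd).isUnit, rW_one, one_mulVec, one_smul]

/-- a complex polynomial that vanishes on `Γ` is a combination of rational ones; for the inverse
use `det ^ δ * p (X⁻¹)` -/
theorem zc_qgrp (hΓ : Grp Γ) : QGrp {g : Matrix ν ν ℂ | g.det ≠ 0 ∧ g ∈ Zc Γ} := by
  refine ⟨⟨{p | ∀ γ ∈ Γ, MvPolynomial.aeval (fun a : ν × ν => qc γ a.1 a.2) p = 0},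
    Set.ext fun g => and_congr_right fun _ => ⟨fun hg p hp => ?_, fun hg => ?_⟩⟩,
    ⟨by simp, qc_one (ν := ν) ▸ zc_of hΓ.one⟩, fun a ha b hb => ⟨?_,
      zc_mul hΓ _ ha.2 _ (chv_inv hΓ hb.1 hb.2)⟩⟩
  · have e : ∀ X : Matrix ν ν ℂ, MvPolynomial.eval (fun a : ν × ν => X a.1 a.2)
        (MvPolynomial.map (algebraMap ℚ ℂ) p) =
        MvPolynomial.aeval (fun a : ν × ν => X a.1 a.2) p := fun X => by
      rw [MvPolynomial.eval_map, MvPolynomial.aeval_def]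
    rw [← e]
    exact hg _ fun γ hγ => by rw [e]; exact hp γ hγ
  · refine chv_mem fun δ F hF => ?_
    have sp := chb_span Γ (fun γ => of fun _ a => mono δ γ a) (fun _ => 0) F fun γ hγ => by
      funext a
      have := hF γ hγ
      rw [chev_qc, dotProduct_comm] at this
      simpa [mulVec, dotProduct] using this
    have e : ∀ (w : Mo δ ν → ℚ) (X : Matrix ν ν ℂ),
        MvPolynomial.aeval (fun a : ν × ν => X a.1 a.2) ((fun μ => MvPolynomial.C (w μ)) ⬝ᵥ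
          V.vk δ (of fun i j => (MvPolynomial.X (i, j) : MvPolynomial (ν × ν) ℚ))) =
        (fun μ => (w μ : ℂ)) ⬝ᵥ mono δ X := fun w X => by
      rw [MvPolynomial.aeval_def]
      exact V.rep_eval w (algebraMap ℚ ℂ) X
    clear hF
    induction sp using Submodule.span_induction with
    | mem x hx =>
      obtain ⟨w, hw, rfl⟩ := hx
      rw [← e]
      refine hg _ fun γ hγ => ?_
      have := congrArg (fun q : ℚ => (q : ℂ)) (congrFun (hw γ hγ) fun _ => none)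
      rw [e, chev_qc, dotProduct_comm]
      simpa [mulVec, dotProduct] using this
    | zero => exact zero_dotProduct _
    | add x y _ _ hx hy => rw [add_dotProduct, hx, hy, add_zero]
    | smul c x _ hx => rw [smul_dotProduct, hx, smul_zero]
  · rw [det_mul, det_nonsing_inv, Ring.inverse_eq_inv']
    exact mul_ne_zero ha.1 (inv_ne_zero hb.1)

end

end Pool.Agent.Lib.MP_5591bc_ag.B
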