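import Pool.Agent.Lib.MP_5591bc_ag.A.DefM

/-! Polarised variations of Hodge structure in terms of period matrices. -/

namespace Pool.Agent.Lib.MP_5591bc_ag.B

open Matrix MvPolynomial Filter Topology M A
open scoped ComplexOrder

variable {K σ μ ν : Type*}

/-- the Hodge filtration: `F^p` is spanned by the rows of `Y` of weight at least `p` -/
def Fil (w : μ → ℕ) (Y : Matrix μ μ ℂ) (p : ℕ) : Submodule ℂ (μ → ℂ) :=
  Submodule.span ℂ {v | ∃ i, p ≤ w i ∧ v = Y i}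

/-- `H^{p, j - p}` -/
def Hp (j : ℕ) (w : μ → ℕ) (Y : Matrix μ μ ℂ) (p : ℕ) : Set (μ → ℂ) :=
  {v | v ∈ Fil w Y p ∧ star v ∈ Fil w Y (j - p)}

variable [Fintype μ]

/-- the filtration is a Hodge structure of weight `j` polarised by `J` -/
def HS (J : Matrix μ μ ℝ) (j : ℕ) (w : μ → ℕ) (Y : Matrix μ μ ℂ) : Prop :=
  (∀ i, w i ≤ j) ∧ Jᵀ = (-1 : ℝ) ^ j • J ∧ Submodule.span ℂ (⋃ p ≤ j, Hp j w Y p) = ⊤ ∧
  (∀ i a, j < w i + w a → Y i ⬝ᵥ J.map Complex.ofReal *ᵥ Y a = 0) ∧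
  ∀ p ≤ j, ∀ v ∈ Hp j w Y p, v ≠ 0 →
    0 < Complex.I ^ p * (-Complex.I) ^ (j - p) * (v ⬝ᵥ J.map Complex.ofReal *ᵥ star v)

/-- `h` acts on `H^{p,q}` by `z^p conj(z)^q` -/
def IsH (j : ℕ) (w : μ → ℕ) (Y : Matrix μ μ ℂ) (z : ℂ) (h : Matrix μ μ ℂ) : Prop :=
  ∀ p ≤ j, ∀ v ∈ Hp j w Y p, v ᵥ* h = (z ^ p * star z ^ (j - p)) • v

variable [DecidableEq μ]

/-- the Mumford-Tate group: the smallest `ℚ`-algebraic group containing these maps -/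
def MTH (j : ℕ) (w : μ → ℕ) (Y : Matrix μ μ ℂ) : Set (Matrix μ μ ℂ) :=
  ⋂₀ {G | QGrp G ∧ ∀ z h, z ≠ 0 → IsH j w Y z h → h ∈ G}

variable [Field K] [Algebra K ℂ] [Fintype σ] [DecidableEq σ] [Fintype ν] [DecidableEq ν]

/-- The block of `P` with rows and columns `c` is a polarised variation of Hodge structure on the
variety parametrised by `(t, P * C1)`, which has at most `r` sheets: the determinant of `P` is
algebraic, all branches are polarised Hodge structures with Griffiths transversality, and two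
branches on the same sheet differ by an integral automorphism of `J`. -/
def VHS (T : MvPolynomial σ K) (U : Set (σ → ℂ)) (P : (σ → ℂ) → Matrix ν ν ℂ) (C1 : Matrix ν ν ℂ)
    (c : μ → ν) (J : Matrix μ μ ℝ) (j : ℕ) (w : μ → ℕ) (r : ℕ) : Prop :=
  (∃ (N : ℕ) (A : MvPolynomial (σ ⊕ ν × ν) ℂ), ∀ t ∈ U,
    aeval t T ^ N * (P t).det = eval (Sum.elim t fun a => (P t * C1) a.1 a.2) A) ∧
  (∀ U' P', ContM U P U' P' → ∀ t ∈ U', aeval t T ≠ 0 → HS J j w ((P' t).submatrix c c) ∧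
    ∀ l i, (fun k => fderiv ℂ (fun z => P' z (c i) (c k)) t (Pi.single l 1)) ∈
      Fil w ((P' t).submatrix c c) (w i - 1)) ∧
  (∀ (t : σ → ℂ) (V : Fin (r + 1) → Set (σ → ℂ)) (Q : Fin (r + 1) → (σ → ℂ) → Matrix ν ν ℂ),
    (∀ i, ContM U P (V i) (Q i) ∧ t ∈ V i) →
      ∃ i i', i ≠ i' ∧ ∀ᶠ z in 𝓝 t, Q i' z * C1 = Q i z * C1) ∧
  ∀ U₁ P₁ U₂ P₂, ContM U P U₁ P₁ → ContM U P U₂ P₂ → ∀ t ∈ U₁, t ∈ U₂ →
    (∀ᶠ z in 𝓝 t, P₂ z * C1 = P₁ z * C1) → ∃ γ : Matrix μ μ ℤ,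
      γ.map Int.cast * J * (γ.map Int.cast)ᵀ = J ∧
      ∀ᶠ z in 𝓝 t, (P₂ z).submatrix id c = (P₁ z).submatrix id c * γ.map Int.cast

/-- the `g` such that `Y s * g` lies in the fibre at `s` of the closure of `(t, P * C1, Y)`, `Y` the
block of `P` -/
def Mf (P : (σ → ℂ) → Matrix ν ν ℂ) (C1 : Matrix ν ν ℂ) (c : μ → ν) (s : σ → ℂ) :
    Set (Matrix μ μ ℂ) :=
  {g | g.det ≠ 0 ∧ ∀ H : MvPolynomial (σ ⊕ (ν × ν) ⊕ (μ × μ)) ℂ,
    (∀ᶠ t in 𝓝 s, eval (Sum.elim t (Sum.elim (fun a => (P t * C1) a.1 a.2)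
      fun a => P t (c a.1) (c a.2))) H = 0) →
    eval (Sum.elim s (Sum.elim (fun a => (P s * C1) a.1 a.2)
      fun a => ((P s).submatrix c c * g) a.1 a.2)) H = 0}

/-- The group `Mf` lies in the Mumford-Tate group at `s`, and `s` is isolated in the set where the
Hodge structure agrees with that of `s` modulo a proper normal `ℚ`-subgroup of `Mf`. -/
def Gen (P : (σ → ℂ) → Matrix ν ν ℂ) (C1 : Matrix ν ν ℂ) (c : μ → ν) (j : ℕ) (w : μ → ℕ)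
    (s : σ → ℂ) : Prop :=
  Mf P C1 c s ⊆ MTH j w ((P s).submatrix c c) ∧ ∀ N, QGrp N → N ⊂ Mf P C1 c s →
    (∀ g ∈ Mf P C1 c s, ∀ a ∈ N, g⁻¹ * a * g ∈ N) → ∀ᶠ t in 𝓝[≠] s, ∃ z h h', z ≠ 0 ∧
      IsH j w ((P s).submatrix c c) z h ∧ IsH j w ((P t).submatrix c c) z h' ∧ h⁻¹ * h' ∉ N

end Pool.Agent.Lib.MP_5591bc_ag.B
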