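import Pool.Agent.Lib.MP_5591bc_ag.A.Lap
import Pool.Agent.Lib.MP_5591bc_ag.A.Max

/-! The bound of a metric along a ray. -/

namespace Pool.Agent.Lib.MP_5591bc_ag.B

open Matrix Filter Topology Metric A

noncomputable section

variable {ν : Type*} [Fintype ν] [DecidableEq ν]

open scoped MatrixOrder in
theorem harnA_tr {S X : Matrix ν ν ℝ} (hS : S.PosDef) (hX : (S * X)ᵀ = S * X) :
    0 ≤ trace (X * X) := by
  have u := (isUnit_iff_isUnit_det _).1 hS.isUnit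
  have sy : Sᵀ = S := by
    have := hS.1.eq
    rwa [conjTranspose_eq_transpose_of_trivial] at this
  obtain ⟨B, hB⟩ := CStarAlgebra.nonneg_iff_eq_star_mul_self.mp hS.inv.posSemidef.nonneg
  have e : X * X = star B * (B * (Xᴴ * S * X)) := by
    rw [← Matrix.mul_assoc, ← hB, conjTranspose_eq_transpose_of_trivial, ← sy, ← transpose_mul, hX,
      sy, Matrix.mul_assoc, ← Matrix.mul_assoc S⁻¹, nonsing_inv_mul _ u, Matrix.one_mul]
  rw [e, trace_mul_comm]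
  exact ((hS.posSemidef.conjTranspose_mul_mul_same X).mul_mul_conjTranspose_same B).trace_nonneg

theorem harnA_quad {S X : Matrix ν ν ℝ} (hS : S.PosDef) (hX : (S * X)ᵀ = S * X) (e : ν → ℝ) :
    (e ⬝ᵥ (S * X) *ᵥ e) ^ 2 ≤ trace (X * X) * (e ⬝ᵥ S *ᵥ e) ^ 2 := by
  have sy : Sᵀ = S := by
    have := hS.1.eq
    rwa [conjTranspose_eq_transpose_of_trivial] at this
  have t1 : ∀ A : Matrix ν ν ℝ, trace (A * (vecMulVec e e * S)) = e ⬝ᵥ (S * A) *ᵥ e := fun A => by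
    rw [← Matrix.mul_assoc, trace_mul_comm, ← Matrix.mul_assoc, mul_vecMulVec, trace_vecMulVec,
      dotProduct_comm]
  have t2 : trace (vecMulVec e e * S * (vecMulVec e e * S)) = (e ⬝ᵥ S *ᵥ e) ^ 2 := by
    rw [t1, ← Matrix.mul_assoc, mul_vecMulVec, ← mulVec_mulVec, vecMulVec_mulVec,
      dotProduct_smul]
    simp [sq]
  have := discrim_le_zero (a := (e ⬝ᵥ S *ᵥ e) ^ 2) (b := 2 * (e ⬝ᵥ (S * X) *ᵥ e))
    (c := trace (X * X)) fun t => by
      have := harnA_tr (X := X + t • (vecMulVec e e * S)) hS (by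
        rw [Matrix.mul_add, transpose_add, hX, Matrix.mul_smul, transpose_smul, transpose_mul,
          transpose_mul, sy, transpose_vecMulVec, Matrix.mul_assoc])
      simp only [Matrix.mul_add, Matrix.add_mul, Matrix.mul_smul, Matrix.smul_mul, trace_add,
        trace_smul, smul_eq_mul] at this
      rw [trace_mul_comm (vecMulVec e e * S) X, t1, t2] at this
      linarith
  rw [discrim] at this
  linarith

theorem harnA_comb {S X Y : Matrix ν ν ℝ} (hS : S.PosDef) (hX : (S * X)ᵀ = S * X)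
    (hY : (S * Y)ᵀ = S * Y) (a b : ℝ) :
    trace ((a • X + b • Y) * (a • X + b • Y)) ≤ (a ^ 2 + b ^ 2) * trace (X * X + Y * Y) := by
  have := harnA_tr (X := b • X + (-a) • Y) hS (by
    rw [Matrix.mul_add, Matrix.mul_smul, Matrix.mul_smul, transpose_add, transpose_smul,
      transpose_smul, hX, hY])
  simp only [Matrix.mul_add, Matrix.add_mul, Matrix.mul_smul, Matrix.smul_mul, trace_add,
    trace_smul, smul_eq_mul] at this ⊢
  linarith

omit [Fintype ν] [DecidableEq ν] in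
theorem harnA_dir (S : ℂ → Matrix ν ν ℝ) (u v : ℂ) :
    pM v S u = v.re • pM 1 S u + v.im • pM Complex.I S u := by
  ext i j
  have hz : v = v.re • (1 : ℂ) + v.im • Complex.I := by simp [Complex.re_add_im]
  simp only [pM, pv, of_apply, Matrix.add_apply, Matrix.smul_apply]
  conv_lhs => rw [hz, map_add, map_smul, map_smul]

omit [Fintype ν] [DecidableEq ν] in
theorem harnA_sym {S : ℂ → Matrix ν ν ℝ} {u : ℂ} (h : ∀ᶠ w in 𝓝 u, (S w)ᵀ = S w) (v : ℂ) :
    (pM v S u)ᵀ = pM v S u := by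
  ext i j
  have : (S · j i) =ᶠ[𝓝 u] (S · i j) := h.mono fun w hw => congrFun (congrFun hw i) j
  simp only [pM, pv, of_apply, transpose_apply, this.fderiv_eq]

/-- the ray bound -/
theorem harnA {S : ℂ → Matrix ν ν ℝ} {R : ℝ} {c : ℕ} (hS : ∀ u ∈ ball (0 : ℂ) R, AnM S u)
    (hp : ∀ u ∈ ball (0 : ℂ) R, (S u).PosDef)
    (hd : ∀ u ∈ ball (0 : ℂ) R, ∃ X Y : Matrix ν ν ℝ, pM 1 S u = -(S u * Y) ∧
      pM Complex.I S u = S u * X ∧ trace (X * X + Y * Y) ≤ (c : ℝ) ^ 2 / (R - ‖u‖) ^ 2)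
    {ζ : ℂ} (hζ : ζ ∈ ball (0 : ℂ) R) :
    (((1 - ‖ζ‖ / R) ^ c)⁻¹ • S ζ - S 0).PosSemidef := by
  have hζ' : ‖ζ‖ < R := mem_ball_zero_iff.1 hζ
  have R0 : 0 < R := (norm_nonneg ζ).trans_lt hζ'
  have t0 : 0 < 1 - ‖ζ‖ / R := sub_pos.2 ((div_lt_one R0).2 hζ')
  have sy : ∀ u ∈ ball (0 : ℂ) R, (S u)ᵀ = S u := fun u hu => by
    have := (hp u hu).1.eq
    rwa [conjTranspose_eq_transpose_of_trivial] at this
  refine PosSemidef.of_dotProduct_mulVec_nonneg ?_ fun e => ?_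
  · rw [IsHermitian, conjTranspose_eq_transpose_of_trivial, transpose_sub, transpose_smul,
      sy ζ hζ, sy 0 (mem_ball_self R0)]
  have nr : ∀ t ∈ Set.Icc (0 : ℝ) 1, ‖(0 : ℂ) + t • ζ‖ = t * ‖ζ‖ := fun t ht => by
    rw [zero_add, norm_smul, Real.norm_of_nonneg ht.1]
  have ps : ∀ t ∈ Set.Icc (0 : ℝ) 1, 0 < R - t * ‖ζ‖ := fun t ht => by
    nlinarith [ht.1, ht.2, norm_nonneg ζ]
  have mb : ∀ t ∈ Set.Icc (0 : ℝ) 1, (0 : ℂ) + t • ζ ∈ ball (0 : ℂ) R := fun t ht => by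
    rw [mem_ball_zero_iff, nr t ht]
    linarith [ps t ht]
  have der : ∀ t ∈ Set.Icc (0 : ℝ) 1, ∃ l, 0 ≤ l ∧ HasDerivAt
      (fun s : ℝ => (e ⬝ᵥ S (0 + s • ζ) *ᵥ e) * ((R - s * ‖ζ‖) ^ c)⁻¹) l t := fun t ht => by
    have p := ps t ht
    have d1 := max_line (φ := fun w => e ⬝ᵥ S w *ᵥ e) (lap_qa (hS _ (mb t ht)) e)
    have d2 := ((((hasDerivAt_id' t).mul_const ‖ζ‖).const_sub R).fun_pow c).fun_inv
      (pow_pos p c).ne'
    refine ⟨_, ?_, d1.fun_mul d2⟩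
    obtain ⟨X, Y, h1, h2, h3⟩ := hd _ (mb t ht)
    have ev : ∀ᶠ w in 𝓝 ((0 : ℂ) + t • ζ), (S w)ᵀ = S w :=
      (isOpen_ball.eventually_mem (mb t ht)).mono sy
    have s1 := harnA_sym ev 1
    have s2 := harnA_sym ev Complex.I
    have s3 := harnA_sym ev ζ
    rw [h1, transpose_neg, neg_inj] at s1
    rw [h2] at s2
    have e3 : pM ζ S (0 + t • ζ) = S (0 + t • ζ) * (ζ.im • X + (-ζ.re) • Y) := by
      rw [harnA_dir, h1, h2, Matrix.mul_add, Matrix.mul_smul, Matrix.mul_smul, smul_neg, neg_smul,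
        add_comm]
    rw [e3] at s3
    have q1 := harnA_quad (hp _ (mb t ht)) s3 e
    have q2 := harnA_comb (hp _ (mb t ht)) s2 s1 ζ.im (-ζ.re)
    have q3 := lap_nn (hp _ (mb t ht)).posSemidef e
    have q4 : ζ.im ^ 2 + (-ζ.re) ^ 2 = ‖ζ‖ ^ 2 := by
      rw [Complex.sq_norm, Complex.normSq_apply]
      ring
    rw [lap_pv (hS _ (mb t ht)), e3]
    rw [nr t ht] at h3
    rw [q4] at q2
    generalize e ⬝ᵥ (S (0 + t • ζ) * (ζ.im • X + (-ζ.re) • Y)) *ᵥ e = g at *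
    generalize e ⬝ᵥ S (0 + t • ζ) *ᵥ e = f at *
    generalize R - t * ‖ζ‖ = r at *
    have q5 : g ^ 2 ≤ (c * ‖ζ‖ / r * f) ^ 2 := by
      refine q1.trans ?_
      rw [mul_pow]
      refine mul_le_mul_of_nonneg_right (q2.trans ?_) (sq_nonneg f)
      refine (mul_le_mul_of_nonneg_left h3 (sq_nonneg _)).trans_eq ?_
      ring
    have q6 := (abs_le.1 (abs_le_of_sq_le_sq q5 (by positivity))).1
    have q7 : g * (r ^ c)⁻¹ + f * (-(c * r ^ (c - 1) * -(1 * ‖ζ‖)) / (r ^ c) ^ 2) =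
        (g + c * ‖ζ‖ / r * f) * (r ^ c)⁻¹ := by
      rcases c with _ | c
      · simp
      · simp only [Nat.add_sub_cancel]
        field_simp
        ring
    rw [q7]
    exact mul_nonneg (by linarith) (by positivity)
  choose! l l0 hl using der
  have mono := monotoneOn_of_hasDerivWithinAt_nonneg (convex_Icc (0 : ℝ) 1)
    (f := fun s : ℝ => (e ⬝ᵥ S (0 + s • ζ) *ᵥ e) * ((R - s * ‖ζ‖) ^ c)⁻¹) (f' := l)
    (fun t ht => (hl t ht).continuousAt.continuousWithinAt)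
    (fun t ht => (hl t (interior_subset ht)).hasDerivWithinAt)
    (fun t ht => l0 t (interior_subset ht))
  have m := mono (Set.left_mem_Icc.2 zero_le_one) (Set.right_mem_Icc.2 zero_le_one) zero_le_one
  simp only [zero_smul, one_smul, zero_add, zero_mul, one_mul, sub_zero] at m
  rw [star_trivial, sub_mulVec, dotProduct_sub, smul_mulVec, dotProduct_smul, smul_eq_mul,
    sub_nonneg]
  have e4 : ((1 - ‖ζ‖ / R) ^ c)⁻¹ = ((R - ‖ζ‖) ^ c)⁻¹ * R ^ c := by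
    rw [show 1 - ‖ζ‖ / R = (R - ‖ζ‖) / R by field_simp, div_pow, inv_div, div_eq_inv_mul]
  rw [mul_inv_le_iff₀ (pow_pos R0 c)] at m
  rw [e4]
  linarith

end

end Pool.Agent.Lib.MP_5591bc_ag.B
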