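import Pool.Agent.Lib.MP_5591bc_ag.A.Max
import Pool.Agent.Lib.MP_5591bc_ag.A.Cr

/-! The estimate of Keller and Osserman. -/

namespace Pool.Agent.Lib.MP_5591bc_ag.B

open Matrix Filter Topology Metric G R W M A

noncomputable section

theorem ko_mul {f g : ℝ → ℝ} {b a b' a' : ℝ} (h : MxD f b a) (h' : MxD g b' a') :
    MxD (fun t => f t * g t) (b * g 0 + f 0 * b') (a * g 0 + 2 * b * b' + f 0 * a') := by
  obtain ⟨f', h1, h2, rfl⟩ := h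
  obtain ⟨g', k1, k2, rfl⟩ := h'
  refine ⟨fun t => f' t * g t + f t * g' t, (h1.and k1).mono fun t ht => ht.1.fun_mul ht.2,
    ((h2.fun_mul k1.self_of_nhds).add (h1.self_of_nhds.fun_mul k2)).congr_deriv ?_, rfl⟩
  ring

theorem ko_fst {f : ℝ → ℝ} {b a : ℝ} (h : MxD f b a) (hm : IsLocalMax f 0) : b = 0 := by
  obtain ⟨f', h1, -, rfl⟩ := h
  exact hm.hasDerivAt_eq_zero h1.self_of_nhds

theorem ko_dir {φ : ℂ → ℝ} {u : ℂ} {r : ℝ} (h : AnalyticAt ℝ φ u) (η0 : ‖u‖ ^ 2 - r ^ 2 ≠ 0)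
    (hm : IsLocalMax (fun w => φ w * ((-r ^ 2 + ‖w‖ ^ 2) * (-r ^ 2 + ‖w‖ ^ 2))) u) (v : ℂ) :
    (‖u‖ ^ 2 - r ^ 2) ^ 2 * pv v (pv v φ) u ≤ φ u * (24 * (u.re * v.re + u.im * v.im) ^ 2 -
      4 * (‖u‖ ^ 2 - r ^ 2) * (v.re * v.re + v.im * v.im)) := by
  have k : IsLocalMax (fun t : ℝ => φ (u + t • v) *
      ((-r ^ 2 + ‖u + t • v - 0‖ ^ 2) * (-r ^ 2 + ‖u + t • v - 0‖ ^ 2))) 0 := by
    have c : Tendsto (fun t : ℝ => u + t • v) (𝓝 0) (𝓝 u) :=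
      Continuous.tendsto' (by fun_prop) _ _ (by simp)
    simpa [IsLocalMax, IsMaxFilter] using c.eventually hm
  have d := ko_mul (max_an h v) (ko_mul (max_sq (-r ^ 2) 0 u v) (max_sq (-r ^ 2) 0 u v))
  have e1 := ko_fst d k
  have e2 := d.max k
  simp only [zero_smul, add_zero, sub_zero] at e1 e2
  have e3 : pv v φ u * (‖u‖ ^ 2 - r ^ 2) + 4 * φ u * (u.re * v.re + u.im * v.im) = 0 :=
    mul_left_cancel₀ η0 (by linear_combination e1)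
  linear_combination e2 - 8 * (u.re * v.re + u.im * v.im) * e3

theorem ko_div {φ : ℂ → ℝ} {R κ : ℝ} (hφ : AnalyticOnNhd ℝ φ (ball 0 R)) (κ0 : 0 ≤ κ)
    (h : ∀ u ∈ ball (0 : ℂ) R,
      φ u ^ 2 ≤ κ * (pv 1 (pv 1 φ) u + pv Complex.I (pv Complex.I φ) u)) :
    ∀ u ∈ ball (0 : ℂ) R, φ u ≤ 24 * κ / (R - ‖u‖) ^ 2 := by
  intro u hu
  rw [mem_ball_zero_iff] at hu
  have key : ∀ r, ‖u‖ < r → r < R → φ u ≤ 24 * κ / (r - ‖u‖) ^ 2 := fun r h1 h2 => by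
    have n0 := norm_nonneg u
    have sub : closedBall (0 : ℂ) r ⊆ ball 0 R := closedBall_subset_ball h2
    obtain ⟨w, hw, hm⟩ := (isCompact_closedBall (0 : ℂ) r).exists_isMaxOn
      (f := fun w => φ w * ((-r ^ 2 + ‖w‖ ^ 2) * (-r ^ 2 + ‖w‖ ^ 2)))
      ⟨u, mem_closedBall_zero_iff.2 h1.le⟩
      ((hφ.continuousOn.mono sub).mul (Continuous.continuousOn (by fun_prop)))
    have h3 : φ u * ((-r ^ 2 + ‖u‖ ^ 2) * (-r ^ 2 + ‖u‖ ^ 2)) ≤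
        φ w * ((-r ^ 2 + ‖w‖ ^ 2) * (-r ^ 2 + ‖w‖ ^ 2)) := hm (mem_closedBall_zero_iff.2 h1.le)
    have h4 : φ w * ((-r ^ 2 + ‖w‖ ^ 2) * (-r ^ 2 + ‖w‖ ^ 2)) ≤ 24 * κ * r ^ 2 := by
      by_contra c
      have c := not_le.1 c
      have p : 0 < φ w * ((-r ^ 2 + ‖w‖ ^ 2) * (-r ^ 2 + ‖w‖ ^ 2)) := lt_of_le_of_lt (by positivity) c
      have φ0 : 0 < φ w := pos_of_mul_pos_left p (mul_self_nonneg _)
      have η0 : ‖w‖ ^ 2 - r ^ 2 ≠ 0 := fun e => by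
        rw [show -r ^ 2 + ‖w‖ ^ 2 = 0 by linarith] at p
        simp at p
      have w1 := mem_closedBall_zero_iff.1 hw
      have w2 : ‖w‖ < r := lt_of_le_of_ne w1 fun e => η0 (by rw [e, sub_self])
      have l := hm.isLocalMax (closedBall_mem_nhds_of_mem (mem_ball_zero_iff.2 w2))
      have a1 := ko_dir (hφ w (sub hw)) η0 l 1
      have a2 := ko_dir (hφ w (sub hw)) η0 l Complex.I
      have a3 := mul_le_mul_of_nonneg_left (h w (sub hw)) (sq_nonneg (‖w‖ ^ 2 - r ^ 2))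
      have a4 : ‖w‖ ^ 2 = w.re ^ 2 + w.im ^ 2 := by
        rw [Complex.sq_norm, Complex.normSq_apply]
        ring
      have a5 : ‖w‖ ^ 2 ≤ r ^ 2 := pow_le_pow_left₀ (norm_nonneg _) w1 2
      simp only [Complex.one_re, Complex.one_im, Complex.I_re, Complex.I_im] at a1 a2
      have a6 : (‖w‖ ^ 2 - r ^ 2) ^ 2 * (pv 1 (pv 1 φ) w + pv Complex.I (pv Complex.I φ) w) ≤
          φ w * (24 * r ^ 2) := by
        have := mul_le_mul_of_nonneg_left a5 φ0.le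
        linear_combination a1 + a2 + 16 * this - 24 * φ w * a4
      have a7 := mul_le_mul_of_nonneg_left a6 κ0
      have a8 := mul_lt_mul_of_pos_left c φ0
      nlinarith
    have r0 : 0 < r := n0.trans_lt h1
    rw [le_div_iff₀ (pow_pos (sub_pos.2 h1) 2)]
    rcases le_total (φ u) 0 with c | c
    · exact (mul_nonpos_of_nonpos_of_nonneg c (sq_nonneg _)).trans (by positivity)
    · refine le_of_mul_le_mul_right (le_trans ?_ (h3.trans h4)) (pow_pos r0 2)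
      rw [mul_assoc]
      refine mul_le_mul_of_nonneg_left ?_ c
      have : r ^ 2 ≤ (r + ‖u‖) ^ 2 := pow_le_pow_left₀ r0.le (by linarith) 2
      linear_combination mul_le_mul_of_nonneg_left this (sq_nonneg (r - ‖u‖))
  have c : ContinuousAt (fun r : ℝ => 24 * κ / (r - ‖u‖) ^ 2) R :=
    continuousAt_const.div (by fun_prop) (pow_pos (sub_pos.2 hu) 2).ne'
  refine ge_of_tendsto (c.tendsto.mono_left (nhdsWithin_le_nhds (s := Set.Iio R))) ?_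
  filter_upwards [Ioo_mem_nhdsLT hu] with r hr using key r hr.1 hr.2

/-- `max_test` for `φ * (r ^ 2 - ‖u‖ ^ 2) ^ 2` on a closed ball of radius `r < R` -/
theorem ko {φ : ℂ → ℝ} {κ R : ℝ} (κ0 : 0 ≤ κ) (h : ∀ u ∈ ball (0 : ℂ) R, AnalyticAt ℝ φ u ∧
    0 ≤ φ u ∧ φ u ^ 2 ≤ κ * (pv 1 (pv 1 φ) u + pv Complex.I (pv Complex.I φ) u)) :
    ∀ u ∈ ball (0 : ℂ) R, φ u * (R - ‖u‖) ^ 2 ≤ 24 * κ := by
  intro u hu
  exact (le_div_iff₀ (pow_pos (sub_pos.2 (mem_ball_zero_iff.1 hu)) 2)).1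
    (ko_div (fun u hu => (h u hu).1) κ0 (fun u hu => (h u hu).2.2) u hu)

end

end Pool.Agent.Lib.MP_5591bc_ag.B
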