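import Pool.Agent.Lib.MP_5591bc_ag.B.Boch
import Pool.Agent.Lib.MP_5591bc_ag.B.Ko
import Pool.Agent.Lib.MP_5591bc_ag.B.HarnA

/-! Growth of the Hodge metric. -/

namespace Pool.Agent.Lib.MP_5591bc_ag.B

open Matrix Filter Topology Metric G R W M A

noncomputable section

/-- `c ^ 2 ≥ 24 κ`; `s ↦ eᵀ S (s ζ) e / (R - s ‖ζ‖) ^ c` is monotone on `[0, 1]` -/
theorem harnX {μ : Type*} [Fintype μ] [DecidableEq μ] (κ : ℝ) : ∃ c : ℕ,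
    ∀ (S W : ℂ → Matrix μ μ ℝ) (R : ℝ), (∀ u ∈ ball (0 : ℂ) R, HD κ S W u) →
      ∀ ζ ∈ ball (0 : ℂ) R, (((1 - ‖ζ‖ / R) ^ c)⁻¹ • S ζ - S 0).PosSemidef := by
  obtain ⟨c, hc⟩ := exists_nat_ge (6 * κ + 1)
  refine ⟨2 * c, fun S W R h ζ hζ => ?_⟩
  have k0 : 0 ≤ κ := (neg_nonneg.2 (tr_alt (h ζ hζ).pd (h ζ hζ).sk)).trans (h ζ hζ).tr
  refine harnA (fun u hu => (h u hu).aS) (fun u hu => (h u hu).pd) (fun u hu =>
    ⟨_, _, (h u hu).dx.trans (Matrix.mul_neg _ _), (h u hu).dy, ?_⟩) hζ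
  have k := ko (φ := En W) k0 (fun w hw => boch ((isOpen_ball.eventually_mem hw).mono h)) u hu
  rw [le_div_iff₀ (pow_pos (sub_pos.2 (mem_ball_zero_iff.1 hu)) 2)]
  refine k.trans ?_
  push_cast
  nlinarith

end

end Pool.Agent.Lib.MP_5591bc_ag.B
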