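import Pool.Agent.Lib.MP_5591bc_ag.B.Lap
import Pool.Agent.Lib.MP_5591bc_ag.B.Harn
import Pool.Agent.Lib.MP_5591bc_ag.A.Fix

/-! The theorem of the fixed part. -/

namespace Pool.Agent.Lib.MP_5591bc_ag.B

open Matrix Filter Topology Metric G R W M A

noncomputable section

section
variable {μ α X : Type*} [Fintype μ] [DecidableEq μ] [Fintype α] [DecidableEq α] {κ : ℝ}
  {S W : X → Matrix μ μ ℝ} {hh : ℂ → X → Matrix μ μ ℝ} {Z : Finset ℂ} {Γ : Set (Matrix μ μ ℝ)}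
  {𝓑 : Set (Set ℂ × (ℂ → X))} {m : ℕ} {ρ : Matrix μ μ ℝ → Matrix α α ℝ}
  {d : Matrix μ μ ℝ →ₗ[ℝ] Matrix α α ℝ} {e : α → ℝ}

variable (S ρ e) in
/-- the Hodge norm of `e` -/
def fxN (Ω : X) : ℝ := e ⬝ᵥ ρ (S Ω) *ᵥ e

variable (S 𝓑 ρ e) in
/-- its largest value on the branches at a point -/
def fxF (u : ℂ) : ℝ := sSup {x | ∃ b ∈ 𝓑, u ∈ b.1 ∧ x = fxN S ρ e (b.2 u)}

theorem fx_inv (hρ : RepD m ρ d) {γ : Matrix μ μ ℝ} (he : ρ γ *ᵥ e = e ∨ ρ γ *ᵥ e = -e) {Ω Ω' : X}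
    (hγ : S Ω' = γᵀ * S Ω * γ) : fxN S ρ e Ω' = fxN S ρ e Ω := by
  rw [fxN, fxN, hγ, hρ.mul, hρ.mul, hρ.tr, ← mulVec_mulVec, ← mulVec_mulVec,
    dotProduct_mulVec e, vecMul_transpose]
  rcases he with he | he <;> simp [he, mulVec_neg]

theorem fx_an (h : FamX κ S W hh Z Γ 𝓑) (hρ : RepD m ρ d) {b : Set ℂ × (ℂ → X)} (hb : b ∈ 𝓑) :
    AnalyticOnNhd ℝ (fun u => fxN S ρ e (b.2 u)) b.1 := fun u hu =>
  lx_an hρ (h.hd b hb u hu).aS e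

theorem fx_loc (h : FamX κ S W hh Z Γ 𝓑) (hρ : RepD m ρ d)
    (he : ∀ γ ∈ Γ, ρ γ *ᵥ e = e ∨ ρ γ *ᵥ e = -e) {c : ℂ} (hc : c ∉ Z) :
    ∃ r > 0, ∃ (s : Finset (ℂ → X)) (hs : s.Nonempty), (∀ Ω ∈ s, (ball c r, Ω) ∈ 𝓑) ∧
      ∀ u ∈ ball c r, fxF S 𝓑 ρ e u = s.sup' hs (fun Ω => fxN S ρ e (Ω u)) ∧
        ∀ b ∈ 𝓑, u ∈ b.1 → fxN S ρ e (b.2 u) ≤ fxF S 𝓑 ρ e u := by
  obtain ⟨r, r0, 𝒥, h1, h2, h3, h4⟩ := h.fin c hc
  lift 𝒥 to Finset (ℂ → X) using h1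
  replace h2 : 𝒥.Nonempty := Finset.coe_nonempty.1 h2
  refine ⟨r, r0, 𝒥, h2, h3, fun u hu => ?_⟩
  have k : IsGreatest {x | ∃ b ∈ 𝓑, u ∈ b.1 ∧ x = fxN S ρ e (b.2 u)}
      (𝒥.sup' h2 fun Ω => fxN S ρ e (Ω u)) := by
    constructor
    · obtain ⟨Ω, hΩ, e1⟩ := 𝒥.exists_mem_eq_sup' h2 fun Ω => fxN S ρ e (Ω u)
      exact ⟨(ball c r, Ω), h3 Ω hΩ, hu, e1⟩
    · rintro _ ⟨b, hb, hu', rfl⟩
      obtain ⟨Ω, hΩ, γ, hγ, e1⟩ := h4 b hb u hu' hu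
      rw [fx_inv hρ (he γ hγ) e1]
      exact Finset.le_sup' (fun Ω : ℂ → X => fxN S ρ e (Ω u)) (Finset.mem_coe.1 hΩ)
  exact ⟨k.csSup_eq, fun b hb hu' => (k.2 ⟨b, hb, hu', rfl⟩).trans k.csSup_eq.ge⟩

theorem fx_le (h : FamX κ S W hh Z Γ 𝓑) (hρ : RepD m ρ d)
    (he : ∀ γ ∈ Γ, ρ γ *ᵥ e = e ∨ ρ γ *ᵥ e = -e) {u : ℂ} (hu : u ∉ Z) :
    (∃ b ∈ 𝓑, u ∈ b.1 ∧ fxF S 𝓑 ρ e u = fxN S ρ e (b.2 u)) ∧
      (∀ b ∈ 𝓑, u ∈ b.1 → fxN S ρ e (b.2 u) ≤ fxF S 𝓑 ρ e u) ∧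
      ContinuousAt (fxF S 𝓑 ρ e) u := by
  obtain ⟨r, r0, s, hs, h1, h2⟩ := fx_loc h hρ he hu
  obtain ⟨Ω, hΩ, e1⟩ := s.exists_mem_eq_sup' hs fun Ω => fxN S ρ e (Ω u)
  have k : ∀ Ω ∈ s, ContinuousAt (fun v => fxN S ρ e (Ω v)) u := fun Ω hΩ =>
    (fx_an (e := e) h hρ (h1 Ω hΩ) u (mem_ball_self r0)).continuousAt
  have k1 := ContinuousAt.finset_sup'_apply hs k
  refine ⟨⟨(ball u r, Ω), h1 Ω hΩ, mem_ball_self r0, (h2 u (mem_ball_self r0)).1.trans e1⟩,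
    (h2 u (mem_ball_self r0)).2, k1.congr ?_⟩
  filter_upwards [ball_mem_nhds u r0] with v hv
  exact (h2 v hv).1.symm

theorem fx_harn (h : FamX κ S W hh Z Γ 𝓑) (hρ : RepD m ρ d)
    (he : ∀ γ ∈ Γ, ρ γ *ᵥ e = e ∨ ρ γ *ᵥ e = -e) : ∃ c : ℕ, ∀ {u s ζ : ℂ} {L : ℝ}, 1 ≤ L → u ≠ s →
      ‖ζ‖ = L - 1 → (∀ ζ ∈ ball (0 : ℂ) L, s + (u - s) * Complex.exp ζ ∉ Z) →
      fxF S 𝓑 ρ e u ≤ (L ^ c) ^ m * fxF S 𝓑 ρ e (s + (u - s) * Complex.exp ζ) := by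
  obtain ⟨c, hc⟩ := harnX (μ := μ) κ
  refine ⟨c, fun {u s ζ L} hL hs hζ hZ => ?_⟩
  have m0 : (0 : ℂ) ∈ ball (0 : ℂ) L := mem_ball_self (by linarith)
  have m1 : ζ ∈ ball (0 : ℂ) L := mem_ball_zero_iff.2 (by linarith)
  obtain ⟨b, hb, hu, e1⟩ := (fx_le h hρ he (u := u) (by simpa using hZ 0 m0)).1
  obtain ⟨Ω, h1, h2, h3⟩ := h.ext b hb u hu s L (by linarith) hs hZ
  have h4 := hc _ _ L h1 ζ m1
  rw [← inv_pow, show (1 - ‖ζ‖ / L)⁻¹ = L by rw [hζ]; field_simp; ring] at h4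
  have h5 := (hρ.mono _ _ _ (one_le_pow₀ hL) (h1 0 m0).pd.posSemidef
    h4).dotProduct_mulVec_nonneg e
  rw [star_trivial, sub_mulVec, dotProduct_sub, smul_mulVec, dotProduct_smul, sub_nonneg] at h5
  obtain ⟨b', hb', k1, k2⟩ := h3 ζ m1
  rw [e1, ← h2]
  refine le_trans h5 (mul_le_mul_of_nonneg_left ?_ (by positivity))
  rw [k2]
  exact (fx_le h hρ he (hZ ζ m1)).2.1 b' hb' k1

theorem fx_bd (h : FamX κ S W hh Z Γ 𝓑)
    (hρ : RepD m ρ d) (he : ∀ γ ∈ Γ, ρ γ *ᵥ e = e ∨ ρ γ *ᵥ e = -e) {s : ℂ} {a ε η : ℝ}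
    (hε : ε = 1 ∨ ε = -1) (hZ : ∀ w, w ≠ s → ε * Real.log ‖w - s‖ < ε * a → w ∉ Z)
    (hη : 0 < η) : ∀ᶠ L in atTop, ∀ u, u ≠ s → L = ε * (a - Real.log ‖u - s‖) →
      fxF S 𝓑 ρ e u ≤ ‖u - s‖ ^ (-(ε * η)) := by
  have e2 : ε * ε = 1 := by rcases hε with rfl | rfl <;> norm_num
  have e1 : |ε| = 1 := by rcases hε with rfl | rfl <;> norm_num
  obtain ⟨M, hM⟩ := (isCompact_sphere s (Real.exp (a - ε))).exists_bound_of_continuousOn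
    (f := fxF S 𝓑 ρ e) fun w hw => by
      rw [mem_sphere_iff_norm] at hw
      refine (fx_le h hρ he (hZ w (fun k => ?_) ?_)).2.2.continuousWithinAt
      · rw [k, sub_self, norm_zero] at hw
        exact (Real.exp_pos _).ne hw
      · rw [hw, Real.log_exp]
        linarith
  obtain ⟨c, hc⟩ := fx_harn h hρ he
  filter_upwards [fix_exp (M * Real.exp (ε * η * a)) (c * m) hη, eventually_ge_atTop 1]
    with L h1 h2 u hu hL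
  have u0 : 0 < ‖u - s‖ := norm_pos_iff.2 (sub_ne_zero.2 hu)
  have hn : ∀ ζ : ℂ, ‖s + (u - s) * Complex.exp ζ - s‖ = Real.exp (Real.log ‖u - s‖ + ζ.re) :=
    fun ζ => by rw [add_sub_cancel_left, norm_mul, Complex.norm_exp, Real.exp_add, Real.exp_log u0]
  have h3 := hc (ζ := (ε * (L - 1) : ℝ)) h2 hu
    (by rw [Complex.norm_real, Real.norm_eq_abs, abs_mul, e1, one_mul, abs_of_nonneg (by linarith)])
    fun ζ hζ => hZ _ (fun k => by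
      have := hn ζ
      rw [k, sub_self, norm_zero] at this
      exact (Real.exp_pos _).ne this) (by
      have k1 := (Complex.abs_re_le_norm ζ).trans_lt (mem_ball_zero_iff.1 hζ)
      have k2 : ε * ζ.re ≤ |ζ.re| := (le_abs_self _).trans (by rw [abs_mul, e1, one_mul])
      rw [hn, Real.log_exp]
      linarith)
  have h4 := (le_abs_self _).trans (hM (s + (u - s) * Complex.exp (ε * (L - 1) : ℝ)) (by
    rw [mem_sphere_iff_norm, hn, Complex.ofReal_re, hL]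
    congr 1
    linear_combination (a - Real.log ‖u - s‖) * e2))
  refine (h3.trans (mul_le_mul_of_nonneg_left h4 (by positivity))).trans ?_
  rw [← pow_mul, Real.rpow_def_of_pos u0, show Real.log ‖u - s‖ * -(ε * η) = η * L - ε * η * a by
    rw [hL]; ring, Real.exp_sub, le_div_iff₀ (Real.exp_pos _), mul_assoc]
  exact h1

theorem fx_const (h : FamX κ S W hh Z Γ 𝓑)
    (hρ : RepD m ρ d) (he : ∀ γ ∈ Γ, ρ γ *ᵥ e = e ∨ ρ γ *ᵥ e = -e) (e0 : e ≠ 0) :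
    ∀ u ∉ Z, ∀ v ∉ Z, fxF S 𝓑 ρ e u = fxF S 𝓑 ρ e v := by
  refine max_const (fun u hu => (fx_le h hρ he hu).2.2.continuousWithinAt) (fun u hu => ?_)
    (fun u hu => ?_) (fun s hs η hη => ?_) fun η hη => ?_
  · obtain ⟨b, hb, k1, k2⟩ := (fx_le h hρ he hu).1
    exact k2 ▸ (hρ.pd (h.hd b hb u k1).pd).dotProduct_mulVec_pos e0
  · obtain ⟨b, hb, k1, k2⟩ := (fx_le h hρ he hu).1
    refine ⟨_, fx_an h hρ hb u k1, k2.symm, ?_, lx_ls hρ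
      (mem_of_superset ((h.op b hb).mem_nhds k1) (h.hd b hb)) e⟩
    filter_upwards [(h.op b hb).mem_nhds k1, Z.finite_toSet.isClosed.isOpen_compl.mem_nhds hu]
      with w k3 k4 using (fx_le h hρ he k4).2.1 b hb k3
  · obtain ⟨r, r0, hr⟩ := Metric.isOpen_iff.1
      (Z.finite_toSet.subset (Set.sdiff_subset (t := {s}))).isClosed.isOpen_compl s (by simp)
    have k := fx_bd h hρ he (s := s) (a := Real.log r) (.inl rfl) (fun w hw k hZ => by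
      rw [one_mul, one_mul, Real.log_lt_log_iff (norm_pos_iff.2 (sub_ne_zero.2 hw)) r0] at k
      exact hr (mem_ball_iff_norm.2 k) ⟨hZ, hw⟩) hη
    have t : Tendsto (fun u : ℂ => 1 * (Real.log r - Real.log ‖u - s‖)) (𝓝[≠] s) atTop :=
      (tendsto_atTop_add_const_left _ _ (tendsto_neg_atBot_atTop.comp
        (Real.tendsto_log_nhdsGT_zero.comp (tendsto_norm_sub_self_nhdsNE s)))).const_mul_atTop
          one_pos
    filter_upwards [t.eventually k, self_mem_nhdsWithin] with u k1 k2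
    simpa only [one_mul] using k1 u k2 rfl
  · obtain ⟨r, r0, hr⟩ := Z.finite_toSet.isBounded.exists_pos_norm_le
    have k := fx_bd h hρ he (s := 0) (a := Real.log r) (.inr rfl) (fun w hw k hZ => by
      have := Real.log_le_log (norm_pos_iff.2 hw) (hr w hZ)
      rw [sub_zero] at k
      linarith) hη
    have t : Tendsto (fun u : ℂ => Real.log ‖u‖ + -Real.log r) (cocompact ℂ) atTop :=
      tendsto_atTop_add_const_right _ _ (Real.tendsto_log_atTop.comp tendsto_norm_cocompact_atTop)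
    filter_upwards [t.eventually k, (isCompact_singleton (x := (0 : ℂ))).compl_mem_cocompact]
      with u k1 k2
    simpa using k1 u k2 (by rw [sub_zero]; ring)

end

/-- an edited copy of `A.fix` -/
theorem fixX {μ α X : Type*} [Fintype μ] [DecidableEq μ] [Fintype α] [DecidableEq α] {κ : ℝ}
    {S W : X → Matrix μ μ ℝ} {hh : ℂ → X → Matrix μ μ ℝ} {Z : Finset ℂ} {Γ : Set (Matrix μ μ ℝ)}
    {𝓑 : Set (Set ℂ × (ℂ → X))} (h : FamX κ S W hh Z Γ 𝓑) {m : ℕ}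
    {ρ : Matrix μ μ ℝ → Matrix α α ℝ} {d : Matrix μ μ ℝ →ₗ[ℝ] Matrix α α ℝ} (hρ : RepD m ρ d)
    {e : α → ℝ} (he : ∀ γ ∈ Γ, ρ γ *ᵥ e = e ∨ ρ γ *ᵥ e = -e) {z : ℂ} (z0 : z ≠ 0) :
    ∃ w, ∀ b ∈ 𝓑, ∀ u ∈ b.1, ρ (hh z (b.2 u)) *ᵥ e = w := by
  rcases eq_or_ne e 0 with rfl | e0
  · exact ⟨0, fun _ _ _ _ => mulVec_zero _⟩
  obtain ⟨c, hZ⟩ := Infinite.exists_notMem_finset Z
  obtain ⟨r, r0, s, hs, h1, h2⟩ := fx_loc h hρ he hZ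
  obtain ⟨Ω, hΩ, u, hu, k⟩ := fix_cover s (g := fun Ω v => fxN S ρ e (Ω v) - fxF S 𝓑 ρ e c)
    (isOpen_ball.inter Z.finite_toSet.isClosed.isOpen_compl) ⟨c, mem_ball_self r0, hZ⟩
    (fun Ω hΩ => ((fx_an h hρ (h1 Ω hΩ)).continuousOn.mono Set.inter_subset_left).sub
      continuousOn_const) fun v hv => by
      obtain ⟨Ω, hΩ, e1⟩ := s.exists_mem_eq_sup' hs fun Ω => fxN S ρ e (Ω v)
      exact ⟨Ω, hΩ, by rw [← e1, ← (h2 v hv.1).1, fx_const h hρ he e0 v hv.2 c hZ, sub_self]⟩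
  have k1 := h.conn (fun Ω => fxN S ρ e Ω - fxF S 𝓑 ρ e c)
    (fun b hb => (fx_an h hρ hb).sub analyticOnNhd_const) _ (h1 Ω hΩ) _ (h1 Ω hΩ) u hu.1 k
  have k2 := lx_const hρ (fun v hv => h.hh _ (h1 Ω hΩ) v hv z z0) (e := e) fun v hv =>
    lx_max hρ (mem_of_superset (isOpen_ball.mem_nhds hv) (h.hd _ (h1 Ω hΩ))) (by
      filter_upwards [isOpen_ball.mem_nhds hv] with w hw
      exact ((sub_eq_zero.1 (k1 w hw)).trans (sub_eq_zero.1 (k1 v hv)).symm).le)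
  refine ⟨ρ (hh z (Ω c)) *ᵥ e, fun b hb v hv => funext fun a => sub_eq_zero.1 ?_⟩
  refine h.conn (fun Ω' => (ρ (hh z Ω') *ᵥ e) a - (ρ (hh z (Ω c)) *ᵥ e) a)
    (fun b hb w hw => (lx_anh hρ (h.hh b hb w hw z z0).1 e a).sub
      analyticAt_const) _ (h1 Ω hΩ) b hb c (mem_ball_self r0) ?_ v hv
  filter_upwards [ball_mem_nhds c r0] with w hw
  rw [k2 w hw, sub_self]

end

end Pool.Agent.Lib.MP_5591bc_ag.B
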