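import Pool.Agent.Lib.MP_5591bc_ag.J.Ring

/-! The relative fibre is irreducible. -/

namespace Pool.Agent.Lib.MP_5591bc_ag.B

open Matrix Filter Topology Metric G R W M N J

noncomputable section

/-- the ideal of relations over a stable algebra has a prime fibre -/
theorem irr_formal {σ ν : Type} [Fintype ν] [DecidableEq ν]
    {S : Subalgebra ℂ (MvPowerSeries σ ℂ)} {s : σ → ℂ} (hS : ∀ p, τm s p ∈ S)
    {T : MvPolynomial σ ℂ} (hT : MvPolynomial.eval s T ≠ 0) (hD : DN (τm s T) S)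
    {B : σ → Matrix ν ν (MvPolynomial σ ℂ)} {Y : Matrix ν ν (MvPowerSeries σ ℂ)}
    (h0 : Y.map MvPowerSeries.constantCoeff = 1)
    (ode : ∀ l, τm s T • Y.map (MvPowerSeries.pderiv ℂ l) = (B l).map (τm s) * Y)
    {𝒜 : Subring (MvPowerSeries σ ℂ)} (h1 : ∀ p ∈ S, p ∈ 𝒜) (h2 : ∀ i j, Y i j ∈ 𝒜)
    (hC : ConnTN S 𝒜) : ∃ I : Ideal (MvPolynomial (ν × ν) ℂ), I.IsPrime ∧
      ∀ Q, Q ∈ I ↔ ∃ q : MvPolynomial (ν × ν) S, gev S.val Y q = 0 ∧
        MvPolynomial.map ((ccM σ).comp S.val).toRingHom q = Q := by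
  have : IsDomain (MvPowerSeries σ ℂ) := NoZeroDivisors.to_isDomain _
  let j : MvPolynomial σ ℂ →+* S := (τm s).codRestrict S hS
  let d : σ → S → S := fun l a => ⟨_, hD l a a.2⟩
  have ht : IsUnit (τm s T) := by
    rwa [MvPowerSeries.isUnit_iff_constantCoeff, isUnit_iff_ne_zero, frT_const]
  have hA : ∀ q : MvPolynomial (ν × ν) S, gev S.val Y q ∈ 𝒜 := fun q => by
    induction q using MvPolynomial.induction_on with
    | C p => exact gev_C (τ := S.val) (G := Y) p ▸ h1 _ p.2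
    | add p q hp hq => exact map_add (gev S.val Y) p q ▸ add_mem hp hq
    | mul_X p a hp =>
      rw [map_mul, gev_X]
      exact mul_mem hp (h2 _ _)
  obtain ⟨I, h⟩ := ggen_of.{0, 0} (τ := S.val) (cc := ccM σ) (ev := (ccM σ).comp S.val) (G := Y)
    Subtype.val_injective (fun _ => rfl) h0 fun u v n p hv hp e => by
      obtain ⟨i, hi, hp⟩ := hp
      obtain ⟨a, ha, b, hb, b0, r⟩ := hC _ (hA u) _ (hA v) n (fun i => p i) (fun i => (p i).2) hv
        ⟨i, hi, fun c => hp (Subtype.ext c)⟩ e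
      exact ⟨⟨a, ha⟩, ⟨b, hb⟩, fun c => b0 (congrArg Subtype.val c), r⟩
  exact ⟨I, h.prime, h.mem_iff (δ := d) (B := fun l => (B l).map j) ht (fun _ _ => rfl) h0 ode⟩

/-- polynomials over the algebra generated by the coordinates and by `Ψ` -/
theorem irr_surj {σ κ : Type} {Ψ : κ → MvPowerSeries σ ℂ} {a : σ → SN Ψ} {b : κ → SN Ψ}
    {s : σ → ℂ} (ha : ∀ l, (a l : MvPowerSeries σ ℂ) = MvPowerSeries.X l + MvPowerSeries.C (s l))
    (hb : ∀ k, (b k : MvPowerSeries σ ℂ) = Ψ k) (q : MvPolynomial κ (SN Ψ)) :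
    ∃ H : MvPolynomial (σ ⊕ κ ⊕ κ) ℂ, MvPolynomial.aeval (Sum.elim (fun l => MvPolynomial.C (a l))
      (Sum.elim (fun k => MvPolynomial.C (b k)) MvPolynomial.X)) H = q := by
  induction q using MvPolynomial.induction_on with
  | C x =>
    obtain ⟨x, hx⟩ := x
    induction hx using Algebra.adjoin_induction with
    | mem p hp =>
      rcases hp with ⟨l, rfl⟩ | ⟨k, rfl⟩
      · refine ⟨MvPolynomial.X (.inl l) - MvPolynomial.C (s l), ?_⟩
        rw [map_sub, MvPolynomial.aeval_X, MvPolynomial.aeval_C, MvPolynomial.algebraMap_apply,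
          Sum.elim_inl, ← map_sub]
        exact congrArg _ (Subtype.ext ((congrArg (· - _) (ha l)).trans (add_sub_cancel_right _ _)))
      · refine ⟨MvPolynomial.X (.inr (.inl k)), ?_⟩
        rw [MvPolynomial.aeval_X]
        exact congrArg MvPolynomial.C (Subtype.ext (a1 := b k) (hb k))
    | algebraMap c => exact ⟨MvPolynomial.C c, MvPolynomial.aeval_C _ _⟩
    | add p q _ _ hp hq =>
      obtain ⟨H, h1⟩ := hp
      obtain ⟨H', h2⟩ := hq
      exact ⟨H + H', by rw [map_add, h1, h2, ← map_add]; rfl⟩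
    | mul p q _ _ hp hq =>
      obtain ⟨H, h1⟩ := hp
      obtain ⟨H', h2⟩ := hq
      exact ⟨H * H', by rw [map_mul, h1, h2, ← map_mul]; rfl⟩
  | add p q hp hq =>
    obtain ⟨H, h1⟩ := hp
    obtain ⟨H', h2⟩ := hq
    exact ⟨H + H', by rw [map_add, h1, h2]⟩
  | mul_X p k hp =>
    obtain ⟨H, h1⟩ := hp
    exact ⟨H * MvPolynomial.X (.inr (.inr k)), by rw [map_mul, h1, MvPolynomial.aeval_X]; rfl⟩

variable {σ K ν : Type} [Fintype σ] [DecidableEq σ] [Field K] [Algebra K ℂ] [Fintype ν]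
  [DecidableEq ν] {T : MvPolynomial σ K} {B : σ → Matrix ν ν (MvPolynomial σ K)}
  {U : Set (σ → ℂ)} {P : (σ → ℂ) → Matrix ν ν ℂ} {C1 : Matrix ν ν ℂ} {s : σ → ℂ}

/-- the values of the relations form a prime ideal -/
theorem irr_ideal (ho : IsOpen U) (hc : IsPreconnected U) (hP : FundM T B U P)
    (hC : ConnRM U P fun t => P t * C1) (hs : s ∈ U) (hT : MvPolynomial.aeval s T ≠ 0) :
    ∃ I : Ideal (MvPolynomial (ν × ν) ℂ), I.IsPrime ∧ ∀ Q, Q ∈ I ↔ InFibR P C1 s Q := by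
  have a := fun t ht i j => ((hP t ht).2 i j).1
  have an : ∀ (M : Matrix ν ν ℂ), ∀ t ∈ U, ∀ i j, AnalyticAt ℂ (fun t => (P t * M) i j) t :=
    fun M t ht i j => Finset.analyticAt_fun_sum _ fun k _ => (a t ht i k).fun_mul analyticAt_const
  have e : ∀ M : Matrix ν ν ℂ, tayX (fun t => P t * M) s = tayX P s * M.map MvPowerSeries.C :=
    fun M => by
    ext1 i j
    refine (tayM_sum _ fun k _ => (a s hs i k).fun_mul analyticAt_const).trans
      (Finset.sum_congr rfl fun k _ => ?_)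
    rw [tayM_mul (a s hs i k) analyticAt_const, tayM_const]
    rfl
  have m : ∀ (M : Matrix ν ν ℂ) i j, tayX (fun t => P t * M) s i j ∈ (evGM s (tayX P s)).range :=
    fun M i j => ⟨∑ k, MvPolynomial.X (i, k) * MvPolynomial.C (MvPolynomial.C (M k j)), by
      simp [e, evGM, mul_apply, frT_C]⟩
  obtain ⟨I, hp, h2⟩ := irr_formal (S := SN fun a => tayM (uuN P C1 · a) s) (s := s)
    (τm_mem_SN s _) (T := TM ℂ T) (by rwa [MvPolynomial.eval_map]) (DN_SN (uuN_ode ho hP C1 hs))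
    (B := BM ℂ B) (Y := tayX (fun t => P t * (P s)⁻¹) s) (by
      rw [← mul_nonsing_inv _ (hP s hs).1.isUnit]
      ext i j
      exact constantCoeff_tayM (an _ s hs i j)) (fun l => by
      rw [e, ← Matrix.mul_assoc, ← irr_ode ho hP hs, Matrix.smul_mul]
      congr 1
      ext1 i j
      simp [mul_apply, mul_comm]) (𝒜 := (evGM s (tayX P s)).range) (fun p hp => by
      obtain ⟨q, rfl⟩ := (mem_SN s).1 hp
      exact range_evGM (G' := tayX (fun t => P t * C1) s) (m C1) ⟨q, rfl⟩) (m _)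
    ((connRM_iff ho hc a (an C1) hs).1 hC)
  have hf : ∀ o, AnalyticAt ℂ (fun t => Sum.elim t (Sum.elim (fun a : ν × ν => (P t * C1) a.1 a.2)
      fun a : ν × ν => (P t * (P s)⁻¹) a.1 a.2) o) s := by
    rintro (l | b | b)
    exacts [coord_ana l, an _ s hs _ _, an _ s hs _ _]
  have m1 : ∀ l, tayM (· l) s ∈ SN fun a => tayM (uuN P C1 · a) s := fun l =>
    tayM_coord (p := s) l ▸ add_mem (Algebra.subset_adjoin (.inl ⟨l, rfl⟩)) (algebraMap_mem _ _)
  let Φ : MvPolynomial (σ ⊕ (ν × ν) ⊕ (ν × ν)) ℂ →ₐ[ℂ]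
      MvPolynomial (ν × ν) (SN fun a => tayM (uuN P C1 · a) s) :=
    MvPolynomial.aeval (Sum.elim (fun l => MvPolynomial.C ⟨_, m1 l⟩) (Sum.elim
      (fun b => MvPolynomial.C ⟨_, brg_mem _ b⟩) MvPolynomial.X))
  have k1 : ∀ H, gev (Subalgebra.val _) (tayX (fun t => P t * (P s)⁻¹) s) (Φ H) = 0 ↔
      ∀ᶠ t in 𝓝 s, MvPolynomial.eval (Sum.elim t (Sum.elim (fun a => (P t * C1) a.1 a.2)
        fun a => (P t * (P s)⁻¹) a.1 a.2)) H = 0 := fun H => by
    obtain ⟨q3, q4⟩ := tayM_mv hf H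
    refine Iff.trans (Eq.congr_left (Eq.trans ?_ q4.symm)) (tayM_eq_zero_iff q3)
    rw [MvPolynomial.map_aeval, MvPolynomial.aeval_eq_eval₂Hom]
    congr 2
    · exact RingHom.ext fun c => gev_C _
    · funext o
      rcases o with l | b | b
      exacts [gev_C _, gev_C _, gev_X _]
  have k2 : ∀ H Z, MvPolynomial.eval Z (MvPolynomial.map ((ccM σ).comp
      (Subalgebra.val _)).toRingHom (Φ H)) =
      MvPolynomial.eval (Sum.elim s (Sum.elim (fun a => (P s * C1) a.1 a.2) Z)) H := fun H Z => by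
    rw [ringJ_ev]
    refine congrArg (MvPolynomial.eval · H) (funext ?_)
    rintro (l | b | b)
    exacts [constantCoeff_tayM (hf (.inl l)), constantCoeff_tayM (hf (.inr (.inl b))), rfl]
  refine ⟨I, hp, fun Q => (h2 Q).trans ⟨?_, ?_⟩⟩
  · rintro ⟨q, q1, rfl⟩
    obtain ⟨H, rfl⟩ : ∃ H, Φ H = q := irr_surj (s := s) (fun l => tayM_coord l) (fun _ => rfl) q
    exact ⟨H, (k1 H).1 q1, fun Z => (k2 H Z).symm⟩
  · rintro ⟨H, q1, q2⟩
    exact ⟨Φ H, (k1 H).2 q1, MvPolynomial.funext fun Z => (k2 H Z).trans (q2 Z)⟩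

/-- an edited copy of `ringJ_formal`, `fib_ringJ`: use both directions of `mem_iff` -/
theorem irrR (ho : IsOpen U) (hc : IsPreconnected U) (hP : FundM T B U P)
    (hC : ConnRM U P fun t => P t * C1) (hs : s ∈ U) (hT : MvPolynomial.aeval s T ≠ 0)
    {Q Q' : MvPolynomial (ν × ν) ℂ} (h : InFibR P C1 s (Q * Q')) :
    InFibR P C1 s Q ∨ InFibR P C1 s Q' := by
  obtain ⟨I, hp, hI⟩ := irr_ideal ho hc hP hC hs hT
  exact (hp.mem_or_mem ((hI _).2 h)).imp (hI _).1 (hI _).1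

end

end Pool.Agent.Lib.MP_5591bc_ag.B
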