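import Pool.Agent.Lib.MP_5591bc_ag.B.Set
import Pool.Agent.Lib.MP_5591bc_ag.B.Irr
import Pool.Agent.Lib.MP_5591bc_ag.A.Null

/-! The ideal of the relative fibre. -/

namespace Pool.Agent.Lib.MP_5591bc_ag.B

open Matrix Filter Topology Metric G R W M A N J

noncomputable section

variable {σ K ν : Type} [Fintype σ] [DecidableEq σ] [Field K] [Algebra K ℂ] [Fintype ν]
  [DecidableEq ν] {T : MvPolynomial σ K} {B : σ → Matrix ν ν (MvPolynomial σ K)}
  {U : Set (σ → ℂ)} {P : (σ → ℂ) → Matrix ν ν ℂ} {C1 : Matrix ν ν ℂ} {s : σ → ℂ}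

omit [Fintype σ] [DecidableEq σ] [DecidableEq ν] in
/-- the substitution `X ↦ X c` in the last variables -/
theorem nullR_sub (c : Matrix ν ν ℂ) (H : MvPolynomial (σ ⊕ (ν × ν) ⊕ (ν × ν)) ℂ) :
    ∃ H' : MvPolynomial (σ ⊕ (ν × ν) ⊕ (ν × ν)) ℂ, ∀ (t : σ → ℂ) (u : ν × ν → ℂ)
      (Z : Matrix ν ν ℂ), MvPolynomial.eval (Sum.elim t (Sum.elim u fun a => Z a.1 a.2)) H' =
        MvPolynomial.eval (Sum.elim t (Sum.elim u fun a => (Z * c) a.1 a.2)) H := by
  refine ⟨MvPolynomial.aeval (Sum.elim (fun l => MvPolynomial.X (.inl l)) (Sum.elim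
    (fun a => MvPolynomial.X (.inr (.inl a))) fun a =>
      ∑ k, MvPolynomial.X (.inr (.inr (a.1, k))) * MvPolynomial.C (c k a.2))) H, fun t u Z => ?_⟩
  rw [← MvPolynomial.coe_aeval_eq_eval, ← MvPolynomial.coe_aeval_eq_eval, RingHom.coe_coe,
    RingHom.coe_coe, ← AlgHom.comp_apply, MvPolynomial.comp_aeval]
  congr 2
  ext (_ | _ | a) <;> simp [mul_apply]

omit [Fintype σ] [DecidableEq σ] [Fintype ν] [DecidableEq ν] in
/-- the value of a relation at a point -/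
theorem nullR_spc (t : σ → ℂ) (u : ν × ν → ℂ) (H : MvPolynomial (σ ⊕ (ν × ν) ⊕ (ν × ν)) ℂ) :
    ∃ Q : MvPolynomial (ν × ν) ℂ, ∀ Z : ν × ν → ℂ,
      MvPolynomial.eval (Sum.elim t (Sum.elim u Z)) H = MvPolynomial.eval Z Q := by
  refine ⟨MvPolynomial.aeval (Sum.elim (fun l => MvPolynomial.C (t l)) (Sum.elim
    (fun a => MvPolynomial.C (u a)) MvPolynomial.X)) H, fun Z => ?_⟩
  rw [← MvPolynomial.coe_aeval_eq_eval, ← MvPolynomial.coe_aeval_eq_eval, RingHom.coe_coe,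
    RingHom.coe_coe, ← AlgHom.comp_apply, MvPolynomial.comp_aeval]
  congr 2
  ext (_ | _ | a) <;> simp

/-- the ideal of the relative fibre -/
def nullR_I (P : (σ → ℂ) → Matrix ν ν ℂ) (C1 : Matrix ν ν ℂ) (s : σ → ℂ) :
    Ideal (MvPolynomial (ν × ν) ℂ) where
  carrier := {Q | InFibR P C1 s Q}
  zero_mem' := ⟨0, by simp, by simp⟩
  add_mem' := fun ⟨H, a1, a2⟩ ⟨H', b1, b2⟩ => ⟨H + H', by
    filter_upwards [a1, b1] with t ha hb
    rw [map_add, ha, hb, add_zero], fun Z => by rw [map_add, map_add, a2, b2]⟩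
  smul_mem' := fun c _ ⟨H, a1, a2⟩ => ⟨MvPolynomial.rename (Sum.inr ∘ Sum.inr) c * H, by
    filter_upwards [a1] with t ha
    rw [map_mul, ha, mul_zero], fun Z => by
    rw [map_mul, a2, MvPolynomial.eval_rename, smul_eq_mul, map_mul]
    rfl⟩

/-- Nullstellensatz for `F * det`, as in `A.null_fib` -/
theorem nullR (ho : IsOpen U) (hc : IsPreconnected U) (hP : FundM T B U P)
    (hC : ConnRM U P fun t => P t * C1) (hs : s ∈ U) (hT : MvPolynomial.aeval s T ≠ 0)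
    {F : MvPolynomial (ν × ν) ℂ}
    (hF : ∀ g ∈ Fb P C1 s, MvPolynomial.eval (fun a => (P s * g) a.1 a.2) F = 0) :
    ∃ H : MvPolynomial (σ ⊕ (ν × ν) ⊕ (ν × ν)) ℂ,
      (∀ᶠ t in 𝓝 s, MvPolynomial.eval (Sum.elim t (Sum.elim (fun a => (P t * C1) a.1 a.2)
        fun a => P t a.1 a.2)) H = 0) ∧
      ∀ Z : Matrix ν ν ℂ, MvPolynomial.eval (Sum.elim s (Sum.elim (fun a => (P s * C1) a.1 a.2)
        fun a => Z a.1 a.2)) H = MvPolynomial.eval (fun a => Z a.1 a.2) F := by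
  have hd : IsUnit (P s).det := (hP s hs).1.isUnit
  have eD : ∀ Z : Matrix ν ν ℂ, MvPolynomial.eval (fun a : ν × ν => Z a.1 a.2)
      (of fun i j => (MvPolynomial.X (i, j) : MvPolynomial (ν × ν) ℂ)).det = Z.det := fun Z => by
    rw [RingHom.map_det]
    congr 1
    ext i j
    simp
  have h1 : null_sub (P s) F * (of fun i j => MvPolynomial.X (i, j)).det ∈
      (nullR_I P C1 s).radical := by
    rw [← MvPolynomial.vanishingIdeal_zeroLocus_eq_radical (K := ℂ)]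
    intro z hz
    obtain ⟨Z, rfl⟩ : ∃ Z : Matrix ν ν ℂ, z = fun a => Z a.1 a.2 := ⟨of fun i j => z (i, j), rfl⟩
    rw [map_mul, null_ev]
    refine mul_eq_zero.2 (or_iff_not_imp_right.2 fun hZ => ?_)
    have hZ' : Z.det ≠ 0 := fun h => hZ ((eD Z).trans h)
    have := hF ((P s)⁻¹ * (Z * P s)) ⟨by
      rw [det_mul, det_mul, mul_left_comm, det_nonsing_inv_mul_det _ hd, mul_one]
      exact hZ', fun H hH => by
      obtain ⟨H', e⟩ := nullR_sub (P s) H
      obtain ⟨Q, e'⟩ := nullR_spc s (fun a => (P s * C1) a.1 a.2) H'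
      rw [mul_nonsing_inv_cancel_left _ _ hd, ← e, e']
      refine hz Q ⟨H', hH.mono fun t ht => ?_, e'⟩
      rw [e, nonsing_inv_mul_cancel_right _ _ hd, ht]⟩
    rwa [mul_nonsing_inv_cancel_left _ _ hd] at this
  have h2 : ∀ G, G ∈ (nullR_I P C1 s).radical → InFibR P C1 s G := by
    rintro G ⟨n, hn⟩
    induction n with
    | zero =>
      have := (nullR_I P C1 s).mul_mem_left G hn
      rwa [pow_zero, mul_one] at this
    | succ n ih =>
      rw [pow_succ] at hn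
      exact (irrR ho hc hP hC hs hT hn).elim ih id
  obtain ⟨H, a1, a2⟩ | ⟨H, a1, a2⟩ := irrR ho hc hP hC hs hT (h2 _ h1)
  · obtain ⟨H', e⟩ := nullR_sub (P s)⁻¹ H
    refine ⟨H', a1.mono fun t ht => (e _ _ _).trans ht, fun Z => ?_⟩
    rw [e, a2]
    refine (null_ev _ _ _).trans ?_
    rw [nonsing_inv_mul_cancel_right _ _ hd]
    rfl
  · have := a1.self_of_nhds
    rw [a2, eD, mul_nonsing_inv _ hd, det_one] at this
    exact absurd this one_ne_zero

end

end Pool.Agent.Lib.MP_5591bc_ag.B
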