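import Pool.Agent.Lib.MP_5591bc_ag.B.Br
import Pool.Agent.Lib.MP_5591bc_ag.B.Fix
import Pool.Agent.Lib.MP_5591bc_ag.B.Chev
import Pool.Agent.Lib.MP_5591bc_ag.B.Null
import Pool.Agent.Lib.MP_5591bc_ag.A.End

/-! The monodromy group along an algebraic arc is normal. -/

namespace Pool.Agent.Lib.MP_5591bc_ag.B

open Matrix Filter Topology Metric G R W M A N E Z J

noncomputable section

theorem end_djC {ν : Type*} [Fintype ν] [DecidableEq ν] (C0 : Matrix ν ν ℂ) :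
    ∃ f : Option (ν × ν) → MvPolynomial (ν × ν) ℂ, ∀ (Y : Matrix ν ν ℂ) o,
      MvPolynomial.eval (fun a => Y a.1 a.2) (f o) = dj C0 Y o := by
  obtain ⟨f, hf⟩ := end_dj (ν := ν)
  refine ⟨fun o => o.elim (f none) fun a => ∑ k, MvPolynomial.C (C0 a.1 k) * f (some (k, a.2)),
    fun Y o => ?_⟩
  rcases o with _ | a
  · exact hf Y none
  · simp only [Option.elim_some, map_sum, map_mul, MvPolynomial.eval_C, hf, dj, Matrix.one_mul]
    rfl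

/-- the closure of the monodromy group is normalised by the Mumford-Tate group -/
theorem end_norm {μ : Type*} [Fintype μ] [DecidableEq μ] {J : Matrix μ μ ℝ} {j : ℕ} {w : μ → ℕ}
    {κ : ℝ} {Z : Finset ℂ} {Γ : Set (Matrix μ μ ℚ)} {𝓑 : Set (Set ℂ × (ℂ → Matrix μ μ ℂ))}
    {D : Set ℂ} (hΓ : Grp Γ) (hF : FamX κ (SH J j w) (WH J j w) (hH J j w) Z (qr '' Γ) 𝓑)
    (D0 : (0 : ℂ) ∈ D) {Y : ℂ → Matrix μ μ ℂ} (hs : ∀ u ∈ D, HS J j w (Y u))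
    (hb : ∀ γ ∈ Γ, qr γ * J * (qr γ)ᵀ = J ∧ (D, fun u => Y u * qc γ) ∈ 𝓑) :
    (∀ g ∈ MTH j w (Y 0), ∀ a ∈ Zc Γ, g⁻¹ * a * g ∈ Zc Γ) ∧ ∀ᶠ u in 𝓝 (0 : ℂ), ∀ z ≠ 0,
      ((cx (hH J j w z (Y 0)))⁻¹ * cx (hH J j w z (Y u))).det ≠ 0 ∧
        (cx (hH J j w z (Y 0)))⁻¹ * cx (hH J j w z (Y u)) ∈ Zc Γ := by
  have b1 : (D, Y) ∈ 𝓑 := by simpa only [qc_one, Matrix.mul_one] using (hb 1 hΓ.one).2
  have dt : ∀ u ∈ D, ∀ z ≠ 0, (hH J j w z (Y u)).det ≠ 0 := fun u hu z z0 =>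
    det_ne_zero_of_right_inverse (B := hH J j w z⁻¹ (Y u)) (by
      rw [hH_mul (hs u hu), mul_inv_cancel₀ z0, hH_one (hs u hu)])
  have dc : ∀ u ∈ D, ∀ z ≠ 0, (cx (hH J j w z (Y u))).det ≠ 0 := fun u hu z z0 =>
    (Complex.ofRealHom.map_det _).symm.trans_ne (by simpa using dt u hu z z0)
  have fx : ∀ (r δ : ℕ) (e : (Fin r → Mo δ μ) → ℝ),
      (∀ γ ∈ Γ, rW r δ (qr γ) *ᵥ e = e ∨ rW r δ (qr γ) *ᵥ e = -e) → ∀ z ≠ 0,
      ∃ x, ∀ b ∈ 𝓑, ∀ u ∈ b.1, rW r δ (hH J j w z (b.2 u)) *ᵥ e = x := fun r δ e he z z0 => by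
    obtain ⟨m, d, hρ⟩ := rep_rW (ν := μ) r δ
    exact fixX hF hρ (e := e) (by rintro _ ⟨γ, h, rfl⟩; exact he γ h) z0
  refine ⟨fun g hg => chevX hΓ (𝓗 := {h | ∃ z ≠ 0, h = hH J j w z (Y 0)}) ?_ ?_
    fun G h1 h2 => hg G ⟨h1, fun z h z0 hz => ?_⟩, ?_⟩
  · rintro _ ⟨z, z0, rfl⟩
    exact dt 0 D0 z z0
  · rintro r δ e he _ ⟨z, z0, rfl⟩ γ hγ k hk
    obtain ⟨x, hx⟩ := fx r δ e he z z0
    obtain ⟨γ', -, e'⟩ := hΓ.inv γ hγ
    have e2 : qr γ' * qr γ = 1 := by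
      rw [← Matrix.map_one (Rat.cast : ℚ → ℝ) Rat.cast_zero Rat.cast_one, ← mul_eq_one_comm.1 e']
      exact (Matrix.map_mul (f := Rat.castHom ℝ)).symm
    have : k = hH J j w z (Y 0 * qc γ) := by
      rw [← Matrix.one_mul k, ← e2, Matrix.mul_assoc, hk, ← hH_conj (hs 0 D0) (hb γ hγ).1,
        ← Matrix.mul_assoc, e2, Matrix.one_mul, end_cx]
    rw [this]
    exact (hx _ (hb γ hγ).2 0 D0).trans (hx _ b1 0 D0).symm
  · rw [(isH_iff (hs 0 D0)).1 hz]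
    exact h2 _ ⟨z, z0, rfl⟩
  · filter_upwards [(hF.op _ b1).mem_nhds D0] with u hu z z0
    refine ⟨?_, chev_two hΓ (dt 0 D0 z z0) (dt u hu z z0) fun r δ e he => ?_⟩
    · rw [det_mul, det_nonsing_inv, Ring.inverse_eq_inv]
      exact mul_ne_zero (inv_ne_zero (dc 0 D0 z z0)) (dc u hu z z0)
    · obtain ⟨x, hx⟩ := fx r δ e he z z0
      exact (hx _ b1 u hu).trans (hx _ b1 0 D0).symm

variable {σ K ν μ : Type} [Fintype σ] [DecidableEq σ] [Field K] [Algebra K ℂ] [Fintype ν]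
  [DecidableEq ν] [Fintype μ] [DecidableEq μ] {T : MvPolynomial σ K}
  {B : σ → Matrix ν ν (MvPolynomial σ K)} {U V : Set (σ → ℂ)} {P Q : (σ → ℂ) → Matrix ν ν ℂ}
  {C1 : Matrix ν ν ℂ} {c : μ → ν} {J : Matrix μ μ ℝ} {j r : ℕ} {w : μ → ℕ}

omit [DecidableEq σ] in
/-- relations along the arc give relations on the fibre -/
theorem end_fb {y : ℂ → σ → ℂ} (hy : ContinuousAt y 0) {g : Matrix ν ν ℂ} (g0 : g.det ≠ 0)
    (g1 : g * C1 = C1) (h : ∀ H : MvPolynomial (Option σ ⊕ ν × ν) ℂ, (∀ᶠ u in 𝓝 (0 : ℂ),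
      MvPolynomial.eval (Sum.elim (fun o => o.elim u (y u)) fun a => Q (y u) a.1 a.2) H = 0) →
      MvPolynomial.eval (Sum.elim (fun o => o.elim 0 (y 0))
        fun a => (Q (y 0) * g) a.1 a.2) H = 0) : g ∈ Fb Q C1 (y 0) := by
  refine ⟨g0, fun H hH => ?_⟩
  have e : ∀ (u : ℂ) (t : σ → ℂ) (Y : Matrix ν ν ℂ), MvPolynomial.eval
      (Sum.elim (fun o : Option σ => o.elim u t) fun a => Y a.1 a.2) (MvPolynomial.aeval (Sum.elim
        (fun l => MvPolynomial.X (.inl (some l))) (Sum.elim (fun a : ν × ν => ∑ k,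
          MvPolynomial.X (.inr (a.1, k)) * MvPolynomial.C (C1 k a.2))
          fun a => MvPolynomial.X (.inr a))) H) = MvPolynomial.eval (Sum.elim t (Sum.elim
            (fun a => (Y * C1) a.1 a.2) fun a => Y a.1 a.2)) H := fun u t Y => by
    rw [end_ev]
    congr 2
    ext (l | a | a) <;> simp [mul_apply]
  have := h _ ((hy.tendsto.eventually hH).mono fun u hu => (e _ _ _).trans hu)
  rwa [e, Matrix.mul_assoc, g1] at this

/-- the dichotomy along one arc -/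
theorem arc_dich (ho : IsOpen U) (hU : IsPreconnected U) (hP : FundM T B U P)
    (hC : ConnRM U P fun t => P t * C1) (hc : Function.Injective c) (hj : Proj T U P C1 (pr c))
    (h : VHS T U P C1 c J j w r) (k : ContM U P V Q) (oV : IsOpen V) (cV : IsPreconnected V)
    (hQ : FundM T B V Q) {y : ℂ → σ → ℂ} (hy : AnalyticAt ℂ y 0) (hV : y 0 ∈ V)
    (hT : MvPolynomial.aeval (y 0) T ≠ 0) (hq : ∀ l, ∃ q : MvPolynomial (Fin 2) ℂ, q ≠ 0 ∧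
      ∀ᶠ u in 𝓝 (0 : ℂ), MvPolynomial.eval ![u, y u l] q = 0)
    (hM : Mf Q C1 c (y 0) ⊆ MTH j w ((Q (y 0)).submatrix c c)) :
    ∃ N, QGrp N ∧ N ⊆ Mf Q C1 c (y 0) ∧ (∀ g ∈ Mf Q C1 c (y 0), ∀ a ∈ N, g⁻¹ * a * g ∈ N) ∧
      (∀ᶠ u in 𝓝 (0 : ℂ), ∀ z ≠ 0, (cx (hH J j w z ((Q (y 0)).submatrix c c)))⁻¹ *
        cx (hH J j w z ((Q (y u)).submatrix c c)) ∈ N) ∧
      (Mf Q C1 c (y 0) ⊆ N → ∀ H : MvPolynomial (Option σ ⊕ Option (ν × ν)) ℂ,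
        (∀ᶠ u in 𝓝 (0 : ℂ), MvPolynomial.eval (Sum.elim (fun o => o.elim u (y u))
          (dj (pr c) (Q (y u)))) H = 0) →
        ∃ H' : MvPolynomial (σ ⊕ (ν × ν) ⊕ (ν × ν)) ℂ,
          (∀ᶠ t in 𝓝 (y 0), MvPolynomial.eval (Sum.elim t (Sum.elim
            (fun a => (Q t * C1) a.1 a.2) fun a => Q t a.1 a.2)) H' = 0) ∧
          ∀ Z : Matrix ν ν ℂ, MvPolynomial.eval (Sum.elim (y 0) (Sum.elim
            (fun a => (Q (y 0) * C1) a.1 a.2) fun a => Z a.1 a.2)) H' =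
            MvPolynomial.eval (Sum.elim (fun o => o.elim 0 (y 0)) (dj (pr c) Z)) H) := by
  obtain ⟨Z, Γ, 𝓑, D, hΓ, hF, D0, hs, hb⟩ := br_famX hc h k oV cV hQ hy hV hT hq
  obtain ⟨n1, n2⟩ := end_norm hΓ hF D0 hs fun γ hγ => ⟨(hb γ hγ).1, (hb γ hγ).2.1⟩
  have dQ := (hQ _ hV).1
  obtain ⟨N, A, hA⟩ := h.1
  have f1 := fun g (hg : g ∈ Fb Q C1 (y 0)) => fb_det oV (det_cont ho hA k) hV hT dQ hg
  have f2 := fun g (hg : g ∈ Fb Q C1 (y 0)) => fb_proj oV (proj_cont ho hj k) hV hT dQ hg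
  refine ⟨_, zc_qgrp hΓ, fun a ha => mf_zc (fun γ hγ => ?_) ha.1 ha.2,
    fun g hg a ha => ⟨?_, n1 g (hM hg) a ha.2⟩, n2, fun hN H hH => ?_⟩
  · obtain ⟨-, -, g, g0, g1, g2, g3⟩ := hb γ hγ
    have := end_fb hy.continuousAt g0 g1 g3
    exact fb_mf this (blk_adj hc (f1 g this) (f2 g this) g2).1 g2
  · rw [det_mul, det_mul, det_nonsing_inv, Ring.inverse_eq_inv]
    exact mul_ne_zero (mul_ne_zero (inv_ne_zero hg.1) ha.1) hg.1
  obtain ⟨f, hf⟩ := end_djC (pr c)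
  let F : MvPolynomial (ν × ν) ℂ :=
    MvPolynomial.aeval (Sum.elim (fun o : Option σ => MvPolynomial.C (o.elim 0 (y 0))) f) H
  have eF : ∀ Y : Matrix ν ν ℂ, MvPolynomial.eval (fun a => Y a.1 a.2) F =
      MvPolynomial.eval (Sum.elim (fun o => o.elim 0 (y 0)) (dj (pr c) Y)) H := fun Y => by
    rw [end_ev]
    congr 2
    ext (o | o) <;> simp [hf]
  have e2 : ∀ (v : Option σ → ℂ) (Y : Matrix ν ν ℂ),
      MvPolynomial.eval (Sum.elim v fun a => Y a.1 a.2) (MvPolynomial.aeval (Sum.elim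
        (fun o => MvPolynomial.X (Sum.inl o)) fun o => MvPolynomial.rename Sum.inr (f o)) H) =
      MvPolynomial.eval (Sum.elim v (dj (pr c) Y)) H := fun v Y => by
    rw [end_ev]
    congr 2
    ext (o | o) <;> simp [MvPolynomial.eval_rename, hf]
  obtain ⟨p, hp⟩ : ∃ p : MvPolynomial (μ × μ) ℂ, ∀ g ∈ Fb Q C1 (y 0), ∀ γ : Matrix μ μ ℂ,
      g * bm c = bm c * γ → MvPolynomial.eval (fun a => γ⁻¹ a.1 a.2) p =
        MvPolynomial.eval (Sum.elim (fun o => o.elim 0 (y 0)) (dj (pr c) (Q (y 0) * g))) H := by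
    refine ⟨MvPolynomial.aeval (Sum.elim (fun o : Option σ => MvPolynomial.C (o.elim 0 (y 0)))
      fun o => o.elim (MvPolynomial.C (Q (y 0)).det) fun a => ∑ x, (∑ i, MvPolynomial.C
        (bm c a.1 i) * MvPolynomial.X (i, x)) *
          MvPolynomial.C (((bm c)ᵀ * (Q (y 0)).adjugate) x a.2)) H,
      fun g hg γ e => ?_⟩
    rw [end_ev]
    congr 2
    ext (o | _ | a)
    · simp
    · simp [dj, f1 g hg]
    · simp only [Sum.elim_inr, Option.elim_some, dj]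
      rw [adjugate_mul_distrib, ← Matrix.mul_assoc, (blk_adj hc (f1 g hg) (f2 g hg) e).2,
        Matrix.mul_assoc (bm c * γ⁻¹)]
      simp [mul_apply]
  obtain ⟨H', h1, h2⟩ := nullR oV cV hQ
    (hC.cont ho hU (fun t ht i j => ((hP t ht).2 i j).1) C1 k) hV hT (F := F) fun g hg => by
      obtain ⟨b1, b2⟩ := fb_blk hc hg (f2 g hg)
      rw [eF, ← hp g hg _ b1]
      have := (zc_qgrp hΓ).2.2 1 (zc_qgrp hΓ).2.1 _ (hN b2)
      rw [Matrix.one_mul] at this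
      refine this.2 p fun γ hγ => ?_
      obtain ⟨γ', m', e'⟩ := hΓ.inv γ hγ
      obtain ⟨-, -, g', g0, g1, g2, g3⟩ := hb γ' m'
      rw [← inv_eq_left_inv (A := qc γ') (B := qc γ) (by rw [← qc_mul, e', qc_one]),
        hp g' (end_fb hy.continuousAt g0 g1 g3) _ g2, ← e2]
      exact g3 _ (hH.mono fun u hu => (e2 _ _).trans hu)
  exact ⟨H', h1, fun Y => (h2 Y).trans (eF Y)⟩

theorem fullP_gen (T0 : T ≠ 0) (ho : IsOpen U) (hU : IsPreconnected U) (hP : FundM T B U P)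
    (hC : ConnRM U P fun t => P t * C1) (hc : Function.Injective c) (hj : Proj T U P C1 (pr c))
    (h : VHS T U P C1 c J j w r) (k : ContM U P V Q) {x : σ → ℂ} (hx : x ∈ V)
    (hT : MvPolynomial.aeval x T ≠ 0) (hG : Gen Q C1 c j w x) : FullP Q C1 (pr c) x := by
  obtain ⟨V', v1, v2, v3, -, v5⟩ := cont_fund T0 ho hU hP k hx hT
  have k' : ContM U P V' Q := .step _ _ _ _ _ k v1 v2 (fun i j t ht => ((v5 t ht).2 i j).1) hx v3
    (.of_forall fun _ => rfl)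
  rintro y hy rfl hn hq
  obtain ⟨N, n1, n2, n3, n4, n5⟩ := arc_dich ho hU hP hC hc hj h k' v1 v2 v5 hy v3 hT hq hG.1
  refine n5 ?_
  by_contra hN
  have t := hy.continuousAt.tendsto
  refine hn ?_
  filter_upwards [n4, t.eventually (eventually_nhdsWithin_iff.1 (hG.2 N n1 ⟨n2, hN⟩ n3)),
    t.eventually (v1.mem_nhds v3), t.eventually ((aeval_ana T).continuousAt.eventually_ne hT)]
    with u h1 h2 h3 h4
  by_contra h5
  obtain ⟨z, g, g', z0, e1, e2, e3⟩ := h2 h5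
  rw [(isH_iff (h.2.1 _ _ k' _ v3 hT).1).1 e1, (isH_iff (h.2.1 _ _ k' _ h3 h4).1).1 e2] at e3
  exact e3 (h1 z z0)

end

end Pool.Agent.Lib.MP_5591bc_ag.B
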