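import Pool.Agent.Lib.MP_5591bc_ag.B.End
import Pool.Agent.Lib.MP_5591bc_ag.J.Fin

/-! The count of the exceptional points. -/

namespace Pool.Agent.Lib.MP_5591bc_ag.B

open Matrix Filter Topology G R W M N E Z J

noncomputable section

theorem cntB {σ K : Type} [Fintype σ] [DecidableEq σ] [Field K] [NumberField K] [Algebra K ℂ]
    {n : ℕ} {T : MvPolynomial σ K} {B : σ → Matrix (Fin n) (Fin n) (MvPolynomial σ K)}
    (T0 : T ≠ 0) (h : GalM T B) : ∃ C : ℕ, ∀ (δ r m j : ℕ) (hm : m ≤ n) (w : Fin m → ℕ)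
      (J : Matrix (Fin m) (Fin m) ℝ) (U : Set (σ → ℂ)) (P : (σ → ℂ) → Matrix (Fin n) (Fin n) ℂ)
      (C1 C0 : Matrix (Fin n) (Fin n) ℂ), (C0 = diagonal fun i : Fin n => if (i : ℕ) < m then 1 else 0) →
      IsOpen U → IsPreconnected U → FundM T B U P → (ConnRM U P fun t => P t * C1) →
      Proj T U P C1 C0 → VHS T U P C1 (Fin.castLE hm) J j w r →
      ∀ (d : ℕ) (H : ℝ), 2 ≤ H → ∀ S : Finset (σ → ℂ), (∀ t ∈ S, MvPolynomial.aeval t T ≠ 0 ∧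
        (∀ j, ∃ q : Polynomial ℤ, q ≠ 0 ∧ (∀ i, |(q.coeff i : ℝ)| ≤ H) ∧
          Polynomial.aeval (t j) q = 0) ∧
        ∃ U' P', ContM U P U' P' ∧ t ∈ U' ∧ Gen P' C1 (Fin.castLE hm) j w t ∧
          ∃ (E : IntermediateField K ℂ) (x : σ → E) (z : Matrix (Fin n) (Fin n) E),
            (∀ j, (x j : ℂ) = t j) ∧ (∀ i j, (z i j : ℂ) = (P' t * C1) i j) ∧
            FiniteDimensional ℚ E ∧ Module.finrank ℚ E ≤ d ∧ ¬ GoodRM U' P' C1 C0 δ x z) →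
        (S.card : ℝ) ≤ (C * (δ + r + 1) * d * Real.log H) ^
          (C * (δ + 1) ^ (Fintype.card σ * n ^ 2)) := by
  obtain ⟨C, hC⟩ := cntR T0 h
  refine ⟨C, fun δ r m j hm w J U P C1 C0 e0 ho hU hP h1 h2 h3 d H H2 S hS => ?_⟩
  obtain rfl : C0 = pr (Fin.castLE hm) := e0.trans (pr_cast hm).symm
  have hc := Fin.castLE_injective hm
  refine hC δ r U P C1 _ ho hU hP h1 h2 (vhs_finMon T0 ho hU hP hc h3) d H H2 S fun t ht => ?_
  obtain ⟨e, b, U', P', k, hx, hG, hb⟩ := hS t ht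
  exact ⟨e, b, U', P', k, hx, fullP_gen T0 ho hU hP h1 hc h2 h3 k hx e hG, hb⟩

end

end Pool.Agent.Lib.MP_5591bc_ag.B
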