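import Pool.Agent.Lib.MP_5591bc_ag.B.Set

/-! The Hodge decomposition. -/

namespace Pool.Agent.Lib.MP_5591bc_ag.B

open Matrix Filter Topology Metric G R W M A
open scoped ComplexOrder

noncomputable section

variable {μ α : Type*} [Fintype μ] [DecidableEq μ] {J γ : Matrix μ μ ℝ} {j p q a : ℕ} {w : μ → ℕ}
  {Y g : Matrix μ μ ℂ} {v v' : μ → ℂ} {z : ℂ}

omit [Fintype μ] [DecidableEq μ] in
theorem hsa_mono (e : p ≤ q) : Fil w Y q ≤ Fil w Y p :=
  Submodule.span_mono fun _ ⟨i, hi, hv⟩ => ⟨i, e.trans hi, hv⟩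

omit [Fintype μ] [DecidableEq μ] in
theorem hsa_zero : (0 : μ → ℂ) ∈ Hp j w Y p :=
  ⟨Submodule.zero_mem _, by rw [star_zero]; exact Submodule.zero_mem _⟩

omit [Fintype μ] [DecidableEq μ] in
theorem hsa_add (hv : v ∈ Hp j w Y p) (hv' : v' ∈ Hp j w Y p) : v + v' ∈ Hp j w Y p :=
  ⟨Submodule.add_mem _ hv.1 hv'.1, by rw [star_add]; exact Submodule.add_mem _ hv.2 hv'.2⟩

omit [Fintype μ] [DecidableEq μ] in
theorem hsa_smul (c : ℂ) (hv : v ∈ Hp j w Y p) : c • v ∈ Hp j w Y p :=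
  ⟨Submodule.smul_mem _ _ hv.1, by rw [star_smul]; exact Submodule.smul_mem _ _ hv.2⟩

theorem hsa_EE : Ew w p * Ew w p = Ew w p := by
  rw [Ew, diagonal_mul_diagonal]
  congr 1
  ext i
  split_ifs <;> simp

omit [Fintype μ] in
theorem hsa_Eh : (Ew w p)ᴴ = Ew w p := by
  rw [Ew, diagonal_conjTranspose]
  congr 1
  ext i
  simp only [Pi.star_apply]
  split_ifs <;> simp

theorem hsa_fil : v ∈ Fil w Y p ↔ ∃ c, v = c ᵥ* (Ew w p * Y) := by
  constructor
  · intro hv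
    induction hv using Submodule.span_induction with
    | mem x hx =>
      obtain ⟨i, hi, rfl⟩ := hx
      refine ⟨Pi.single i 1, ?_⟩
      ext k
      simp [Ew, hi]
    | zero => exact ⟨0, by simp⟩
    | add x y _ _ hx hy =>
      obtain ⟨c, rfl⟩ := hx
      obtain ⟨d, rfl⟩ := hy
      exact ⟨c + d, by rw [add_vecMul]⟩
    | smul t x _ hx =>
      obtain ⟨c, rfl⟩ := hx
      exact ⟨t • c, by rw [smul_vecMul]⟩
  · rintro ⟨c, rfl⟩
    rw [vecMul_eq_sum]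
    refine Submodule.sum_mem _ fun i _ => Submodule.smul_mem _ _ ?_
    by_cases hi : p ≤ w i
    · refine Submodule.subset_span ⟨i, hi, ?_⟩
      ext k
      simp [Ew, hi]
    · have : (Ew w p * Y) i = 0 := by
        ext k
        simp [Ew, hi]
      rw [this]
      exact Submodule.zero_mem _

omit [DecidableEq μ] in
theorem hsa_star (v v' : μ → ℂ) : star (v ⬝ᵥ cx J *ᵥ star v') = star v ⬝ᵥ cx J *ᵥ v' := by
  simp [dotProduct, mulVec, star_sum]

theorem hsa_key (v d : μ → ℂ) : v ⬝ᵥ cx J *ᵥ star (d ᵥ* (Ew w p * Y)) =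
    (v ᵥ* (cx J * Yᴴ * Ew w p)) ⬝ᵥ star d := by
  rw [star_vecMul, conjTranspose_mul, hsa_Eh, mulVec_mulVec, dotProduct_mulVec, Matrix.mul_assoc]

theorem hs_orth (h : HS J j w Y) (hv : v ∈ Fil w Y p) (hv' : v' ∈ Fil w Y q) (e : j < p + q) :
    v ⬝ᵥ cx J *ᵥ v' = 0 := by
  induction hv using Submodule.span_induction with
  | mem x hx =>
    obtain ⟨i, hi, rfl⟩ := hx
    induction hv' using Submodule.span_induction with
    | mem y hy =>
      obtain ⟨k, hk, rfl⟩ := hy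
      exact h.2.2.2.1 i k (by omega)
    | zero => simp
    | add x y _ _ hx hy => rw [mulVec_add, dotProduct_add, hx, hy, add_zero]
    | smul t x _ hx => rw [mulVec_smul, dotProduct_smul, hx, smul_zero]
  | zero => simp
  | add x y _ _ hx hy => rw [add_dotProduct, hx, hy, add_zero]
  | smul t x _ hx => rw [smul_dotProduct, hx, smul_zero]

theorem hs_star (hp : p ≤ j) (hv : v ∈ Hp j w Y p) : star v ∈ Hp j w Y (j - p) := by
  refine ⟨hv.2, ?_⟩
  rw [star_star, Nat.sub_sub_self hp]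
  exact hv.1

theorem hsa_lt (h : HS J j w Y) (hp : p ≤ j) (hv : v ∈ Hp j w Y p) (hv' : v' ∈ Fil w Y q)
    (e : p < q) : v ⬝ᵥ cx J *ᵥ star v' = 0 := by
  rw [← star_eq_zero, hsa_star]
  exact hs_orth h hv.2 hv' (by omega)

/-- for `p < q` conjugate the product -/
theorem hs_perp (h : HS J j w Y) (hp : p ≤ j) (hq : q ≤ j) (hv : v ∈ Hp j w Y p)
    (hv' : v' ∈ Hp j w Y q) (e : p ≠ q) : v ⬝ᵥ cx J *ᵥ star v' = 0 := by
  rcases lt_or_gt_of_ne e with e | e
  · exact hsa_lt h hp hv hv'.1 e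
  · exact hs_orth h hv.1 hv'.2 (by omega)

theorem hsa_dec (h : HS J j w Y) (v : μ → ℂ) : ∃ x : ℕ → μ → ℂ, (∀ p ≤ j, x p ∈ Hp j w Y p) ∧
    v = ∑ p ∈ Finset.range (j + 1), x p := by
  have hv : v ∈ Submodule.span ℂ (⋃ p ≤ j, Hp j w Y p) := by rw [h.2.2.1]; trivial
  induction hv using Submodule.span_induction with
  | mem x hx =>
    simp only [Set.mem_iUnion] at hx
    obtain ⟨p, hp, hx⟩ := hx
    refine ⟨fun a => if a = p then x else 0, fun a _ => ?_, ?_⟩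
    · dsimp only
      split_ifs with e
      · exact e ▸ hx
      · exact hsa_zero
    · rw [Finset.sum_ite_eq', if_pos (Finset.mem_range.2 (by omega))]
  | zero => exact ⟨0, fun _ _ => hsa_zero, by simp⟩
  | add x y _ _ hx hy =>
    obtain ⟨c, hc, rfl⟩ := hx
    obtain ⟨d, hd, rfl⟩ := hy
    exact ⟨c + d, fun a ha => hsa_add (hc a ha) (hd a ha), by simp [Finset.sum_add_distrib]⟩
  | smul t x _ hx =>
    obtain ⟨c, hc, rfl⟩ := hx
    exact ⟨t • c, fun a ha => hsa_smul t (hc a ha), by simp [Finset.smul_sum]⟩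

theorem hs_ext (h : HS J j w Y) {A A' : Matrix μ α ℂ}
    (e : ∀ p ≤ j, ∀ v ∈ Hp j w Y p, v ᵥ* A = v ᵥ* A') : A = A' := by
  ext i k
  obtain ⟨x, hx, ex⟩ := hsa_dec h (Pi.single i 1)
  have : Pi.single i 1 ᵥ* A = Pi.single i 1 ᵥ* A' := by
    rw [ex, sum_vecMul, sum_vecMul]
    exact Finset.sum_congr rfl fun p hp => by
      have hp := Nat.lt_succ_iff.1 (Finset.mem_range.1 hp)
      exact e p hp _ (hx p hp)
  simpa using congrFun this k

theorem hs_dec (h : HS J j w Y) (v : μ → ℂ) : ∃ x : ℕ → μ → ℂ, (∀ p ≤ j, x p ∈ Hp j w Y p) ∧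
    v = ∑ p ∈ Finset.range (j + 1), x p := by
  exact hsa_dec h v

theorem hsa_nd (h : HS J j w Y) {x : ℕ → μ → ℂ} (hx : ∀ p ≤ j, x p ∈ Hp j w Y p) (ha : a ≤ j)
    (e : (∑ p ∈ Finset.range (j + 1), x p) ⬝ᵥ cx J *ᵥ star (x a) = 0) : x a = 0 := by
  by_contra h0
  have pos := h.2.2.2.2 a ha _ (hx a ha) h0
  rw [sum_dotProduct, Finset.sum_eq_single a] at e
  · rw [e, mul_zero] at pos
    exact lt_irrefl _ pos
  · intro b hb hba
    have hb := Nat.lt_succ_iff.1 (Finset.mem_range.1 hb)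
    exact hs_perp h hb ha (hx b hb) (hx a ha) hba
  · intro hn
    exact absurd (Finset.mem_range.2 (by omega)) hn

/-- pair with the conjugates of the components -/
theorem hs_fil (h : HS J j w Y) (hv : v ∈ Fil w Y p) : ∃ x : ℕ → μ → ℂ,
    (∀ a ≤ j, x a ∈ Hp j w Y a) ∧ (∀ a < p, x a = 0) ∧ v = ∑ a ∈ Finset.range (j + 1), x a := by
  obtain ⟨x, hx, ex⟩ := hs_dec h v
  refine ⟨fun a => if a < p then 0 else x a, fun a ha => ?_, fun a ha => if_pos ha, ?_⟩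
  · dsimp only
    split_ifs
    · exact hsa_zero
    · exact hx a ha
  · rw [ex]
    refine Finset.sum_congr rfl fun a ha => ?_
    have ha := Nat.lt_succ_iff.1 (Finset.mem_range.1 ha)
    dsimp only
    split_ifs with e
    · exact hsa_nd h hx ha (ex ▸ hs_orth h hv (hx a ha).2 (by omega))
    · rfl

theorem hs_det (h : HS J j w Y) : Y.det ≠ 0 := by
  refine ((isUnit_iff_isUnit_det Y).1 (vecMul_surjective_iff_isUnit.1 fun v => ?_)).ne_zero
  obtain ⟨x, hx, ex⟩ := hs_dec h v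
  have hv : v ∈ Fil w Y 0 := by
    rw [ex]
    exact Submodule.sum_mem _ fun p hp =>
      hsa_mono (Nat.zero_le p) (hx p (Nat.lt_succ_iff.1 (Finset.mem_range.1 hp))).1
  obtain ⟨c, hc⟩ := hsa_fil.1 hv
  exact ⟨c ᵥ* Ew w 0, by rw [hc]; exact vecMul_vecMul _ _ _⟩

theorem hs_J (h : HS J j w Y) : J.det ≠ 0 := by
  intro h0
  have d : (cx J).det = 0 := by
    have := (Complex.ofRealHom.map_det J).symm
    rw [h0, map_zero] at this
    exact this
  obtain ⟨v, hv, e⟩ := exists_vecMul_eq_zero_iff.2 d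
  obtain ⟨x, hx, ex⟩ := hs_dec h v
  refine hv (ex.trans (Finset.sum_eq_zero fun a ha => ?_))
  refine hsa_nd h hx (Nat.lt_succ_iff.1 (Finset.mem_range.1 ha)) ?_
  rw [← ex, dotProduct_mulVec, e, zero_dotProduct]

theorem hsa_EG : Ew w p * Gw J w Y p = Ew w p * Y * (cx J * Yᴴ * Ew w p) := by
  rw [Gw, Matrix.mul_add, Matrix.mul_sub, Matrix.mul_one, hsa_EE, sub_self, add_zero]
  simp only [← Matrix.mul_assoc, hsa_EE]

theorem hs_gw (h : HS J j w Y) (p : ℕ) : (Gw J w Y p).det ≠ 0 := by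
  intro d
  obtain ⟨c, hc, e⟩ := exists_vecMul_eq_zero_iff.2 d
  have e1 : Gw J w Y p * (1 - Ew w p) = 1 - Ew w p := by
    rw [Gw, Matrix.add_mul, Matrix.mul_assoc _ (Ew w p), Matrix.mul_sub (Ew w p), Matrix.mul_sub,
      Matrix.mul_sub, Matrix.sub_mul]
    simp [hsa_EE, Matrix.sub_mul]
  have e2 : c ᵥ* Ew w p = c := by
    have := congrArg (· ᵥ* (1 - Ew w p)) e
    simp only [vecMul_vecMul, e1, zero_vecMul] at this
    rw [vecMul_sub, vecMul_one, sub_eq_zero] at this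
    exact this.symm
  have e3 : (c ᵥ* (Ew w p * Y)) ᵥ* (cx J * Yᴴ * Ew w p) = 0 := by
    rw [vecMul_vecMul, ← hsa_EG, ← vecMul_vecMul, e2, e]
  obtain ⟨x, hx, h0, ex⟩ := hs_fil h (hsa_fil.2 ⟨c, rfl⟩ : c ᵥ* (Ew w p * Y) ∈ Fil w Y p)
  have e4 : c ᵥ* (Ew w p * Y) = 0 := by
    refine ex.trans (Finset.sum_eq_zero fun a ha => ?_)
    have ha := Nat.lt_succ_iff.1 (Finset.mem_range.1 ha)
    rcases lt_or_ge a p with l | l
    · exact h0 a l
    · refine hsa_nd h hx ha ?_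
      obtain ⟨d, hd⟩ := hsa_fil.1 (hsa_mono l (hx a ha).1)
      rw [← ex, hd, hsa_key, e3, zero_dotProduct]
  rw [← vecMul_vecMul, e2] at e4
  exact hs_det h (exists_vecMul_eq_zero_iff.1 ⟨c, hc, e4⟩)

theorem al_fil (h : HS J j w Y) (hv : v ∈ Fil w Y p) : v ᵥ* al J w Y p = v := by
  obtain ⟨c, rfl⟩ := hsa_fil.1 hv
  rw [vecMul_vecMul, al, ← Matrix.mul_assoc, ← Matrix.mul_assoc (Ew w p * Y), ← hsa_EG,
    Matrix.mul_assoc (Ew w p), mul_nonsing_inv _ (hs_gw h p).isUnit, Matrix.mul_one,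
    ← Matrix.mul_assoc, hsa_EE]

theorem al_act (h : HS J j w Y) (ha : a ≤ j) (hv : v ∈ Hp j w Y a) (p : ℕ) :
    v ᵥ* al J w Y p = if p ≤ a then v else 0 := by
  split_ifs with e
  · exact al_fil h (hsa_mono e hv.1)
  · have : v ᵥ* (cx J * Yᴴ * Ew w p) = 0 := by
      ext i
      have := hsa_lt h ha hv (hsa_fil.2 ⟨Pi.single i 1, rfl⟩ :
        Pi.single i 1 ᵥ* (Ew w p * Y) ∈ Fil w Y p) (by omega)
      rw [hsa_key] at this
      simpa [← Pi.single_star] using this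
    rw [al, Matrix.mul_assoc, ← vecMul_vecMul, this, zero_vecMul]

end

end Pool.Agent.Lib.MP_5591bc_ag.B
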