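import Pool.Agent.Lib.MP_5591bc_ag.B.HsA

/-! Maps that are scalars on the Hodge pieces. -/

namespace Pool.Agent.Lib.MP_5591bc_ag.B

open Matrix Filter Topology Metric G R W M A

noncomputable section

variable {μ α : Type*} [Fintype μ] [DecidableEq μ] {J γ : Matrix μ μ ℝ} {j p q a : ℕ} {w : μ → ℕ}
  {Y g : Matrix μ μ ℂ} {v v' : μ → ℂ} {z : ℂ}

theorem hsb_real {β : Type*} {A : Matrix α β ℂ} (e : A.map star = A) : cx (rp A) = A := by
  ext i k
  exact Complex.conj_eq_iff_re.1 (congrFun (congrFun e i) k)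

theorem hsb_inj {β : Type*} {A A' : Matrix α β ℝ} (e : cx A = cx A') : A = A' := by
  ext i k
  exact Complex.ofReal_injective (congrFun (congrFun e i) k)

omit [DecidableEq μ] in
theorem hsb_mul {β : Type*} (A : Matrix α μ ℝ) (A' : Matrix μ β ℝ) : cx (A * A') = cx A * cx A' :=
  Matrix.map_mul (f := Complex.ofRealHom)

theorem Dg_act (h : HS J j w Y) (ha : a ≤ j) (hv : v ∈ Hp j w Y a) (c : ℕ → ℂ) :
    v ᵥ* Dg J j w Y c = c a • v := by
  have k : ∀ p, v ᵥ* (c p • pj J w Y p) = if p = a then c p • v else 0 := fun p => by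
    rw [vecMul_smul, pj, vecMul_sub, al_act h ha hv, al_act h ha hv]
    by_cases e : p = a
    · simp [e]
    · rw [if_neg e]
      by_cases e' : p ≤ a
      · rw [if_pos e', if_pos (by omega), sub_self, smul_zero]
      · rw [if_neg e', if_neg (by omega), sub_self, smul_zero]
  rw [Dg, vecMul_sum, Finset.sum_congr rfl fun p _ => k p, Finset.sum_ite_eq',
    if_pos (Finset.mem_range.2 (by omega))]

theorem Dg_congr {c c' : ℕ → ℂ} (e : ∀ p ≤ j, c p = c' p) : Dg J j w Y c = Dg J j w Y c' := by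
  exact Finset.sum_congr rfl fun p hp => by rw [e p (Nat.lt_succ_iff.1 (Finset.mem_range.1 hp))]

theorem Dg_mul (h : HS J j w Y) (c c' : ℕ → ℂ) :
    Dg J j w Y c * Dg J j w Y c' = Dg J j w Y fun p => c p * c' p := by
  refine hs_ext h fun a ha v hv => ?_
  rw [← vecMul_vecMul, Dg_act h ha hv, smul_vecMul, Dg_act h ha hv, Dg_act h ha hv, smul_smul]

theorem Dg_const (h : HS J j w Y) (x : ℂ) : (Dg J j w Y fun _ => x) = x • 1 := by
  refine hs_ext h fun a ha v hv => ?_
  rw [Dg_act h ha hv, vecMul_smul, vecMul_one]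

theorem Dg_star (h : HS J j w Y) (c : ℕ → ℂ) :
    (Dg J j w Y c).map star = Dg J j w Y fun p => star (c (j - p)) := by
  refine hs_ext h fun a ha v hv => ?_
  have k := Dg_act h (Nat.sub_le j a) (hs_star ha hv) c
  rw [Dg_act h ha hv]
  ext i
  have := congrArg star (congrFun k i)
  simpa [vecMul, dotProduct] using this

theorem al_eq (h : HS J j w Y) (p : ℕ) :
    al J w Y p = Dg J j w Y fun a => if p ≤ a then 1 else 0 := by
  refine hs_ext h fun a ha v hv => ?_
  rw [Dg_act h ha hv, al_act h ha hv]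
  split_ifs <;> simp

theorem pj_eq (h : HS J j w Y) (p : ℕ) :
    pj J w Y p = Dg J j w Y fun a => if a = p then 1 else 0 := by
  refine hs_ext h fun a ha v hv => ?_
  rw [Dg_act h ha hv, pj, vecMul_sub, al_act h ha hv, al_act h ha hv]
  by_cases e : a = p
  · simp [e]
  · rw [if_neg e]
    by_cases e' : p ≤ a
    · rw [if_pos e', if_pos (by omega), sub_self, zero_smul]
    · rw [if_neg e', if_neg (by omega), sub_self, zero_smul]

theorem al_star (h : HS J j w Y) (hp : p ≤ j + 1) :
    (al J w Y p).map star = 1 - al J w Y (j + 1 - p) := by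
  rw [al_eq h p, Dg_star h]
  refine hs_ext h fun a ha v hv => ?_
  rw [Dg_act h ha hv, vecMul_sub, al_act h ha hv, vecMul_one]
  by_cases e : p ≤ j - a
  · rw [if_pos e, if_neg (by omega)]
    simp
  · rw [if_neg e, if_pos (by omega)]
    simp

theorem Dg_J (h : HS J j w Y) (c : ℕ → ℂ) :
    Dg J j w Y c * cx J = cx J * (Dg J j w Y fun p => c (j - p))ᵀ := by
  refine hs_ext h fun a ha v hv => ?_
  have k : replicateCol Unit (v ᵥ* (Dg J j w Y c * cx J)) =
      replicateCol Unit (v ᵥ* (cx J * (Dg J j w Y fun p => c (j - p))ᵀ)) := by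
    refine hs_ext h fun b hb x hx => ?_
    ext o
    change x ⬝ᵥ v ᵥ* (Dg J j w Y c * cx J) = x ⬝ᵥ v ᵥ* (cx J * (Dg J j w Y fun p => c (j - p))ᵀ)
    rw [dotProduct_comm x, dotProduct_comm x, ← dotProduct_mulVec, ← dotProduct_mulVec,
      ← mulVec_mulVec, ← mulVec_mulVec, mulVec_transpose, Dg_act h hb hx, dotProduct_mulVec v,
      Dg_act h ha hv, mulVec_smul, smul_dotProduct, dotProduct_smul]
    by_cases e : a = j - b
    · rw [e]
    · have := hs_perp h ha (Nat.sub_le j b) hv (hs_star hb hx) e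
      rw [star_star] at this
      rw [this, smul_zero, smul_zero]
  ext i
  exact congrFun (congrFun k i) ()

theorem cx_hH (h : HS J j w Y) (z : ℂ) :
    cx (hH J j w z Y) = Dg J j w Y fun p => z ^ p * star z ^ (j - p) := by
  refine hsb_real ?_
  rw [Dg_star h]
  refine Dg_congr fun p hp => ?_
  rw [Nat.sub_sub_self hp, star_mul', star_pow, star_pow, star_star, mul_comm]

theorem cx_WH (h : HS J j w Y) :
    cx (WH J j w Y) = Dg J j w Y fun p => Complex.I * (2 * p - j) := by
  refine hsb_real ?_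
  rw [Dg_star h]
  refine Dg_congr fun p hp => ?_
  rw [Nat.cast_sub hp]
  simp
  ring

theorem isH_iff (h : HS J j w Y) : IsH j w Y z g ↔ g = cx (hH J j w z Y) := by
  rw [cx_hH h]
  refine ⟨fun k => hs_ext h fun a ha v hv => ?_, fun k a ha v hv => ?_⟩
  · rw [k a ha v hv, Dg_act h ha hv]
  · rw [k, Dg_act h ha hv]

theorem hH_mul (h : HS J j w Y) (z z' : ℂ) :
    hH J j w z Y * hH J j w z' Y = hH J j w (z * z') Y := by
  refine hsb_inj ?_
  rw [hsb_mul, cx_hH h, cx_hH h, cx_hH h, Dg_mul h]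
  refine Dg_congr fun p _ => ?_
  rw [star_mul', mul_pow, mul_pow]
  ring

theorem hH_one (h : HS J j w Y) : hH J j w 1 Y = 1 := by
  refine hsb_inj ?_
  rw [cx_hH h, Dg_congr (c' := fun _ => 1) fun p _ => by simp, Dg_const h, one_smul]
  exact (Matrix.map_one _ Complex.ofReal_zero Complex.ofReal_one).symm

end

end Pool.Agent.Lib.MP_5591bc_ag.B
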