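import Pool.Agent.Lib.MP_5591bc_ag.B.HsB

/-! The Hodge metric at a point. -/

namespace Pool.Agent.Lib.MP_5591bc_ag.B

open Matrix Filter Topology Metric G R W M A

noncomputable section

variable {μ α : Type*} [Fintype μ] [DecidableEq μ] {J γ : Matrix μ μ ℝ} {j p q a : ℕ} {w : μ → ℕ}
  {Y g : Matrix μ μ ℂ} {v v' : μ → ℂ} {z : ℂ}

open scoped ComplexOrder in
theorem hsc_pd (h : HS J j w Y) : (hH J j w Complex.I Y * J).PosDef := by
  have sI : star Complex.I = -Complex.I := Complex.conj_I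
  refine PosDef.of_dotProduct_mulVec_pos ?_ fun u hu => ?_
  · rw [IsHermitian, conjTranspose_eq_transpose_of_trivial, transpose_mul, h.2.1]
    refine cxa_injective ?_
    rw [cxa_mul, cxa_mul, cxa_smul, cxa_tr, cx_hH h, Dg_J h, Matrix.smul_mul, ← Matrix.mul_smul,
      ← transpose_smul, ← Matrix.one_mul (Dg J j w Y _), ← Matrix.smul_mul, ← Dg_const h, Dg_mul h]
    refine congrArg (fun x => cx J * xᵀ) (Dg_congr fun p hp => ?_)
    obtain ⟨k, rfl⟩ := Nat.exists_eq_add_of_le hp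
    rw [sI, Nat.add_sub_cancel_left, Nat.add_sub_cancel, neg_pow Complex.I, neg_pow Complex.I,
      pow_add]
    have : (-1 : ℂ) ^ k * (-1) ^ k = 1 := by rw [← mul_pow]; simp
    push_cast
    linear_combination (-1) ^ p * Complex.I ^ p * Complex.I ^ k * this
  · obtain ⟨x, hx, e⟩ := hs_dec h fun i => (u i : ℂ)
    have e1 : ((u ⬝ᵥ (hH J j w Complex.I Y * J) *ᵥ u : ℝ) : ℂ) =
        (fun i => (u i : ℂ)) ⬝ᵥ cx (hH J j w Complex.I Y * J) *ᵥ star fun i => (u i : ℂ) := by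
      simp [dotProduct, mulVec]
    have e2 : ∀ p ∈ Finset.range (j + 1),
        x p ⬝ᵥ cx (hH J j w Complex.I Y * J) *ᵥ star (∑ q ∈ Finset.range (j + 1), x q) =
        Complex.I ^ p * (-Complex.I) ^ (j - p) * (x p ⬝ᵥ cx J *ᵥ star (x p)) := fun p hp => by
      have hp' := Nat.lt_succ_iff.1 (Finset.mem_range.1 hp)
      rw [cxa_mul, ← mulVec_mulVec, dotProduct_mulVec, cx_hH h, Dg_act h hp' (hx p hp'),
        smul_dotProduct, sI, smul_eq_mul, star_sum, mulVec_sum, dotProduct_sum,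
        Finset.sum_eq_single_of_mem p hp fun q hq ne => hs_perp h hp'
          (Nat.lt_succ_iff.1 (Finset.mem_range.1 hq)) (hx p hp')
          (hx q (Nat.lt_succ_iff.1 (Finset.mem_range.1 hq))) ne.symm]
    rw [star_trivial, ← Complex.zero_lt_real, e1, e, sum_dotProduct, Finset.sum_congr rfl e2]
    obtain ⟨p, hp, n0⟩ : ∃ p ∈ Finset.range (j + 1), x p ≠ 0 := by
      refine Finset.exists_ne_zero_of_sum_ne_zero fun h0 => hu ?_
      ext i
      simpa using congrFun (e.trans h0) i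
    have pos := fun p (hp : p ∈ Finset.range (j + 1)) =>
      h.2.2.2.2 p (Nat.lt_succ_iff.1 (Finset.mem_range.1 hp)) (x p)
        (hx p (Nat.lt_succ_iff.1 (Finset.mem_range.1 hp)))
    refine Finset.sum_pos' (fun q hq => ?_) ⟨p, hp, pos p hp n0⟩
    by_cases h0 : x q = 0
    · simp [h0]
    · exact (pos q hq h0).le

/-- the inverse of `hH I * J`, which is symmetric and positive on row vectors -/
theorem SH_pd (h : HS J j w Y) : (SH J j w Y).PosDef := by
  have e : hH J j w Complex.I Y * J * SH J j w Y = 1 := by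
    rw [SH, Matrix.mul_assoc, mul_nonsing_inv_cancel_left _ _ (hs_J h).isUnit, hH_mul h, mul_neg,
      Complex.I_mul_I, neg_neg, hH_one h]
  rw [← inv_eq_right_inv e]
  exact (hsc_pd h).inv

/-- `W J + J Wᵀ = 0` by `Dg_J`, and `W` commutes with `hH` -/
theorem SH_sk (h : HS J j w Y) : (SH J j w Y * WH J j w Y)ᵀ = -(SH J j w Y * WH J j w Y) := by
  have uJ := (hs_J h).isUnit
  have e1 : (SH J j w Y)ᵀ = SH J j w Y := by
    rw [← conjTranspose_eq_transpose_of_trivial]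
    exact (SH_pd h).isHermitian
  have e2 : WH J j w Y * J = -(J * (WH J j w Y)ᵀ) := by
    refine cxa_injective ?_
    rw [cxa_neg, cxa_mul, cxa_mul, cxa_tr, cx_WH h, Dg_J h, ← Matrix.mul_neg, ← transpose_neg,
      ← neg_one_smul ℂ (Dg J j w Y fun p => Complex.I * (2 * p - j)),
      ← Matrix.one_mul (Dg J j w Y fun p => Complex.I * (2 * p - j)), ← Matrix.smul_mul,
      ← Dg_const h, Dg_mul h]
    refine congrArg (fun x => cx J * xᵀ) (Dg_congr fun p hp => ?_)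
    rw [Nat.cast_sub hp]
    ring
  have e3 : WH J j w Y * hH J j w (-Complex.I) Y = hH J j w (-Complex.I) Y * WH J j w Y := by
    refine cxa_injective ?_
    rw [cxa_mul, cxa_mul, cx_WH h, cx_hH h, Dg_mul h, Dg_mul h]
    exact Dg_congr fun p _ => mul_comm _ _
  have e4 : (WH J j w Y)ᵀ * J⁻¹ = -(J⁻¹ * WH J j w Y) := by
    have e5 := congrArg (fun x => J⁻¹ * x * J⁻¹) e2
    simp only [Matrix.mul_neg, Matrix.neg_mul] at e5
    rw [nonsing_inv_mul_cancel_left _ _ uJ, Matrix.mul_assoc,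
      mul_nonsing_inv_cancel_right _ _ uJ] at e5
    rw [e5, neg_neg]
  rw [transpose_mul, e1, SH, ← Matrix.mul_assoc, e4, Matrix.neg_mul, Matrix.mul_assoc, e3,
    Matrix.mul_assoc]

theorem hsc_tr {e : Matrix μ μ ℂ} (h : e * e = e) : ∃ n : ℕ, trace e = n := by
  have h1 : IsIdempotentElem (toLin' e) := by
    rw [IsIdempotentElem, Module.End.mul_eq_comp, ← toLin'_mul, h]
  exact ⟨_, (trace_toLin'_eq e).symm.trans (LinearMap.IsIdempotentElem.isProj_range _ h1).trace⟩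

/-- the trace of an idempotent is its rank -/
theorem WH_tr (h : HS J j w Y) :
    -trace (WH J j w Y * WH J j w Y) ≤ (j : ℝ) ^ 2 * Fintype.card μ := by
  have h1 : ∀ p, ∃ n : ℕ, trace (pj J w Y p) = n := fun p => by
    refine hsc_tr ?_
    rw [pj_eq h, Dg_mul h]
    exact Dg_congr fun a _ => by split_ifs <;> simp
  choose n hn using h1
  have h2 : ∀ c : ℕ → ℝ, trace (Dg J j w Y fun p => (c p : ℂ)) =
      ((∑ p ∈ Finset.range (j + 1), c p * n p : ℝ) : ℂ) := fun c => by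
    simp [Dg, trace_sum, hn]
  have h3 : ∑ p ∈ Finset.range (j + 1), (j : ℝ) ^ 2 * n p = (j : ℝ) ^ 2 * Fintype.card μ := by
    refine Complex.ofReal_injective ?_
    rw [← h2 fun _ => (j : ℝ) ^ 2, Dg_const h]
    simp
  have h4 : trace (WH J j w Y * WH J j w Y) =
      ∑ p ∈ Finset.range (j + 1), -(2 * (p : ℝ) - j) ^ 2 * n p := by
    refine Complex.ofReal_injective ?_
    rw [← h2 fun p => -(2 * (p : ℝ) - j) ^ 2]
    have : trace (cx (WH J j w Y * WH J j w Y)) = (trace (WH J j w Y * WH J j w Y) : ℝ) := by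
      simp [trace]
    rw [← this, cxa_mul, cx_WH h, Dg_mul h]
    refine congrArg trace (Dg_congr fun p _ => ?_)
    push_cast
    linear_combination (2 * (p : ℂ) - j) ^ 2 * Complex.I_mul_I
  rw [h4, ← h3, ← Finset.sum_neg_distrib]
  refine Finset.sum_le_sum fun p hp => ?_
  have h5 : (p : ℝ) ≤ j := by exact_mod_cast Nat.lt_succ_iff.1 (Finset.mem_range.1 hp)
  have h6 : (0 : ℝ) ≤ p := Nat.cast_nonneg _
  rw [neg_mul, neg_neg]
  exact mul_le_mul_of_nonneg_right (by nlinarith) (Nat.cast_nonneg _)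

omit [DecidableEq μ] in
theorem hsc_fil (g : Matrix μ μ ℂ) (hv : v ∈ Fil w Y p) : v ᵥ* g ∈ Fil w (Y * g) p := by
  induction hv using Submodule.span_induction with
  | mem x hx =>
    obtain ⟨i, hi, rfl⟩ := hx
    exact Submodule.subset_span ⟨i, hi, rfl⟩
  | zero => simp
  | add x y _ _ hx hy => rw [add_vecMul]; exact add_mem hx hy
  | smul c x _ hx => rw [smul_vecMul]; exact Submodule.smul_mem _ c hx

omit [DecidableEq μ] in
theorem hsc_star (γ : Matrix μ μ ℝ) (v : μ → ℂ) : star (v ᵥ* cx γ) = star v ᵥ* cx γ := by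
  ext i
  simp [vecMul, dotProduct]

omit [DecidableEq μ] in
theorem hsc_hp (γ : Matrix μ μ ℝ) (hv : v ∈ Hp j w Y p) : v ᵥ* cx γ ∈ Hp j w (Y * cx γ) p :=
  ⟨hsc_fil _ hv.1, hsc_star γ v ▸ hsc_fil _ hv.2⟩

omit [DecidableEq μ] in
theorem hsc_form (hγ : γ * J * γᵀ = J) (v v' : μ → ℂ) :
    (v ᵥ* cx γ) ⬝ᵥ cx J *ᵥ (v' ᵥ* cx γ) = v ⬝ᵥ cx J *ᵥ v' := by
  rw [← dotProduct_mulVec, ← mulVec_transpose, mulVec_mulVec, mulVec_mulVec, ← cxa_tr, ← cxa_mul,
    ← cxa_mul, hγ]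

theorem hsc_inv (h : HS J j w Y) (hγ : γ * J * γᵀ = J) : γ * (J * γᵀ * J⁻¹) = 1 := by
  rw [← Matrix.mul_assoc, ← Matrix.mul_assoc, hγ, mul_nonsing_inv _ (hs_J h).isUnit]

theorem hs_mul (h : HS J j w Y) (hγ : γ * J * γᵀ = J) : HS J j w (Y * cx γ) := by
  have e1 := hsc_inv h hγ
  have e2 := mul_eq_one_comm.1 e1
  generalize J * γᵀ * J⁻¹ = δ at e1 e2
  have e3 : ∀ v : μ → ℂ, v ᵥ* cx δ ᵥ* cx γ = v := fun v => by
    rw [vecMul_vecMul, ← cxa_mul, e2, cxa_one, vecMul_one]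
  refine ⟨h.1, h.2.1, eq_top_iff.2 fun v _ => ?_, fun i a hi => ?_, fun p hp v hv n0 => ?_⟩
  · obtain ⟨x, hx, e⟩ := hs_dec h (v ᵥ* cx δ)
    rw [← e3 v, e, sum_vecMul]
    refine Submodule.sum_mem _ fun p hp => Submodule.subset_span ?_
    have hp' := Nat.lt_succ_iff.1 (Finset.mem_range.1 hp)
    exact Set.mem_iUnion₂.2 ⟨p, hp', hsc_hp γ (hx p hp')⟩
  · exact (hsc_form hγ (Y i) (Y a)).trans (h.2.2.2.1 i a hi)
  · have h1 := hsc_hp δ hv
    rw [Matrix.mul_assoc, ← cxa_mul, e1, cxa_one, Matrix.mul_one] at h1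
    have h2 := h.2.2.2.2 p hp _ h1 fun h0 => n0 (by rw [← e3 v, h0, zero_vecMul])
    rwa [← hsc_form hγ, ← hsc_star, e3] at h2

theorem hH_conj (h : HS J j w Y) (hγ : γ * J * γᵀ = J) (z : ℂ) :
    γ * hH J j w z (Y * cx γ) = hH J j w z Y * γ := by
  refine cxa_injective (hs_ext h fun p hp v hv => ?_)
  rw [cxa_mul, cxa_mul, cx_hH h, cx_hH (hs_mul h hγ), ← vecMul_vecMul, ← vecMul_vecMul,
    Dg_act h hp hv, Dg_act (hs_mul h hγ) hp (hsc_hp γ hv), smul_vecMul]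

theorem SH_conj (h : HS J j w Y) (hγ : γ * J * γᵀ = J) :
    SH J j w (Y * cx γ) = γᵀ * SH J j w Y * γ := by
  have e1 := mul_eq_one_comm.1 (hsc_inv h hγ)
  have e2 : γᵀ * J⁻¹ * γ = J⁻¹ := by
    refine (inv_eq_right_inv ?_).symm
    rw [← e1]
    simp only [Matrix.mul_assoc]
  rw [SH, SH, Matrix.mul_assoc, Matrix.mul_assoc, ← hH_conj h hγ, ← Matrix.mul_assoc,
    ← Matrix.mul_assoc, e2]

end

end Pool.Agent.Lib.MP_5591bc_ag.B
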