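import Pool.Agent.Lib.MP_5591bc_ag.B.Set
import Pool.Agent.Lib.MP_5591bc_ag.A.Lap

/-! The Laplacian of the Hodge norm. -/

namespace Pool.Agent.Lib.MP_5591bc_ag.B

open Matrix Filter Topology Metric G R W M A

noncomputable section

variable {μ α : Type*} [Fintype μ] [DecidableEq μ] [Fintype α] [DecidableEq α] {κ : ℝ}
  {S W h : ℂ → Matrix μ μ ℝ} {u : ℂ} {m : ℕ} {ρ : Matrix μ μ ℝ → Matrix α α ℝ}
  {d : Matrix μ μ ℝ →ₗ[ℝ] Matrix α α ℝ}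

theorem lx_form (hρ : RepD m ρ d) (hd : ∀ᶠ w in 𝓝 u, HD κ S W w) (e : α → ℝ) :
    pv 1 (fun w => e ⬝ᵥ ρ (S w) *ᵥ e) u = e ⬝ᵥ ρ (S u) *ᵥ (d (-pM Complex.I W u) *ᵥ e) ∧
    pv Complex.I (fun w => e ⬝ᵥ ρ (S w) *ᵥ e) u = e ⬝ᵥ ρ (S u) *ᵥ (d (pM 1 W u) *ᵥ e) ∧
    pv 1 (pv 1 fun w => e ⬝ᵥ ρ (S w) *ᵥ e) u +
      pv Complex.I (pv Complex.I fun w => e ⬝ᵥ ρ (S w) *ᵥ e) u =
      (d (-pM Complex.I W u) *ᵥ e) ⬝ᵥ ρ (S u) *ᵥ (d (-pM Complex.I W u) *ᵥ e) +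
      (d (pM 1 W u) *ᵥ e) ⬝ᵥ ρ (S u) *ᵥ (d (pM 1 W u) *ᵥ e) := by
  have h0 := hd.self_of_nhds
  have aS := h0.aS
  have aI := h0.aW
  have sy : ∀ᶠ w in 𝓝 u, (S w)ᵀ = S w := hd.mono fun w hw => by
    have := hw.pd.1.eq
    rwa [conjTranspose_eq_transpose_of_trivial] at this
  obtain ⟨a1, a2⟩ := lap_dir hρ (A := fun w => (-1 : ℝ) • pM Complex.I W w)
    (v := 1) aS ((aI.pM _).smul _) sy (hd.mono fun w hw => by rw [hw.dx, neg_one_smul]) e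
  obtain ⟨b1, b2⟩ := lap_dir hρ (v := Complex.I) aS (aI.pM 1) sy (hd.mono fun w hw => hw.dy) e
  rw [pM_smul (aI.pM _), pM_comm aI] at a2
  simp only [neg_one_smul] at a1 a2
  refine ⟨a1, b1, ?_⟩
  rw [a2, b2, map_neg d (pM Complex.I (pM 1 _) u), neg_mulVec _ (d (pM Complex.I (pM 1 _) u)),
    mulVec_neg, dotProduct_neg]
  ring

theorem lx_an (hρ : RepD m ρ d) (hS : AnM S u) (e : α → ℝ) :
    AnalyticAt ℝ (fun w => e ⬝ᵥ ρ (S w) *ᵥ e) u := by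
  exact lap_qa (hρ.an _ u hS) e

/-- `A.lap_dir` twice, as in `A.lap_form` -/
theorem lx_ls (hρ : RepD m ρ d) (hd : ∀ᶠ w in 𝓝 u, HD κ S W w) (e : α → ℝ) :
    LS (fun w => e ⬝ᵥ ρ (S w) *ᵥ e) u := by
  obtain ⟨k1, k2, k3⟩ := lx_form hρ hd e
  have p := hρ.psd hd.self_of_nhds.pd.posSemidef
  rw [LS, k1, k2, k3, mul_add]
  exact add_le_add (lap_cs p _ _) (lap_cs p _ _)

theorem lx_max (hρ : RepD m ρ d) (hd : ∀ᶠ w in 𝓝 u, HD κ S W w) {e : α → ℝ}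
    (hm : IsLocalMax (fun w => e ⬝ᵥ ρ (S w) *ᵥ e) u) :
    d (pM 1 W u) *ᵥ e = 0 ∧ d (pM Complex.I W u) *ᵥ e = 0 := by
  obtain ⟨-, -, k3⟩ := lx_form hρ hd e
  have p := hρ.pd hd.self_of_nhds.pd
  have t := max_test (lx_an hρ hd.self_of_nhds.aS e) hm
  rw [k3] at t
  have n1 := lap_nn p.posSemidef (d (-pM Complex.I W u) *ᵥ e)
  have n2 := lap_nn p.posSemidef (d (pM 1 W u) *ᵥ e)
  refine ⟨lap_z p (by linarith), ?_⟩
  have := lap_z p (x := d (-pM Complex.I W u) *ᵥ e) (by linarith)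
  rwa [map_neg, neg_mulVec, neg_eq_zero] at this

theorem lx_anh (hρ : RepD m ρ d) (hh : AnM h u) (e : α → ℝ) (a : α) :
    AnalyticAt ℝ (fun w => (ρ (h w) *ᵥ e) a) u := by
  exact (hρ.an _ u hh).lin (lapC e) a ()

theorem lx_const (hρ : RepD m ρ d) {c : ℂ} {r : ℝ} (hh : ∀ u ∈ ball c r, HH W h u) {e : α → ℝ}
    (h0 : ∀ u ∈ ball c r, d (pM 1 W u) *ᵥ e = 0 ∧ d (pM Complex.I W u) *ᵥ e = 0) :
    ∀ u ∈ ball c r, ρ (h u) *ᵥ e = ρ (h c) *ᵥ e := by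
  intro u hu
  have key : ∀ w ∈ ball c r, ∀ (v : ℂ) (X : Matrix μ μ ℝ), pM v h w = h w * X →
      d X *ᵥ e = 0 → pM v (fun w => lapC e (ρ (h w))) w = 0 := by
    intro w hw v X e1 q
    rw [pM_lin (hρ.an _ w (hh w hw).1), hρ.der _ w v _ (hh w hw).1 e1]
    ext a b
    simp only [lapC, LinearMap.coe_mk, AddHom.coe_mk, of_apply, ← mulVec_mulVec, q, mulVec_zero,
      Pi.zero_apply, Matrix.zero_apply]
  have := pM_zero (A := fun w => lapC e (ρ (h w)))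
    (fun w hw => (hρ.an _ w (hh w hw).1).lin _) (fun w hw => ?_) u hu
  · exact funext fun a => congrFun (congrFun this a) ()
  obtain ⟨-, a, b, e1, e2⟩ := hh w hw
  refine ⟨key w hw _ _ e1 ?_, key w hw _ _ e2 ?_⟩
  · rw [map_add, map_smul, map_smul, add_mulVec, smul_mulVec, smul_mulVec, (h0 w hw).1,
      (h0 w hw).2, smul_zero, smul_zero, add_zero]
  · rw [map_sub, map_smul, map_smul, sub_mulVec, smul_mulVec, smul_mulVec, (h0 w hw).1,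
      (h0 w hw).2, smul_zero, smul_zero, sub_zero]

end

end Pool.Agent.Lib.MP_5591bc_ag.B
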