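import Pool.Agent.Lib.MP_5591bc_ag.B.Defs
import Pool.Agent.Lib.MP_5591bc_ag.A.Cr

/-! Shared definitions for the theorem of the fixed part in any weight. -/

namespace Pool.Agent.Lib.MP_5591bc_ag.B

open Matrix Filter Topology Metric G R W M A

noncomputable section

variable {μ ν α β σ : Type*}

/-- the real part -/
abbrev rp (A : Matrix α β ℂ) : Matrix α β ℝ := A.map Complex.re

/-- partial derivative of a complex matrix in a real direction -/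
def pC (v : ℂ) (A : ℂ → Matrix α β ℂ) (u : ℂ) : Matrix α β ℂ :=
  of fun i j => fderiv ℝ (A · i j) u v

/-- `∂x - i ∂y` -/
def Dp (A : ℂ → Matrix α β ℂ) (u : ℂ) : Matrix α β ℂ := pC 1 A u - Complex.I • pC Complex.I A u

/-- `∂x + i ∂y` -/
def Db (A : ℂ → Matrix α β ℂ) (u : ℂ) : Matrix α β ℂ := pC 1 A u + Complex.I • pC Complex.I A u

variable [Fintype μ] [DecidableEq μ]

/-- the rows of weight at least `p` -/
def Ew (w : μ → ℕ) (p : ℕ) : Matrix μ μ ℂ := diagonal fun i => if p ≤ w i then 1 else 0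

/-- the Gram matrix of `F^p` -/
def Gw (J : Matrix μ μ ℝ) (w : μ → ℕ) (Y : Matrix μ μ ℂ) (p : ℕ) : Matrix μ μ ℂ :=
  Ew w p * Y * cx J * Yᴴ * Ew w p + (1 - Ew w p)

/-- the projector on `F^p` -/
def al (J : Matrix μ μ ℝ) (w : μ → ℕ) (Y : Matrix μ μ ℂ) (p : ℕ) : Matrix μ μ ℂ :=
  cx J * Yᴴ * Ew w p * (Gw J w Y p)⁻¹ * (Ew w p * Y)

/-- the projector on `H^{p,q}` -/
def pj (J : Matrix μ μ ℝ) (w : μ → ℕ) (Y : Matrix μ μ ℂ) (p : ℕ) : Matrix μ μ ℂ :=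
  al J w Y p - al J w Y (p + 1)

/-- the map acting by `c p` on `H^{p,q}` -/
def Dg (J : Matrix μ μ ℝ) (j : ℕ) (w : μ → ℕ) (Y : Matrix μ μ ℂ) (c : ℕ → ℂ) : Matrix μ μ ℂ :=
  ∑ p ∈ Finset.range (j + 1), c p • pj J w Y p

/-- the action of `z` -/
def hH (J : Matrix μ μ ℝ) (j : ℕ) (w : μ → ℕ) (z : ℂ) (Y : Matrix μ μ ℂ) : Matrix μ μ ℝ :=
  rp (Dg J j w Y fun p => z ^ p * star z ^ (j - p))

/-- its generator -/
def WH (J : Matrix μ μ ℝ) (j : ℕ) (w : μ → ℕ) (Y : Matrix μ μ ℂ) : Matrix μ μ ℝ :=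
  rp (Dg J j w Y fun p => Complex.I * (2 * p - j))

/-- the Hodge metric -/
def SH (J : Matrix μ μ ℝ) (j : ℕ) (w : μ → ℕ) (Y : Matrix μ μ ℂ) : Matrix μ μ ℝ :=
  J⁻¹ * hH J j w (-Complex.I) Y

/-- a holomorphic horizontal family of polarised Hodge structures at `u` -/
structure VH (J : Matrix μ μ ℝ) (j : ℕ) (w : μ → ℕ) (Y : ℂ → Matrix μ μ ℂ) (u : ℂ) : Prop where
  an : ∀ i k, AnalyticAt ℂ (Y · i k) u
  hs : HS J j w (Y u)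
  gr : ∀ i, (fun k => deriv (Y · i k) u) ∈ Fil w (Y u) (w i - 1)

/-- the equations of the Hodge metric `S` and of the generator `W` at `u` -/
structure HD (κ : ℝ) (S W : ℂ → Matrix μ μ ℝ) (u : ℂ) : Prop where
  aS : AnM S u
  aW : AnM W u
  pd : (S u).PosDef
  sk : (S u * W u)ᵀ = -(S u * W u)
  tr : -trace (W u * W u) ≤ κ
  dx : pM 1 S u = S u * -pM Complex.I W u
  dy : pM Complex.I S u = S u * pM 1 W u
  cx : W u * pM 1 W u - pM 1 W u * W u = (2 : ℝ) • pM Complex.I W u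
  cy : W u * pM Complex.I W u - pM Complex.I W u * W u = (-2 : ℝ) • pM 1 W u

/-- the equations of the action `h` of a number -/
def HH (W h : ℂ → Matrix μ μ ℝ) (u : ℂ) : Prop :=
  AnM h u ∧ ∃ a b : ℝ, pM 1 h u = h u * (a • pM 1 W u + b • pM Complex.I W u) ∧
    pM Complex.I h u = h u * (a • pM Complex.I W u - b • pM 1 W u)

/-- the energy density -/
def En (W : ℂ → Matrix μ μ ℝ) (u : ℂ) : ℝ :=
  trace (pM 1 W u * pM 1 W u + pM Complex.I W u * pM Complex.I W u)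

/-- a multivalued family of Hodge metrics on the complement of `Z`, with monodromy `Γ` -/
structure FamX {X : Type*} (κ : ℝ) (S W : X → Matrix μ μ ℝ) (h : ℂ → X → Matrix μ μ ℝ)
    (Z : Finset ℂ) (Γ : Set (Matrix μ μ ℝ)) (𝓑 : Set (Set ℂ × (ℂ → X))) : Prop where
  op : ∀ b ∈ 𝓑, IsOpen b.1
  hd : ∀ b ∈ 𝓑, ∀ u ∈ b.1, HD κ (fun v => S (b.2 v)) (fun v => W (b.2 v)) u
  hh : ∀ b ∈ 𝓑, ∀ u ∈ b.1, ∀ z ≠ 0, HH (fun v => W (b.2 v)) (fun v => h z (b.2 v)) u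
  fin : ∀ c ∉ Z, ∃ ρ > 0, ∃ 𝒥 : Set (ℂ → X), 𝒥.Finite ∧ 𝒥.Nonempty ∧
    (∀ Ω ∈ 𝒥, (ball c ρ, Ω) ∈ 𝓑) ∧ ∀ b ∈ 𝓑, ∀ u ∈ b.1, u ∈ ball c ρ →
      ∃ Ω ∈ 𝒥, ∃ γ ∈ Γ, S (b.2 u) = γᵀ * S (Ω u) * γ
  ext : ∀ b ∈ 𝓑, ∀ u ∈ b.1, ∀ (s : ℂ) (R : ℝ), 0 < R → u ≠ s →
    (∀ ζ ∈ ball (0 : ℂ) R, s + (u - s) * Complex.exp ζ ∉ Z) → ∃ Ω : ℂ → X,
      (∀ ζ ∈ ball (0 : ℂ) R, HD κ (fun v => S (Ω v)) (fun v => W (Ω v)) ζ) ∧ Ω 0 = b.2 u ∧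
      ∀ ζ ∈ ball (0 : ℂ) R,
        ∃ b' ∈ 𝓑, s + (u - s) * Complex.exp ζ ∈ b'.1 ∧ Ω ζ = b'.2 (s + (u - s) * Complex.exp ζ)
  conn : ∀ f : X → ℝ, (∀ b ∈ 𝓑, AnalyticOnNhd ℝ (fun u => f (b.2 u)) b.1) →
    ∀ b ∈ 𝓑, ∀ b' ∈ 𝓑, ∀ u ∈ b.1, (∀ᶠ v in 𝓝 u, f (b.2 v) = 0) → ∀ v ∈ b'.1, f (b'.2 v) = 0

variable [Fintype ν] [DecidableEq ν]

/-- the columns `c` of the identity -/
def bm (c : μ → ν) : Matrix ν μ ℂ := (1 : Matrix ν ν ℂ).submatrix id c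

/-- the projector on the coordinates `c` -/
def pr (c : μ → ν) : Matrix ν ν ℂ := bm c * (bm c)ᵀ

/-- the `g` such that `P s * g` lies in the fibre at `s` of the closure of `(t, P * C1, P)` -/
def Fb [Fintype σ] (P : (σ → ℂ) → Matrix ν ν ℂ) (C1 : Matrix ν ν ℂ) (s : σ → ℂ) :
    Set (Matrix ν ν ℂ) :=
  {g | g.det ≠ 0 ∧ ∀ H : MvPolynomial (σ ⊕ (ν × ν) ⊕ (ν × ν)) ℂ,
    (∀ᶠ t in 𝓝 s, MvPolynomial.eval (Sum.elim t (Sum.elim (fun a => (P t * C1) a.1 a.2)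
      fun a => P t a.1 a.2)) H = 0) →
    MvPolynomial.eval (Sum.elim s (Sum.elim (fun a => (P s * C1) a.1 a.2)
      fun a => (P s * g) a.1 a.2)) H = 0}

end

end Pool.Agent.Lib.MP_5591bc_ag.B
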